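import Mathlib
import Pool.Agent.H117R2.UC.Defs

set_option autoImplicit false

/-! Task T05 (helper647): `TA x y ≥ 0` for `9/20 ≤ x ≤ y ≤ 1`. -/

namespace Pool.Agent.H647R2.UCT05
open Real Finset Pool.Agent.H117R2.UC

theorem hb_eq : hb = binEntropy := by
  funext t
  rw [binEntropy_eq_negMulLog_add_negMulLog_one_sub, hb]

/-- `log t - log (1-t) ≥ 4t - 2` on `[1/2,1)` -/
theorem log_ratio {t : ℝ} (h0 : 1 / 2 ≤ t) (h1 : t < 1) : 4 * t - 2 ≤ log t - log (1 - t) := by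
  have hx : |2 * t - 1| < 1 := by rw [abs_lt]; constructor <;> linarith
  have h := hasSum_log_sub_log_of_abs_lt_one hx
  have h2 := le_hasSum h 0 (fun k _ => by
    have : 0 ≤ 2 * t - 1 := by linarith
    positivity)
  have e1 : log (1 + (2 * t - 1)) = log 2 + log t := by
    rw [← log_mul (by norm_num) (by linarith)]; congr 1; ring
  have e2 : log (1 - (2 * t - 1)) = log 2 + log (1 - t) := by
    rw [← log_mul (by norm_num) (by linarith)]; congr 1; ring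
  rw [e1, e2] at h2
  norm_num at h2
  linarith

theorem anti1 : AntitoneOn (fun t => hb t + 2 * (t - 1 / 2) ^ 2) (Set.Icc (1 / 2) 1) := by
  rw [hb_eq]
  apply antitoneOn_of_deriv_nonpos (convex_Icc _ _)
  · apply Continuous.continuousOn
    exact binEntropy_continuous.add (by fun_prop)
  · rw [interior_Icc]
    intro t ht
    exact ((differentiableAt_binEntropy (by linarith [ht.1]) (by linarith [ht.2])).add
      (by fun_prop)).differentiableWithinAt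
  · rw [interior_Icc]
    intro t ht
    have hd : HasDerivAt (fun t => binEntropy t + 2 * (t - 1 / 2) ^ 2)
        ((log (1 - t) - log t) + (4 * t - 2)) t := by
      have h1 := hasDerivAt_binEntropy (p := t) (by linarith [ht.1]) (by linarith [ht.2])
      have h2 : HasDerivAt (fun t : ℝ => 2 * (t - 1 / 2) ^ 2) (4 * t - 2) t := by
        have h3 := (((hasDerivAt_id t).sub_const (1 / 2 : ℝ)).pow 2).const_mul 2
        have e : (2 : ℝ) * (((2 : ℕ) : ℝ) * (id t - 1 / 2) ^ (2 - 1) * 1) = 4 * t - 2 := by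
          simp only [id]; norm_num; ring
        rw [e] at h3
        exact h3
      exact h1.add h2
    rw [hd.deriv]
    have := log_ratio ht.1.le ht.2
    linarith

theorem anti2 : AntitoneOn (fun t => hb t - 2 / 9 * t) (Set.Icc (9 / 20) 1) := by
  rw [hb_eq]
  apply antitoneOn_of_deriv_nonpos (convex_Icc _ _)
  · apply Continuous.continuousOn
    exact binEntropy_continuous.sub (by fun_prop)
  · rw [interior_Icc]
    intro t ht
    exact ((differentiableAt_binEntropy (by linarith [ht.1]) (by linarith [ht.2])).sub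
      (by fun_prop)).differentiableWithinAt
  · rw [interior_Icc]
    intro t ht
    have ht0 : 0 < t := by linarith [ht.1]
    have hd : HasDerivAt (fun t => binEntropy t - 2 / 9 * t)
        ((log (1 - t) - log t) - 2 / 9) t := by
      have h1 := hasDerivAt_binEntropy (p := t) (by linarith [ht.1]) (by linarith [ht.2])
      have h2 : HasDerivAt (fun t : ℝ => 2 / 9 * t) (2 / 9) t := by
        have := (hasDerivAt_id t).const_mul (2 / 9 : ℝ)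
        simpa using this
      exact h1.sub h2
    rw [hd.deriv]
    have h3 : log (1 - t) - log t = log ((1 - t) / t) := by
      rw [log_div (by linarith [ht.2]) (by linarith)]
    have h4 : log ((1 - t) / t) ≤ (1 - t) / t - 1 :=
      log_le_sub_one_of_pos (div_pos (by linarith [ht.2]) ht0)
    have h5 : (1 - t) / t ≤ 11 / 9 := by
      rw [div_le_iff₀ ht0]; linarith [ht.1]
    rw [h3]; linarith

theorem hb_symm (t : ℝ) : hb (1 - t) = hb t := by rw [hb_eq, binEntropy_one_sub]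

/-- main entropy bound -/
theorem hb_gap {x y : ℝ} (hx0 : 9 / 20 ≤ x) (hxy : x ≤ y) (hy1 : y ≤ 1) (hs : 1 ≤ x + y) :
    2 * (y - x) * (x + y - 1) ≤ hb x - hb y := by
  by_cases h : 1 / 2 ≤ x
  · have := anti1 ⟨h, hxy.trans hy1⟩ ⟨h.trans hxy, hy1⟩ hxy
    simp only at this
    nlinarith
  · push Not at h
    have := anti1 (a := 1 - x) (b := y) ⟨by linarith, by linarith⟩ ⟨by linarith, hy1⟩ (by linarith)
    simp only at this
    rw [hb_symm] at this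
    nlinarith

theorem hb_gap2 {x y : ℝ} (hx0 : 9 / 20 ≤ x) (hxy : x ≤ y) (hy1 : y ≤ 1) :
    -(2 / 9 * (y - x)) ≤ hb x - hb y := by
  have := anti2 ⟨hx0, hxy.trans hy1⟩ ⟨hx0.trans hxy, hy1⟩ hxy
  simp only at this
  linarith

/-- quadratic gain -/
noncomputable def g (x y : ℝ) : ℝ :=
  (1 - (x + y)) ^ 2 / 4 + (1 - (x ^ 2 + x * y + y ^ 2)) ^ 2 / 12
    + (1 - (x ^ 3 + x ^ 2 * y + x * y ^ 2 + y ^ 3)) ^ 2 / 24
    + (1 - (x ^ 4 + x ^ 3 * y + x ^ 2 * y ^ 2 + x * y ^ 3 + y ^ 4)) ^ 2 / 40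
    + (1 - (x ^ 5 + x ^ 4 * y + x ^ 3 * y ^ 2 + x ^ 2 * y ^ 3 + x * y ^ 4 + y ^ 5)) ^ 2 / 60

/-- bracket of the mean multiplier -/
noncomputable def br (x y : ℝ) : ℝ := 433 / 12340 * (36 / 25 - 162 / 125 * (x ^ 2 + x * y + y ^ 2))

theorem tang (z a : ℝ) : 2 * a * z - a ^ 2 ≤ z ^ 2 := by nlinarith [sq_nonneg (z - a)]

theorem P0poly {t r : ℝ} (ht0 : 0 ≤ t) (hr0 : 0 ≤ r) (hr1 : r ≤ 1) (hbig : t < 8 / 25) :
    0 ≤ (1 - (t + 9 / 10)) ^ 2 / 4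
      + (4 / 5 * (1 - ((t + 9 / 10) ^ 3 - 2 * (t + 9 / 10) * (r + 9 / 20 * t + 81 / 400))) - 4 / 25) / 24
      + (6 / 5 * (1 - ((t + 9 / 10) ^ 4 - 3 * (t + 9 / 10) ^ 2 * (r + 9 / 20 * t + 81 / 400)
        + (r + 9 / 20 * t + 81 / 400) ^ 2)) - 9 / 25) / 40
      - 433 / 12340 * (36 / 25 - 162 / 125 * ((t + 9 / 10) ^ 2 - (r + 9 / 20 * t + 81 / 400))) := by
  obtain ⟨w, hw⟩ : ∃ w, w = 8 / 25 - t := ⟨_, rfl⟩
  have hw0 : 0 ≤ w := by rw [hw]; linarith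
  have e : (1 - (t + 9 / 10)) ^ 2 / 4
      + (4 / 5 * (1 - ((t + 9 / 10) ^ 3 - 2 * (t + 9 / 10) * (r + 9 / 20 * t + 81 / 400))) - 4 / 25) / 24
      + (6 / 5 * (1 - ((t + 9 / 10) ^ 4 - 3 * (t + 9 / 10) ^ 2 * (r + 9 / 20 * t + 81 / 400)
        + (r + 9 / 20 * t + 81 / 400) ^ 2)) - 9 / 25) / 40
      - 433 / 12340 * (36 / 25 - 162 / 125 * ((t + 9 / 10) ^ 2 - (r + 9 / 20 * t + 81 / 400)))
      = (6636759475/7763656704 * w ^ 4 + 3293377315/1940914176 * (t * w ^ 3)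
          + 2157854867/1293942784 * (t ^ 2 * w ^ 2) + 872867329/646971392 * (t ^ 3 * w)
          + 31925990249/64697139200 * t ^ 4)
        + r * (1 / 15 * (t + 9 / 10) + 3 / 100 * (3 * (t + 9 / 10) ^ 2 - 2 * (9 / 20 * t + 81 / 400))
          - 433 / 12340 * (162 / 125) - 3 / 100 * r) := by
    rw [hw]; ring
  rw [e]
  apply add_nonneg
  · positivity
  · apply mul_nonneg hr0
    have ht2 : 0 ≤ t ^ 2 := sq_nonneg t
    linarith

theorem P0 {x y : ℝ} (hx0 : 9 / 20 ≤ x) (hy0 : 9 / 20 ≤ y) : br x y ≤ g x y := by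
  obtain ⟨u, hu'⟩ : ∃ u, u = x - 9 / 20 := ⟨_, rfl⟩
  obtain ⟨v, hv'⟩ : ∃ v, v = y - 9 / 20 := ⟨_, rfl⟩
  have hu : 0 ≤ u := by linarith
  have hv : 0 ≤ v := by linarith
  obtain ⟨t, ht⟩ : ∃ t, t = u + v := ⟨_, rfl⟩
  obtain ⟨r, hr⟩ : ∃ r, r = u * v := ⟨_, rfl⟩
  have ht0 : 0 ≤ t := by rw [ht]; positivity
  have hr0 : 0 ≤ r := by rw [hr]; exact mul_nonneg hu hv
  have hr1 : r ≤ t ^ 2 / 4 := by rw [hr, ht]; nlinarith [sq_nonneg (u - v)]
  have hx : x = 9 / 20 + u := by rw [hu']; ring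
  have hy : y = 9 / 20 + v := by rw [hv']; ring
  -- power sums through t and r
  have eh1 : x + y = t + 9 / 10 := by rw [ht, hx, hy]; ring
  have eh2 : x ^ 2 + x * y + y ^ 2 =
      (t + 9 / 10) ^ 2 - (r + 9 / 20 * t + 81 / 400) := by rw [ht, hr, hx, hy]; ring
  have eh3 : x ^ 3 + x ^ 2 * y + x * y ^ 2 + y ^ 3 =
      (t + 9 / 10) ^ 3 - 2 * (t + 9 / 10) * (r + 9 / 20 * t + 81 / 400) := by
    rw [ht, hr, hx, hy]; ring
  have eh4 : x ^ 4 + x ^ 3 * y + x ^ 2 * y ^ 2 + x * y ^ 3 + y ^ 4 =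
      (t + 9 / 10) ^ 4 - 3 * (t + 9 / 10) ^ 2 * (r + 9 / 20 * t + 81 / 400)
        + (r + 9 / 20 * t + 81 / 400) ^ 2 := by rw [ht, hr, hx, hy]; ring
  unfold g br
  rw [eh1, eh2, eh3, eh4]
  have h5 : 0 ≤ (1 - (x ^ 5 + x ^ 4 * y + x ^ 3 * y ^ 2 + x ^ 2 * y ^ 3 + x * y ^ 4 + y ^ 5)) ^ 2 / 60 :=
    by positivity
  generalize (1 - (x ^ 5 + x ^ 4 * y + x ^ 3 * y ^ 2 + x ^ 2 * y ^ 3 + x * y ^ 4 + y ^ 5)) ^ 2 / 60 = Z5
    at h5 ⊢
  clear eh1 eh2 eh3 eh4 hx hy hu' hv' hx0 hy0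
  by_cases hbig : 8 / 25 ≤ t
  · have hQ1 : 10 / 9 ≤ (t + 9 / 10) ^ 2 - (r + 9 / 20 * t + 81 / 400) := by nlinarith
    have a1 := sq_nonneg (1 - (t + 9 / 10))
    have a2 := sq_nonneg (1 - ((t + 9 / 10) ^ 2 - (r + 9 / 20 * t + 81 / 400)))
    have a3 := sq_nonneg (1 - ((t + 9 / 10) ^ 3 - 2 * (t + 9 / 10) * (r + 9 / 20 * t + 81 / 400)))
    have a4 := sq_nonneg (1 - ((t + 9 / 10) ^ 4 - 3 * (t + 9 / 10) ^ 2 * (r + 9 / 20 * t + 81 / 400)
        + (r + 9 / 20 * t + 81 / 400) ^ 2))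
    generalize (1 - (t + 9 / 10)) ^ 2 = X1 at a1 ⊢
    generalize (1 - ((t + 9 / 10) ^ 2 - (r + 9 / 20 * t + 81 / 400))) ^ 2 = X2 at a2 ⊢
    generalize (1 - ((t + 9 / 10) ^ 3 - 2 * (t + 9 / 10) * (r + 9 / 20 * t + 81 / 400))) ^ 2 = X3 at a3 ⊢
    generalize (1 - ((t + 9 / 10) ^ 4 - 3 * (t + 9 / 10) ^ 2 * (r + 9 / 20 * t + 81 / 400)
        + (r + 9 / 20 * t + 81 / 400) ^ 2)) ^ 2 = X4 at a4 ⊢
    generalize (t + 9 / 10) ^ 2 - (r + 9 / 20 * t + 81 / 400) = Q at hQ1 ⊢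
    linarith
  · push Not at hbig
    have hr2 : r ≤ 1 := by nlinarith
    have hP := P0poly ht0 hr0 hr2 hbig
    have a2 := sq_nonneg (1 - ((t + 9 / 10) ^ 2 - (r + 9 / 20 * t + 81 / 400)))
    have a3 := tang (1 - ((t + 9 / 10) ^ 3 - 2 * (t + 9 / 10) * (r + 9 / 20 * t + 81 / 400))) (2 / 5)
    have a4 := tang (1 - ((t + 9 / 10) ^ 4 - 3 * (t + 9 / 10) ^ 2 * (r + 9 / 20 * t + 81 / 400)
        + (r + 9 / 20 * t + 81 / 400) ^ 2)) (3 / 5)
    generalize (1 - (t + 9 / 10)) ^ 2 = X1 at hP ⊢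
    generalize (1 - ((t + 9 / 10) ^ 2 - (r + 9 / 20 * t + 81 / 400))) ^ 2 = X2 at a2 ⊢
    generalize (1 - ((t + 9 / 10) ^ 3 - 2 * (t + 9 / 10) * (r + 9 / 20 * t + 81 / 400))) = X3
      at a3 hP ⊢
    generalize (1 - ((t + 9 / 10) ^ 4 - 3 * (t + 9 / 10) ^ 2 * (r + 9 / 20 * t + 81 / 400)
        + (r + 9 / 20 * t + 81 / 400) ^ 2)) = X4 at a4 hP ⊢
    generalize (t + 9 / 10) ^ 2 - (r + 9 / 20 * t + 81 / 400) = Q at hP ⊢
    generalize X3 ^ 2 = Y3 at a3 ⊢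
    generalize X4 ^ 2 = Y4 at a4 ⊢
    linarith

/-- `g` plus the entropy gap minus the bracket -/
noncomputable def Ef (x y : ℝ) : ℝ := g x y + 343 / 1234 * (x + y - 1) - br x y

theorem sqmono {H h : ℝ} (h1 : 1 ≤ H) (h2 : H ≤ h) : (1 - H) ^ 2 ≤ (1 - h) ^ 2 := by nlinarith

theorem Ef_mono {a x y : ℝ} (ha : 9 / 20 ≤ a) (hx : a ≤ x) (hy : 24 / 25 ≤ y) :
    Ef a (24 / 25) ≤ Ef x y := by
  have ha0 : 0 ≤ a := by linarith
  have hx0 : 0 ≤ x := by linarith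
  have hy0 : 0 ≤ y := by linarith
  set c : ℝ := 24 / 25 with hc
  have hc0 : 0 ≤ c := by rw [hc]; norm_num
  have m1 : a + c ≤ x + y := by linarith
  have m2 : a ^ 2 + a * c + c ^ 2 ≤ x ^ 2 + x * y + y ^ 2 := by gcongr
  have m3 : a ^ 3 + a ^ 2 * c + a * c ^ 2 + c ^ 3 ≤ x ^ 3 + x ^ 2 * y + x * y ^ 2 + y ^ 3 := by gcongr
  have m4 : a ^ 4 + a ^ 3 * c + a ^ 2 * c ^ 2 + a * c ^ 3 + c ^ 4 ≤
      x ^ 4 + x ^ 3 * y + x ^ 2 * y ^ 2 + x * y ^ 3 + y ^ 4 := by gcongr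
  have m5 : a ^ 5 + a ^ 4 * c + a ^ 3 * c ^ 2 + a ^ 2 * c ^ 3 + a * c ^ 4 + c ^ 5 ≤
      x ^ 5 + x ^ 4 * y + x ^ 3 * y ^ 2 + x ^ 2 * y ^ 3 + x * y ^ 4 + y ^ 5 := by gcongr
  have n1 : 1 ≤ a + c := by rw [hc]; linarith
  have hb : (9 / 20 : ℝ) ≤ a := ha
  have n2 : 1 ≤ a ^ 2 + a * c + c ^ 2 := by
    calc (1 : ℝ) ≤ (9 / 20) ^ 2 + (9 / 20) * c + c ^ 2 := by rw [hc]; norm_num
      _ ≤ _ := by gcongr
  have n3 : 1 ≤ a ^ 3 + a ^ 2 * c + a * c ^ 2 + c ^ 3 := by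
    calc (1 : ℝ) ≤ (9 / 20) ^ 3 + (9 / 20) ^ 2 * c + (9 / 20) * c ^ 2 + c ^ 3 := by rw [hc]; norm_num
      _ ≤ _ := by gcongr
  have n4 : 1 ≤ a ^ 4 + a ^ 3 * c + a ^ 2 * c ^ 2 + a * c ^ 3 + c ^ 4 := by
    calc (1 : ℝ) ≤ (9 / 20) ^ 4 + (9 / 20) ^ 3 * c + (9 / 20) ^ 2 * c ^ 2 + (9 / 20) * c ^ 3 + c ^ 4 := by
          rw [hc]; norm_num
      _ ≤ _ := by gcongr
  have n5 : 1 ≤ a ^ 5 + a ^ 4 * c + a ^ 3 * c ^ 2 + a ^ 2 * c ^ 3 + a * c ^ 4 + c ^ 5 := by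
    calc (1 : ℝ) ≤ (9 / 20) ^ 5 + (9 / 20) ^ 4 * c + (9 / 20) ^ 3 * c ^ 2 + (9 / 20) ^ 2 * c ^ 3
          + (9 / 20) * c ^ 4 + c ^ 5 := by
          rw [hc]; norm_num
      _ ≤ _ := by gcongr
  have s1 := sqmono n1 m1
  have s2 := sqmono n2 m2
  have s3 := sqmono n3 m3
  have s4 := sqmono n4 m4
  have s5 := sqmono n5 m5
  have key : ∀ X1 X2 X3 X4 X5 A1 A2 A3 A4 A5 q1 q2 r1 r2 : ℝ, A1 ≤ X1 → A2 ≤ X2 → A3 ≤ X3 →
      A4 ≤ X4 → A5 ≤ X5 → q1 ≤ q2 → r1 ≤ r2 →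
      A1 / 4 + A2 / 12 + A3 / 24 + A4 / 40 + A5 / 60 + 343 / 1234 * (r1 - 1)
        - 433 / 12340 * (36 / 25 - 162 / 125 * q1) ≤
      X1 / 4 + X2 / 12 + X3 / 24 + X4 / 40 + X5 / 60 + 343 / 1234 * (r2 - 1)
        - 433 / 12340 * (36 / 25 - 162 / 125 * q2) := by
    intros
    linarith
  exact key _ _ _ _ _ _ _ _ _ _ _ _ _ _ s1 s2 s3 s4 s5 m2 m1

/-- one segment for the crossing case -/
theorem seg {a b A C x y S : ℝ} (ha : 9 / 20 ≤ a) (hax : a ≤ x) (hxb : x ≤ b) (hb : b ≤ 24 / 25)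
    (hy : 24 / 25 ≤ y) (hA : A + 122972 / 1000000 ≤ Ef a (24 / 25)) (hC : C ≤ S)
    (hq : (∀ d : ℝ, 24 / 25 - b ≤ d → 0 ≤ C - 122972 / 1000000 * (2 * b - 1) * d + A * d ^ 2)) :
    0 ≤ S + (y - x) ^ 2 * Ef x y - 122972 / 1000000 * ((y - x) * (x + y - 1)) := by
  have h1 := Ef_mono ha hax hy
  have hd0 : 0 ≤ y - x := by linarith
  have h2 : (y - x) ^ 2 * (A + 122972 / 1000000) ≤ (y - x) ^ 2 * Ef x y :=
    mul_le_mul_of_nonneg_left (hA.trans h1) (sq_nonneg _)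
  have h3 := hq (y - x) (by linarith)
  have h4 : (y - x) * (x + y - 1) ≤ (y - x) * (2 * b - 1 + (y - x)) :=
    mul_le_mul_of_nonneg_left (by linarith) hd0
  nlinarith

/-- `D1` with the spread term -/
noncomputable def Dt (x : ℝ) : ℝ := D1 x - 433 / 10000 * ((om x - 3 / 50) * nH x)

theorem TA_split (AH_eq : ∀ x y : ℝ, AH x y = 343 / 2468 * (x * hb y + y * hb x) - NN x y)
    (x y : ℝ) :
    TA x y = 1 / 2 * (Dt x + Dt y) + 343 / 2468 * ((y - x) * (hb x - hb y))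
      + 1 / 2 * (NN x x + NN y y - 2 * NN x y) + 433 / 10000 * (Gk x y - (Gk x x + Gk y y) / 2)
      - (y - x) ^ 2 * br x y
      - 433 / 5000 * ((y - x) * (x + y - 1) * (nH y - nH x)) := by
  unfold TA Dt D1 br
  rw [AH_eq x y, AH_eq x x, AH_eq y y]
  unfold xiH om
  ring

theorem gain_eq (x y : ℝ) :
    ((x - x ^ 2) - (y - y ^ 2)) ^ 2 / 2 + ((x - x ^ 3) - (y - y ^ 3)) ^ 2 / 6 +
    ((x - x ^ 4) - (y - y ^ 4)) ^ 2 / 12 + ((x - x ^ 5) - (y - y ^ 5)) ^ 2 / 20 +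
    ((x - x ^ 6) - (y - y ^ 6)) ^ 2 / 30 = 2 * ((y - x) ^ 2 * g x y) := by
  unfold g
  ring

section main

variable (AH_eq : ∀ x y : ℝ, AH x y = 343 / 2468 * (x * hb y + y * hb x) - NN x y)
  (NN_gain : ∀ {x y : ℝ}, 0 ≤ x → x ≤ 1 → 0 ≤ y → y ≤ 1 →
    ((x - x ^ 2) - (y - y ^ 2)) ^ 2 / 2 + ((x - x ^ 3) - (y - y ^ 3)) ^ 2 / 6 +
    ((x - x ^ 4) - (y - y ^ 4)) ^ 2 / 12 + ((x - x ^ 5) - (y - y ^ 5)) ^ 2 / 20 +
    ((x - x ^ 6) - (y - y ^ 6)) ^ 2 / 30 ≤ NN x x + NN y y - 2 * NN x y)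
  (D_low : ∀ {x : ℝ}, 9 / 20 ≤ x → x ≤ 11 / 20 → 9 / 10000 ≤ D1 x)
  (D_mid : ∀ {x : ℝ}, 11 / 20 ≤ x → x ≤ 3 / 4 → 1 / 10000 ≤ D1 x)
  (D_a : ∀ {x : ℝ}, 3 / 4 ≤ x → x ≤ 4 / 5 → 12 / 10000 ≤ D1 x)
  (D_b : ∀ {x : ℝ}, 4 / 5 ≤ x → x ≤ 17 / 20 → 24 / 10000 ≤ D1 x)
  (D_c : ∀ {x : ℝ}, 17 / 20 ≤ x → x ≤ 9 / 10 → 40 / 10000 ≤ D1 x)
  (D_d : ∀ {x : ℝ}, 9 / 10 ≤ x → x ≤ 24 / 25 → 58 / 10000 ≤ D1 x)
  (D_top : ∀ {x : ℝ}, 24 / 25 ≤ x → x ≤ 1 →
    4 / 10000 ≤ D1 x - 433 / 10000 * ((om x - 3 / 50) * (71 / 50)))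
  (G_cross : ∀ {x y : ℝ}, 9 / 20 ≤ x → x ≤ 1 → 9 / 20 ≤ y → y ≤ 1 →
    (Gk x x + Gk y y) / 2 ≤ Gk x y)

theorem Dt_low {x : ℝ} (hx : x < 24 / 25) : Dt x = D1 x := by
  unfold Dt nH
  rw [if_neg (not_le.2 hx)]
  ring

include D_top in
theorem Dt_top {x : ℝ} (hx : 24 / 25 ≤ x) (hx1 : x ≤ 1) : 4 / 10000 ≤ Dt x := by
  unfold Dt nH
  rw [if_pos hx]
  exact D_top hx hx1

include D_low D_mid D_a D_b D_c D_d D_top in
theorem Dt_nonneg {x : ℝ} (hx : 9 / 20 ≤ x) (hx1 : x ≤ 1) : 0 ≤ Dt x := by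
  by_cases h : 24 / 25 ≤ x
  · linarith [Dt_top D_top h hx1]
  push Not at h
  rw [Dt_low h]
  by_cases h1 : x ≤ 11 / 20
  · linarith [D_low hx h1]
  push Not at h1
  by_cases h2 : x ≤ 3 / 4
  · linarith [D_mid h1.le h2]
  push Not at h2
  by_cases h3 : x ≤ 4 / 5
  · linarith [D_a h2.le h3]
  push Not at h3
  by_cases h4 : x ≤ 17 / 20
  · linarith [D_b h3.le h4]
  push Not at h4
  by_cases h5 : x ≤ 9 / 10
  · linarith [D_c h4.le h5]
  push Not at h5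
  linarith [D_d h5.le h.le]

include D_low D_mid D_a D_b D_c D_d D_top in
/-- the crossing case -/
theorem cross {x y : ℝ} (hx : 9 / 20 ≤ x) (hx2 : x < 24 / 25) (hy : 24 / 25 ≤ y) (hy1 : y ≤ 1) :
    0 ≤ 1 / 2 * (Dt x + Dt y) + (y - x) ^ 2 * Ef x y
      - 122972 / 1000000 * ((y - x) * (x + y - 1)) := by
  have hDy := Dt_top D_top hy hy1
  rw [Dt_low hx2]
  by_cases h1 : x ≤ 11 / 20
  · have hD := D_low hx h1
    exact seg (a := 9 / 20) (b := 11 / 20) (A := 21 / 200) (C := 13 / 20000) le_rfl hx h1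
      (by norm_num) hy (by unfold Ef g br; norm_num) (by linarith) (fun d hd => by nlinarith)
  push Not at h1
  by_cases h2 : x ≤ 143 / 200
  · have hD := D_mid h1.le (by linarith)
    exact seg (a := 11 / 20) (b := 143 / 200) (A := 11 / 50) (C := 1 / 4000) (by norm_num) h1.le h2
      (by norm_num) hy (by unfold Ef g br; norm_num) (by linarith)
      (fun d hd => by nlinarith [mul_nonneg (sub_nonneg.2 hd) (sub_nonneg.2 hd)])
  push Not at h2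
  by_cases h3 : x ≤ 3 / 4
  · have hD := D_mid h1.le h3
    exact seg (a := 143 / 200) (b := 3 / 4) (A := 517 / 1000) (C := 1 / 4000) (by norm_num) h2.le h3
      (by norm_num) hy (by unfold Ef g br; norm_num) (by linarith)
      (fun d hd => by nlinarith [mul_nonneg (sub_nonneg.2 hd) (sub_nonneg.2 hd)])
  push Not at h3
  by_cases h4 : x ≤ 4 / 5
  · have hD := D_a h3.le h4
    exact seg (a := 3 / 4) (b := 4 / 5) (A := 121 / 200) (C := 1 / 1250) (by norm_num) h3.le h4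
      (by norm_num) hy (by unfold Ef g br; norm_num) (by linarith)
      (fun d hd => by nlinarith [mul_nonneg (sub_nonneg.2 hd) (sub_nonneg.2 hd)])
  push Not at h4
  by_cases h5 : x ≤ 17 / 20
  · have hD := D_b h4.le h5
    exact seg (a := 4 / 5) (b := 17 / 20) (A := 94 / 125) (C := 7 / 5000) (by norm_num) h4.le h5
      (by norm_num) hy (by unfold Ef g br; norm_num) (by linarith)
      (fun d hd => by nlinarith [mul_nonneg (sub_nonneg.2 hd) (sub_nonneg.2 hd)])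
  push Not at h5
  by_cases h6 : x ≤ 89 / 100
  · have hD := D_c h5.le (by linarith)
    exact seg (a := 17 / 20) (b := 89 / 100) (A := 929 / 1000) (C := 11 / 5000) (by norm_num) h5.le h6
      (by norm_num) hy (by unfold Ef g br; norm_num) (by linarith)
      (fun d hd => by nlinarith [mul_nonneg (sub_nonneg.2 hd) (sub_nonneg.2 hd)])
  push Not at h6
  by_cases h7 : x ≤ 9 / 10
  · have hD := D_c h5.le h7
    exact seg (a := 89 / 100) (b := 9 / 10) (A := 549 / 500) (C := 11 / 5000) (by norm_num) h6.le h7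
      (by norm_num) hy (by unfold Ef g br; norm_num) (by linarith)
      (fun d hd => by nlinarith [mul_nonneg (sub_nonneg.2 hd) (sub_nonneg.2 hd)])
  push Not at h7
  have hD := D_d h7.le hx2.le
  exact seg (a := 9 / 10) (b := 24 / 25) (A := 143 / 125) (C := 31 / 10000) (by norm_num) h7.le hx2.le
      (by norm_num) hy (by unfold Ef g br; norm_num) (by linarith)
      (fun d hd => by nlinarith [sq_nonneg (d - 1 / 20)])

include AH_eq NN_gain D_low D_mid D_a D_b D_c D_d D_top G_cross in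
/-- T05 -/
theorem regionA {x y : ℝ} (hx0 : 9 / 20 ≤ x) (hxy : x ≤ y) (hy1 : y ≤ 1) : 0 ≤ TA x y := by
  have hx1 : x ≤ 1 := hxy.trans hy1
  have hy0 : 9 / 20 ≤ y := hx0.trans hxy
  rw [TA_split AH_eq]
  have hN := NN_gain (x := x) (y := y) (by linarith) hx1 (by linarith) hy1
  rw [gain_eq] at hN
  have hG := G_cross hx0 hx1 hy0 hy1
  have hd : 0 ≤ y - x := by linarith
  have hP := mul_le_mul_of_nonneg_left (P0 hx0 hy0) (sq_nonneg (y - x))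
  have hDx := Dt_nonneg D_low D_mid D_a D_b D_c D_d D_top hx0 hx1
  have hDy := Dt_nonneg D_low D_mid D_a D_b D_c D_d D_top hy0 hy1
  by_cases hc : x < 24 / 25 ∧ 24 / 25 ≤ y
  · have hX := cross D_low D_mid D_a D_b D_c D_d D_top hx0 hc.1 hc.2 hy1
    have hn : nH y - nH x = 71 / 50 := by
      unfold nH
      rw [if_pos hc.2, if_neg (not_le.2 hc.1)]; ring
    have hb := mul_le_mul_of_nonneg_left (hb_gap hx0 hxy hy1 (by linarith [hc.2])) hd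
    rw [hn]
    have e : (y - x) ^ 2 * Ef x y = (y - x) ^ 2 * g x y
        + 343 / 2468 * ((y - x) * (2 * (y - x) * (x + y - 1))) - (y - x) ^ 2 * br x y := by
      unfold Ef; ring
    rw [e] at hX
    linarith
  · have hn : nH y - nH x = 0 := by
      unfold nH
      by_cases h : 24 / 25 ≤ x
      · rw [if_pos h, if_pos (h.trans hxy)]; ring
      · rw [if_neg h, if_neg (fun h2 => hc ⟨not_le.1 h, h2⟩)]; ring
    rw [hn]
    by_cases hs : 1 ≤ x + y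
    · have hb := mul_le_mul_of_nonneg_left (hb_gap hx0 hxy hy1 hs) hd
      have hb0 : 0 ≤ (y - x) * (2 * (y - x) * (x + y - 1)) := by
        have : 0 ≤ x + y - 1 := by linarith
        positivity
      linarith
    · push Not at hs
      have hx2 : x ≤ 11 / 20 := by linarith
      have hy2 : y ≤ 11 / 20 := by linarith
      have h1 := D_low hx0 hx2
      have h2 := D_low hy0 hy2
      rw [Dt_low (by linarith : x < 24 / 25), Dt_low (by linarith : y < 24 / 25)]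
      have hb := mul_le_mul_of_nonneg_left (hb_gap2 hx0 hxy hy1) hd
      have hb0 : (y - x) * (2 / 9 * (y - x)) ≤ 1 / 450 := by nlinarith
      linarith

end main

end Pool.Agent.H647R2.UCT05
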