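import Mathlib
import Pool.Agent.H410R2.ACIface
import Pool.Agent.Helper923.HMertens

set_option autoImplicit false

/-! Elementary prime estimates (task AC6 of helper410). -/

open Finset

namespace Pool.Agent.H647R2.ACNT

open Pool.Agent.H410R2.AC

/-- the completely multiplicative function `1/n` -/
noncomputable def invHom : ℕ →* ℝ where
  toFun n := (n : ℝ)⁻¹
  map_one' := by simp
  map_mul' a b := by push_cast; rw [mul_inv]

lemma invHom_apply (n : ℕ) : invHom n = (n : ℝ)⁻¹ := rfl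

lemma one_sub_inv {p : ℕ} (hp : p.Prime) :
    (1 - invHom p)⁻¹ = 1 + 1 / ((p : ℝ) - 1) := by
  have h1 : (1 : ℝ) < p := by exact_mod_cast hp.one_lt
  have h2 : (p : ℝ) - 1 ≠ 0 := by linarith
  have h3 : (p : ℝ) ≠ 0 := by linarith
  rw [invHom_apply]
  field_simp
  ring

lemma sum_factored (S : Finset ℕ) (hS : ∀ p ∈ S, p.Prime) (N : Finset ℕ)
    (hN : ∀ n ∈ N, n ∈ Nat.factoredNumbers S) : ∑ n ∈ N, (n : ℝ)⁻¹ ≤ Pi1 S := by
  classical
  have h := (EulerProduct.summable_and_hasSum_factoredNumbers_prod_filter_prime_geometric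
    (f := invHom) (by
      intro p hp
      rw [invHom_apply, norm_inv, Real.norm_natCast]
      have h1 : (1 : ℝ) < p := by exact_mod_cast hp.one_lt
      exact inv_lt_one_of_one_lt₀ h1) S).2
  have h1 : (∏ p ∈ S with p.Prime, (1 - invHom p)⁻¹) = Pi1 S := by
    rw [Finset.filter_true_of_mem hS]
    unfold Pi1
    exact Finset.prod_congr rfl fun p hp => one_sub_inv (hS p hp)
  rw [h1] at h
  have h2 := sum_le_hasSum (N.subtype (fun n => n ∈ Nat.factoredNumbers S)) (fun i _ => by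
    rw [invHom_apply]; positivity) h
  rw [Finset.sum_subtype_of_mem (fun n => invHom n) hN] at h2
  exact h2

lemma prime_of_PP {H z p : ℕ} (h : p ∈ PP H z) : p.Prime ∧ H < p ∧ p ≤ z := by
  unfold PP at h
  rw [Finset.mem_filter, Finset.mem_range] at h
  exact ⟨h.2.1, h.2.2, by omega⟩

lemma mem_PP {H z p : ℕ} (h1 : p.Prime) (h2 : H < p) (h3 : p ≤ z) : p ∈ PP H z := by
  unfold PP
  rw [Finset.mem_filter, Finset.mem_range]
  exact ⟨by omega, h1, h2⟩

/-- (4) -/
lemma nt4 (H z : ℕ) (hH : 1 ≤ H) : ∑ p ∈ PP H z, (1 : ℝ) / ((p : ℝ) - 1) ^ 2 ≤ 2 / (H : ℝ) := by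
  have hsub : PP H z ⊆ (Finset.Ioo (H - 1) z).image (fun i => i + 1) := by
    intro p hp
    obtain ⟨_, h2, h3⟩ := prime_of_PP hp
    rw [Finset.mem_image]
    exact ⟨p - 1, Finset.mem_Ioo.2 ⟨by omega, by omega⟩, by omega⟩
  calc ∑ p ∈ PP H z, (1 : ℝ) / ((p : ℝ) - 1) ^ 2
      ≤ ∑ p ∈ (Finset.Ioo (H - 1) z).image (fun i : ℕ => i + 1), (1 : ℝ) / ((p : ℝ) - 1) ^ 2 :=
        Finset.sum_le_sum_of_subset_of_nonneg hsub (fun p _ _ => by positivity)
    _ = ∑ i ∈ Finset.Ioo (H - 1) z, ((i : ℝ) ^ 2)⁻¹ := by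
        rw [Finset.sum_image (fun a _ b _ hab => by simpa using hab)]
        apply Finset.sum_congr rfl
        intro i _
        push_cast
        rw [add_sub_cancel_right, one_div]
    _ ≤ 2 / (((H - 1 : ℕ) : ℝ) + 1) := sum_Ioo_inv_sq_le (H - 1) z
    _ = 2 / (H : ℝ) := by
        rw [Nat.cast_sub hH]
        norm_num

/-- (1) -/
lemma nt1 : ∃ C : ℝ, 1 ≤ C ∧ ∀ H z : ℕ, 2 ≤ H → H ≤ z →
    Pi1 (PP H z) ≤ C * (Real.log z / Real.log H) := by
  obtain ⟨C, hC0, hC⟩ := Pool.Agent.Helper923.HMertens.mertens_ratio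
  have hl2 : (0 : ℝ) < Real.log 2 := by have := Real.log_two_gt_d9; linarith
  refine ⟨Real.exp (C / Real.log 2 + 1), Real.one_le_exp (by positivity), ?_⟩
  intro H z hH hz
  have hlH : Real.log 2 ≤ Real.log H := Real.log_le_log (by norm_num) (by exact_mod_cast hH)
  have hlH0 : 0 < Real.log H := lt_of_lt_of_le hl2 hlH
  have hlz : Real.log H ≤ Real.log z :=
    Real.log_le_log (by exact_mod_cast (by omega : 0 < H)) (by exact_mod_cast hz)
  have hlz0 : 0 < Real.log z := lt_of_lt_of_le hlH0 hlz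
  have h1 : Pi1 (PP H z) ≤ Real.exp (∑ p ∈ PP H z, 1 / ((p : ℝ) - 1)) := by
    rw [Real.exp_sum]
    unfold Pi1
    apply Finset.prod_le_prod
    · intro p hp
      have h2 : (1 : ℝ) < p := by exact_mod_cast (prime_of_PP hp).1.one_lt
      have : (0 : ℝ) < (p : ℝ) - 1 := by linarith
      positivity
    · intro p _
      rw [add_comm]
      exact Real.add_one_le_exp _
  have h3 : PP H z = (Finset.Ioc H z).filter Nat.Prime := by
    ext p
    constructor
    · intro hp
      obtain ⟨a, b, c⟩ := prime_of_PP hp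
      exact Finset.mem_filter.2 ⟨Finset.mem_Ioc.2 ⟨b, c⟩, a⟩
    · intro hp
      rw [Finset.mem_filter, Finset.mem_Ioc] at hp
      exact mem_PP hp.2 hp.1.1 hp.1.2
  have h4 := hC H z hH hz
  rw [← h3] at h4
  have h5 : ∑ p ∈ PP H z, (1 : ℝ) / p ≤
      Real.log (Real.log z / Real.log H) + C / Real.log 2 := by
    have h6 := (abs_le.1 h4).2
    have h7 : C / Real.log H ≤ C / Real.log 2 :=
      div_le_div_of_nonneg_left hC0 hl2 hlH
    linarith
  have h8 : ∑ p ∈ PP H z, 1 / ((p : ℝ) - 1) ≤ ∑ p ∈ PP H z, (1 : ℝ) / p +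
      ∑ p ∈ PP H z, (1 : ℝ) / ((p : ℝ) - 1) ^ 2 := by
    rw [← Finset.sum_add_distrib]
    apply Finset.sum_le_sum
    intro p hp
    have h9 : (1 : ℝ) < p := by exact_mod_cast (prime_of_PP hp).1.one_lt
    have h10 : (0 : ℝ) < (p : ℝ) - 1 := by linarith
    have h11 : (1 : ℝ) / ((p : ℝ) - 1) = 1 / p + 1 / (p * ((p : ℝ) - 1)) := by
      field_simp
      ring
    rw [h11]
    apply add_le_add le_rfl
    apply one_div_le_one_div_of_le (by positivity)
    nlinarith
  have h12 := nt4 H z (by omega)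
  have h13 : (2 : ℝ) / H ≤ 1 := by
    rw [div_le_one (by exact_mod_cast (by omega : 0 < H))]
    exact_mod_cast hH
  have h14 : ∑ p ∈ PP H z, 1 / ((p : ℝ) - 1) ≤
      Real.log (Real.log z / Real.log H) + (C / Real.log 2 + 1) := by linarith
  calc Pi1 (PP H z) ≤ _ := h1
    _ ≤ Real.exp (Real.log (Real.log z / Real.log H) + (C / Real.log 2 + 1)) :=
        Real.exp_le_exp.2 h14
    _ = Real.exp (C / Real.log 2 + 1) * (Real.log z / Real.log H) := by
        rw [Real.exp_add, Real.exp_log (div_pos hlz0 hlH0), mul_comm]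

lemma wt_nonneg (R : Finset ℕ) (hR : ∀ p ∈ R, p.Prime) : 0 ≤ wt R := by
  unfold wt
  apply Finset.prod_nonneg
  intro p hp
  have h2 : (1 : ℝ) < p := by exact_mod_cast (hR p hp).one_lt
  have : (0 : ℝ) < (p : ℝ) - 1 := by linarith
  positivity

/-- (3) -/
lemma nt3 (C : ℝ) (hC : ∀ H z : ℕ, 2 ≤ H → H ≤ z →
    Pi1 (PP H z) ≤ C * (Real.log z / Real.log H)) (H z Y : ℕ) (hH : 2 ≤ H) (hY : H ≤ Y) :
    ∑ R ∈ (PP H z).powerset.filter (fun R : Finset ℕ => ∏ p ∈ R, p ≤ Y), wt R ≤
      C * (Real.log Y / Real.log H) := by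
  refine le_trans ?_ (hC H Y hH hY)
  have h1 : Pi1 (PP H Y) = ∑ R ∈ (PP H Y).powerset, wt R := by
    unfold Pi1 wt
    rw [Finset.prod_one_add]
  rw [h1]
  apply Finset.sum_le_sum_of_subset_of_nonneg
  · intro R hR
    rw [Finset.mem_filter, Finset.mem_powerset] at hR
    rw [Finset.mem_powerset]
    intro p hp
    obtain ⟨a, b, _⟩ := prime_of_PP (hR.1 hp)
    refine mem_PP a b ?_
    refine le_trans ?_ hR.2
    apply Nat.le_of_dvd
    · apply Finset.prod_pos
      intro q hq
      exact (prime_of_PP (hR.1 hq)).1.pos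
    · exact Finset.dvd_prod_of_mem (fun p => p) hp
  · intro R hR _
    rw [Finset.mem_powerset] at hR
    exact wt_nonneg R fun p hp => (prime_of_PP (hR hp)).1

/-- the primes up to H -/
def SH (H : ℕ) : Finset ℕ := (range (H + 1)).filter Nat.Prime

lemma Pi1_SH_le (C : ℝ) (hC1 : 1 ≤ C) (hC : ∀ H z : ℕ, 2 ≤ H → H ≤ z →
    Pi1 (PP H z) ≤ C * (Real.log z / Real.log H)) (H : ℕ) (hH : 2 ≤ H) :
    Pi1 (SH H) ≤ (2 * C / Real.log 2) * Real.log H := by
  have h1 : SH H = insert 2 (PP 2 H) := by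
    ext p
    unfold SH
    rw [Finset.mem_insert, Finset.mem_filter, Finset.mem_range]
    constructor
    · rintro ⟨a, b⟩
      have := b.two_le
      rcases Nat.eq_or_lt_of_le this with h | h
      · exact Or.inl h.symm
      · exact Or.inr (mem_PP b h (by omega))
    · rintro (h | h)
      · subst h
        exact ⟨by omega, Nat.prime_two⟩
      · obtain ⟨a, b, c⟩ := prime_of_PP h
        exact ⟨by omega, a⟩
  have h2 : 2 ∉ PP 2 H := fun h => absurd (prime_of_PP h).2.1 (by omega)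
  have h3 := hC 2 H le_rfl hH
  rw [h1]
  unfold Pi1 at h3 ⊢
  rw [Finset.prod_insert h2]
  push_cast at h3 ⊢
  calc (1 + 1 / ((2 : ℝ) - 1)) * ∏ p ∈ PP 2 H, (1 + 1 / ((p : ℝ) - 1)) =
      2 * ∏ p ∈ PP 2 H, (1 + 1 / ((p : ℝ) - 1)) := by norm_num
    _ ≤ 2 * (C * (Real.log H / Real.log 2)) := by linarith
    _ = (2 * C / Real.log 2) * Real.log H := by ring

lemma log_le_sum (Y : ℕ) : Real.log Y ≤ ∑ n ∈ Finset.Icc 1 Y, (n : ℝ)⁻¹ := by
  rcases Nat.eq_zero_or_pos Y with h | h
  · subst h; simp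
  have h1 := log_add_one_le_harmonic Y
  rw [harmonic_eq_sum_Icc] at h1
  push_cast at h1
  have h2 : Real.log Y ≤ Real.log (Y + 1) :=
    Real.log_le_log (by exact_mod_cast h) (by linarith)
  linarith

/-- (2) without the constant -/
lemma nt2 (H z Y : ℕ) (hY : Y ≤ z) :
    Real.log Y ≤ Pi1 (SH H) *
      ∑ R ∈ (PP H z).powerset.filter (fun R : Finset ℕ => ∏ p ∈ R, p ≤ Y), wt R := by
  classical
  refine (log_le_sum Y).trans ?_
  have hmaps : ∀ n ∈ Finset.Icc 1 Y, n.primeFactors.filter (fun p => H < p) ∈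
      (PP H z).powerset.filter (fun R : Finset ℕ => ∏ p ∈ R, p ≤ Y) := by
    intro n hn
    rw [Finset.mem_Icc] at hn
    rw [Finset.mem_filter, Finset.mem_powerset]
    constructor
    · intro p hp
      rw [Finset.mem_filter] at hp
      have h1 := Nat.prime_of_mem_primeFactors hp.1
      have h2 := Nat.le_of_mem_primeFactors hp.1
      exact mem_PP h1 hp.2 (by omega)
    · refine le_trans (Nat.le_of_dvd (by omega) ?_) hn.2
      apply Finset.prod_primes_dvd
      · intro p hp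
        exact (Nat.prime_of_mem_primeFactors (Finset.mem_filter.1 hp).1).prime
      · intro p hp
        exact Nat.dvd_of_mem_primeFactors (Finset.mem_filter.1 hp).1
  rw [← Finset.sum_fiberwise_of_maps_to hmaps, Finset.mul_sum]
  apply Finset.sum_le_sum
  intro R hR
  rw [Finset.mem_filter, Finset.mem_powerset] at hR
  have hRp : ∀ p ∈ R, p.Prime := fun p hp => (prime_of_PP (hR.1 hp)).1
  set N := (Finset.Icc 1 Y).filter (fun n => n.primeFactors.filter (fun p => H < p) = R) with hN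
  set q := ∏ p ∈ R, p with hq
  have hq0 : 0 < q := Finset.prod_pos fun p hp => (hRp p hp).pos
  have hdvd : ∀ n ∈ N, q ∣ n := by
    intro n hn
    rw [hN, Finset.mem_filter] at hn
    apply Finset.prod_primes_dvd
    · intro p hp
      exact (hRp p hp).prime
    · intro p hp
      rw [← hn.2] at hp
      exact Nat.dvd_of_mem_primeFactors (Finset.mem_filter.1 hp).1
  have hdisj : Disjoint (SH H) R := by
    rw [Finset.disjoint_left]
    intro p hp hp2
    unfold SH at hp
    rw [Finset.mem_filter, Finset.mem_range] at hp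
    have := (prime_of_PP (hR.1 hp2)).2.1
    omega
  have h1 : ∑ n ∈ N, (n : ℝ)⁻¹ = (q : ℝ)⁻¹ * ∑ m ∈ N.image (fun n => n / q), (m : ℝ)⁻¹ := by
    rw [Finset.sum_image, Finset.mul_sum]
    · apply Finset.sum_congr rfl
      intro n hn
      obtain ⟨m, hm⟩ := hdvd n hn
      have : n / q = m := by rw [hm]; exact Nat.mul_div_cancel_left m hq0
      rw [this, hm]
      push_cast
      rw [mul_inv]
    · intro a ha b hb hab
      obtain ⟨m, hm⟩ := hdvd a ha
      obtain ⟨m', hm'⟩ := hdvd b hb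
      have e1 : a / q = m := by rw [hm]; exact Nat.mul_div_cancel_left m hq0
      have e2 : b / q = m' := by rw [hm']; exact Nat.mul_div_cancel_left m' hq0
      simp only [e1, e2] at hab
      rw [hm, hm', hab]
  have h2 : ∑ m ∈ N.image (fun n => n / q), (m : ℝ)⁻¹ ≤ Pi1 (SH H ∪ R) := by
    apply sum_factored
    · intro p hp
      rcases Finset.mem_union.1 hp with h | h
      · exact (Finset.mem_filter.1 h).2
      · exact hRp p h
    · intro m hm
      rw [Finset.mem_image] at hm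
      obtain ⟨n, hn, rfl⟩ := hm
      rw [Nat.mem_factoredNumbers_iff_primeFactors_subset]
      have hn2 := hn
      rw [hN, Finset.mem_filter, Finset.mem_Icc] at hn2
      have hnd := hdvd n hn
      have hpos : 0 < n / q := Nat.div_pos (Nat.le_of_dvd (by omega) hnd) hq0
      refine ⟨by omega, ?_⟩
      intro p hp
      have hp1 := Nat.prime_of_mem_primeFactors hp
      have hp2 : p ∣ n := (Nat.dvd_of_mem_primeFactors hp).trans (Nat.div_dvd_of_dvd hnd)
      have hp3 : p ∈ n.primeFactors := Nat.mem_primeFactors.2 ⟨hp1, hp2, by omega⟩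
      rw [Finset.mem_union]
      by_cases hpH : H < p
      · right
        rw [← hn2.2, Finset.mem_filter]
        exact ⟨hp3, hpH⟩
      · left
        unfold SH
        rw [Finset.mem_filter, Finset.mem_range]
        exact ⟨by omega, hp1⟩
  have h3 : Pi1 (SH H ∪ R) = Pi1 (SH H) * Pi1 R := by
    unfold Pi1
    exact Finset.prod_union hdisj
  have h4 : (q : ℝ)⁻¹ * Pi1 R = wt R := by
    unfold Pi1 wt
    rw [hq]
    push_cast
    rw [← Finset.prod_inv_distrib, ← Finset.prod_mul_distrib]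
    apply Finset.prod_congr rfl
    intro p hp
    have h2 : (1 : ℝ) < p := by exact_mod_cast (hRp p hp).one_lt
    have h5 : (p : ℝ) - 1 ≠ 0 := by linarith
    have h6 : (p : ℝ) ≠ 0 := by linarith
    field_simp
    ring
  have hq1 : (0 : ℝ) ≤ (q : ℝ)⁻¹ := by positivity
  calc ∑ n ∈ N, (n : ℝ)⁻¹ = _ := h1
    _ ≤ (q : ℝ)⁻¹ * Pi1 (SH H ∪ R) := mul_le_mul_of_nonneg_left h2 hq1
    _ = Pi1 (SH H) * wt R := by rw [h3, ← h4]; ring

/-- (5) -/
lemma nt5 (H z d N : ℕ) (hH : 2 ≤ H) (hd : 1 ≤ d) (hdN : d ≤ N) :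
    ∑ p ∈ (PP H z).filter (fun p : ℕ => p ∣ d), (1 : ℝ) / ((p : ℝ) - 1) ≤
      Real.log N / (H * Real.log H) := by
  set S := (PP H z).filter (fun p : ℕ => p ∣ d) with hS
  have hSp : ∀ p ∈ S, p.Prime ∧ H < p ∧ p ∣ d := by
    intro p hp
    rw [hS, Finset.mem_filter] at hp
    exact ⟨(prime_of_PP hp.1).1, (prime_of_PP hp.1).2.1, hp.2⟩
  have h1 : H ^ S.card ≤ N := by
    calc H ^ S.card = ∏ _p ∈ S, H := by rw [Finset.prod_const]
      _ ≤ ∏ p ∈ S, p := Finset.prod_le_prod' fun p hp => (hSp p hp).2.1.le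
      _ ≤ d := Nat.le_of_dvd (by omega) (Finset.prod_primes_dvd _
          (fun p hp => (hSp p hp).1.prime) (fun p hp => (hSp p hp).2.2))
      _ ≤ N := hdN
  have hH0 : (0 : ℝ) < H := by exact_mod_cast (by omega : 0 < H)
  have hl : 0 < Real.log H := Real.log_pos (by exact_mod_cast (by omega : 1 < H))
  have h2 : (S.card : ℝ) * Real.log H ≤ Real.log N := by
    rw [← Real.log_pow]
    apply Real.log_le_log (by positivity)
    exact_mod_cast h1
  have h3 : ∑ p ∈ S, (1 : ℝ) / ((p : ℝ) - 1) ≤ ∑ _p ∈ S, (1 : ℝ) / H := by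
    apply Finset.sum_le_sum
    intro p hp
    apply one_div_le_one_div_of_le hH0
    have : (H : ℝ) + 1 ≤ p := by exact_mod_cast (hSp p hp).2.1
    linarith
  refine h3.trans ?_
  rw [Finset.sum_const, nsmul_eq_mul, mul_one_div, div_le_div_iff₀ hH0 (by positivity)]
  nlinarith

lemma count_coprime (Q a : ℕ) (hQ : 1 ≤ Q) :
    ((range Q).filter (fun b : ℕ => IsCoprime ((b : ℤ) - (a : ℤ)) (Q : ℤ))).card = Q.totient := by
  rw [← Nat.filter_coprime_Ico_eq_totient Q ((Q - 1) * a)]
  refine Finset.card_bij (fun b _ => (Q - 1) * a + b) ?_ ?_ ?_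
  · intro b hb
    rw [Finset.mem_filter, Finset.mem_range] at hb
    rw [Finset.mem_filter, Finset.mem_Ico]
    refine ⟨⟨by omega, by omega⟩, ?_⟩
    rw [Nat.coprime_comm, ← Nat.isCoprime_iff_coprime]
    have h1 : (((Q - 1) * a + b : ℕ) : ℤ) = ((b : ℤ) - a) + a * Q := by
      push_cast [Nat.cast_sub hQ]
      ring
    rw [h1]
    exact IsCoprime.add_mul_right_left_iff.2 hb.2
  · intro a _ b _ hab
    omega
  · intro x hx
    rw [Finset.mem_filter, Finset.mem_Ico] at hx
    refine ⟨x - (Q - 1) * a, ?_, by omega⟩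
    rw [Finset.mem_filter, Finset.mem_range]
    refine ⟨by omega, ?_⟩
    have h2 := hx.2
    rw [Nat.coprime_comm, ← Nat.isCoprime_iff_coprime] at h2
    have h1 : (x : ℤ) = ((((x - (Q - 1) * a : ℕ) : ℤ)) - a) + a * Q := by
      push_cast [Nat.cast_sub hQ, Nat.cast_sub hx.1.1]
      ring
    rw [h1] at h2
    exact IsCoprime.add_mul_right_left_iff.1 h2

lemma totient_primorial (H : ℕ) :
    ((primorial H).totient : ℝ) * Pi1 (SH H) = (primorial H : ℝ) := by
  have h1 := Nat.totient_mul_prod_primeFactors (primorial H)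
  have h2 : (primorial H).primeFactors = SH H := by
    rw [primeFactors_primorial]; rfl
  have h3 : ∏ p ∈ SH H, p = primorial H := rfl
  rw [h2, h3] at h1
  have h4 : (primorial H).totient = ∏ p ∈ SH H, (p - 1) := by
    have := primorial_pos H
    have h5 : primorial H * (primorial H).totient = primorial H * ∏ p ∈ SH H, (p - 1) := by
      rw [← h1]; ring
    exact Nat.eq_of_mul_eq_mul_left this h5
  rw [h4, ← h3]
  unfold Pi1
  push_cast
  rw [← Finset.prod_mul_distrib]
  apply Finset.prod_congr rfl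
  intro p hp
  have hp1 : p.Prime := (Finset.mem_filter.1 hp).2
  have h2 : (1 : ℝ) < p := by exact_mod_cast hp1.one_lt
  rw [Nat.cast_sub hp1.one_lt.le]
  push_cast
  have h5 : (p : ℝ) - 1 ≠ 0 := by linarith
  field_simp
  ring

/-- (6) -/
lemma nt6 (H : ℕ) (A : Finset ℕ) (hH : 2 ≤ H) : ∃ b < primorial H,
    ((A.filter (fun a : ℕ => IsCoprime ((b : ℤ) - (a : ℤ)) (primorial H : ℤ))).card : ℝ) *
      Real.log H ≤ A.card := by
  classical
  set Q := primorial H with hQ
  have hQ0 : 0 < Q := primorial_pos H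
  have h1 : ∑ b ∈ range Q, (A.filter (fun a : ℕ => IsCoprime ((b : ℤ) - (a : ℤ)) (Q : ℤ))).card =
      A.card * Q.totient := by
    simp_rw [Finset.card_filter]
    rw [Finset.sum_comm]
    simp_rw [← Finset.card_filter]
    rw [Finset.sum_congr rfl (fun a _ => count_coprime Q a hQ0), Finset.sum_const, smul_eq_mul]
  -- the logarithm
  have h2 : Real.log H ≤ Pi1 (SH H) := by
    refine (log_le_sum H).trans ?_
    apply sum_factored
    · intro p hp
      exact (Finset.mem_filter.1 hp).2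
    · intro n hn
      rw [Finset.mem_Icc] at hn
      rw [Nat.mem_factoredNumbers_iff_primeFactors_subset]
      refine ⟨by omega, ?_⟩
      intro p hp
      have h3 := Nat.prime_of_mem_primeFactors hp
      have h4 := Nat.le_of_mem_primeFactors hp
      unfold SH
      rw [Finset.mem_filter, Finset.mem_range]
      exact ⟨by omega, h3⟩
  have h3 : (Q.totient : ℝ) * Real.log H ≤ Q := by
    rw [hQ, ← totient_primorial H]
    exact mul_le_mul_of_nonneg_left h2 (Nat.cast_nonneg _)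
  by_contra hcon
  push Not at hcon
  have h4 : (A.card : ℝ) * Q < ∑ b ∈ range Q,
      ((A.filter (fun a : ℕ => IsCoprime ((b : ℤ) - (a : ℤ)) (Q : ℤ))).card : ℝ) * Real.log H := by
    calc (A.card : ℝ) * Q = ∑ _b ∈ range Q, (A.card : ℝ) := by
          rw [Finset.sum_const, Finset.card_range, nsmul_eq_mul]; ring
      _ < _ := Finset.sum_lt_sum_of_nonempty ⟨0, Finset.mem_range.2 hQ0⟩
          fun b hb => hcon b (Finset.mem_range.1 hb)
  rw [← Finset.sum_mul] at h4
  have h5 : (∑ b ∈ range Q,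
      ((A.filter (fun a : ℕ => IsCoprime ((b : ℤ) - (a : ℤ)) (Q : ℤ))).card : ℝ)) =
      (A.card : ℝ) * Q.totient := by
    exact_mod_cast h1
  rw [h5] at h4
  have h6 : (A.card : ℝ) * ((Q.totient : ℝ) * Real.log H) ≤ (A.card : ℝ) * Q :=
    mul_le_mul_of_nonneg_left h3 (Nat.cast_nonneg _)
  linarith

theorem nt : NT := by
  obtain ⟨C, hC1, hC⟩ := nt1
  have hl2 : (0 : ℝ) < Real.log 2 := by have := Real.log_two_gt_d9; linarith
  have hl2' : Real.log 2 ≤ 1 := by have := Real.log_two_lt_d9; linarith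
  have hC2 : C ≤ 2 * C / Real.log 2 := by
    rw [le_div_iff₀ hl2]
    nlinarith
  refine ⟨2 * C / Real.log 2, hC1.trans hC2, ?_, ?_, ?_, nt4, nt5, nt6⟩
  · intro H z hH hz
    refine (hC H z hH hz).trans ?_
    apply mul_le_mul_of_nonneg_right hC2
    exact div_nonneg (Real.log_natCast_nonneg _) (Real.log_natCast_nonneg _)
  · intro H z Y hH hY
    have h1 := nt2 H z Y hY
    have h2 := Pi1_SH_le C hC1 hC H hH
    have hlH : 0 < Real.log H := Real.log_pos (by exact_mod_cast (by omega : 1 < H))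
    have h3 : 0 ≤ ∑ R ∈ (PP H z).powerset.filter (fun R : Finset ℕ => ∏ p ∈ R, p ≤ Y), wt R := by
      apply Finset.sum_nonneg
      intro R hR
      rw [Finset.mem_filter, Finset.mem_powerset] at hR
      exact wt_nonneg R fun p hp => (prime_of_PP (hR.1 hp)).1
    rw [div_le_iff₀ hlH]
    calc Real.log Y ≤ _ := h1
      _ ≤ (2 * C / Real.log 2 * Real.log H) * _ := mul_le_mul_of_nonneg_right h2 h3
      _ = _ := by ring
  · intro H z Y hH hY
    refine (nt3 C hC H z Y hH hY).trans ?_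
    apply mul_le_mul_of_nonneg_right hC2
    exact div_nonneg (Real.log_natCast_nonneg _) (Real.log_natCast_nonneg _)

end Pool.Agent.H647R2.ACNT
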