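import Mathlib

set_option autoImplicit false

namespace Pool.Agent.H647R2

/-- A general back-and-forth lemma. -/
theorem baf {X Y : Type} [Countable X] [Countable Y] (P : Finset (X × Y) → Prop)
    (hfun : ∀ S, P S → ∀ p ∈ S, ∀ q ∈ S, (p.1 = q.1 ↔ p.2 = q.2))
    (forth : ∀ S, P S → ∀ x : X, ∃ y : Y, ∃ S', S ⊆ S' ∧ P S' ∧ (x, y) ∈ S')
    (back : ∀ S, P S → ∀ y : Y, ∃ x : X, ∃ S', S ⊆ S' ∧ P S' ∧ (x, y) ∈ S')
    (S₀ : Finset (X × Y)) (h₀ : P S₀) :
    ∃ f : X ≃ Y, ∀ s : Finset X, ∃ S, S₀ ⊆ S ∧ P S ∧ ∀ x ∈ s, (x, f x) ∈ S := by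
  classical
  letI : Encodable X := Encodable.ofCountable X
  letI : Encodable Y := Encodable.ofCountable Y
  let Q := {S : Finset (X × Y) // P S}
  let 𝒟 : X ⊕ Y → Order.Cofinal Q := fun z =>
    match z with
    | Sum.inl x => ⟨{S | ∃ y, (x, y) ∈ S.1}, fun S => by
        obtain ⟨y, S', h1, h2, h3⟩ := forth S.1 S.2 x
        exact ⟨⟨S', h2⟩, ⟨y, h3⟩, h1⟩⟩
    | Sum.inr y => ⟨{S | ∃ x, (x, y) ∈ S.1}, fun S => by
        obtain ⟨x, S', h1, h2, h3⟩ := back S.1 S.2 y
        exact ⟨⟨S', h2⟩, ⟨x, h3⟩, h1⟩⟩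
  let I := Order.idealOfCofinals (⟨S₀, h₀⟩ : Q) 𝒟
  have hI0 : (⟨S₀, h₀⟩ : Q) ∈ I := Order.mem_idealOfCofinals _ _
  have hF : ∀ x, ∃ y, ∃ S ∈ I, (x, y) ∈ S.1 := by
    intro x
    obtain ⟨S, h1, h2⟩ := Order.cofinal_meets_idealOfCofinals (⟨S₀, h₀⟩ : Q) 𝒟 (Sum.inl x)
    obtain ⟨y, hy⟩ := h1
    exact ⟨y, S, h2, hy⟩
  have hG : ∀ y, ∃ x, ∃ S ∈ I, (x, y) ∈ S.1 := by
    intro y
    obtain ⟨S, h1, h2⟩ := Order.cofinal_meets_idealOfCofinals (⟨S₀, h₀⟩ : Q) 𝒟 (Sum.inr y)
    obtain ⟨x, hx⟩ := h1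
    exact ⟨x, S, h2, hx⟩
  choose F SF hSF hF using hF
  choose G SG hSG hG using hG
  have hdir : ∀ S ∈ I, ∀ S' ∈ I, ∃ S'' ∈ I, S.1 ⊆ S''.1 ∧ S'.1 ⊆ S''.1 := by
    intro S hS S' hS'
    obtain ⟨S'', h1, h2, h3⟩ := I.directed S hS S' hS'
    exact ⟨S'', h1, h2, h3⟩
  refine ⟨⟨F, G, ?_, ?_⟩, ?_⟩
  · intro x
    obtain ⟨S, _, h1, h2⟩ := hdir _ (hSF x) _ (hSG (F x))
    exact ((hfun S.1 S.2 _ (h1 (hF x)) _ (h2 (hG (F x)))).2 rfl).symm
  · intro y
    obtain ⟨S, _, h1, h2⟩ := hdir _ (hSG y) _ (hSF (G y))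
    exact ((hfun S.1 S.2 _ (h1 (hG y)) _ (h2 (hF (G y)))).1 rfl).symm
  · intro s
    have : ∃ S ∈ I, S₀ ⊆ S.1 ∧ ∀ x ∈ s, (x, F x) ∈ S.1 := by
      induction s using Finset.induction_on with
      | empty => exact ⟨_, hI0, Finset.Subset.refl _, by simp⟩
      | insert a s _ ih =>
        obtain ⟨S, h1, h2, h3⟩ := ih
        obtain ⟨S', h4, h5, h6⟩ := hdir _ h1 _ (hSF a)
        refine ⟨S', h4, h2.trans h5, fun x hx => ?_⟩
        rcases Finset.mem_insert.1 hx with rfl | hx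
        · exact h6 (hF _)
        · exact h5 (h3 x hx)
    obtain ⟨S, _, h2, h3⟩ := this
    exact ⟨S.1, h2, S.2, h3⟩

/-- Generic functions of two variables. -/
structure Gen {B Q D : Type} (h : B → Q → D) : Prop where
  ne : Nonempty D
  extQ : ∀ (s : Finset B) (g : B → D) (t : Finset Q), ∃ x, x ∉ t ∧ ∀ b ∈ s, h b x = g b
  extB : ∀ (t : Finset Q) (g : Q → D) (s : Finset B), ∃ b, b ∉ s ∧ ∀ x ∈ t, h b x = g x

section
variable {B Q D B' Q' D' : Type}

/-- finite partial isomorphisms over a given bijection of the `D` sorts -/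
structure Compat (h : B → Q → D) (h' : B' → Q' → D') (σ : D ≃ D')
    (S : Finset ((B ⊕ Q) × (B' ⊕ Q'))) : Prop where
  sort : ∀ p ∈ S, (p.1.isLeft = p.2.isLeft)
  inj : ∀ p ∈ S, ∀ q ∈ S, (p.1 = q.1 ↔ p.2 = q.2)
  map : ∀ b x b' x', (Sum.inl b, Sum.inl b') ∈ S → (Sum.inr x, Sum.inr x') ∈ S →
    h' b' x' = σ (h b x)

variable {h : B → Q → D} {h' : B' → Q' → D'} {σ : D ≃ D'} {S : Finset ((B ⊕ Q) × (B' ⊕ Q'))}

theorem Compat.addL [DecidableEq ((B ⊕ Q) × (B' ⊕ Q'))] (hg' : Gen h') (hS : Compat h h' σ S) (b : B)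
    (hb : ∀ y, (Sum.inl b, y) ∉ S) :
    ∃ b' : B', Compat h h' σ (insert (Sum.inl b, Sum.inl b') S) := by
  classical
  let g : Q' → D' := fun x' =>
    if H : ∃ x, (Sum.inr x, Sum.inr x') ∈ S then σ (h b H.choose) else Classical.choice hg'.ne
  let t : Finset Q' := S.biUnion fun p => match p.2 with
    | Sum.inl _ => ∅
    | Sum.inr x' => {x'}
  let s : Finset B' := S.biUnion fun p => match p.2 with
    | Sum.inl b' => {b'}
    | Sum.inr _ => ∅
  obtain ⟨b', hb's, hb't⟩ := hg'.extB t g s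
  have hs : ∀ p ∈ S, p.2 ≠ Sum.inl b' := by
    rintro ⟨p, q⟩ hp hq
    apply hb's
    simp only at hq
    subst hq
    exact Finset.mem_biUnion.2 ⟨_, hp, by simp⟩
  have hs' : ∀ p ∈ S, p.1 ≠ Sum.inl b := by
    rintro ⟨p, q⟩ hp hq
    simp only at hq
    subst hq
    exact hb _ hp
  refine ⟨b', ⟨?_, ?_, ?_⟩⟩
  · intro p hp
    rcases Finset.mem_insert.1 hp with rfl | hp
    · rfl
    · exact hS.sort p hp
  · intro p hp q hq
    rcases Finset.mem_insert.1 hp with rfl | hp <;> rcases Finset.mem_insert.1 hq with rfl | hq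
    · simp
    · constructor
      · intro h1; exact absurd h1.symm (hs' q hq)
      · intro h1; exact absurd h1.symm (hs q hq)
    · constructor
      · intro h1; exact absurd h1 (hs' p hp)
      · intro h1; exact absurd h1 (hs p hp)
    · exact hS.inj p hp q hq
  · intro b₁ x b₁' x' h1 h2
    have h2' : (Sum.inr x, Sum.inr x') ∈ S := by
      rcases Finset.mem_insert.1 h2 with h3 | h3
      · simp at h3
      · exact h3
    rcases Finset.mem_insert.1 h1 with h3 | h3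
    · simp only [Prod.mk.injEq, Sum.inl.injEq] at h3
      obtain ⟨rfl, rfl⟩ := h3
      have hx't : x' ∈ t := Finset.mem_biUnion.2 ⟨_, h2', by simp⟩
      rw [hb't x' hx't]
      have H : ∃ x, (Sum.inr x, Sum.inr x') ∈ S := ⟨x, h2'⟩
      simp only [g, dif_pos H]
      have h4 : (Sum.inr H.choose : B ⊕ Q) = Sum.inr x :=
        (hS.inj _ H.choose_spec _ h2').2 rfl
      rw [Sum.inr.inj h4]
    · exact hS.map b₁ x b₁' x' h3 h2'

theorem Compat.addR [DecidableEq ((B ⊕ Q) × (B' ⊕ Q'))] (hg' : Gen h') (hS : Compat h h' σ S) (x : Q)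
    (hb : ∀ y, (Sum.inr x, y) ∉ S) :
    ∃ x' : Q', Compat h h' σ (insert (Sum.inr x, Sum.inr x') S) := by
  classical
  let g : B' → D' := fun b' =>
    if H : ∃ b, (Sum.inl b, Sum.inl b') ∈ S then σ (h H.choose x) else Classical.choice hg'.ne
  let s : Finset Q' := S.biUnion fun p => match p.2 with
    | Sum.inl _ => ∅
    | Sum.inr x' => {x'}
  let t : Finset B' := S.biUnion fun p => match p.2 with
    | Sum.inl b' => {b'}
    | Sum.inr _ => ∅
  obtain ⟨x', hb's, hb't⟩ := hg'.extQ t g s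
  have hs : ∀ p ∈ S, p.2 ≠ Sum.inr x' := by
    rintro ⟨p, q⟩ hp hq
    apply hb's
    simp only at hq
    subst hq
    exact Finset.mem_biUnion.2 ⟨_, hp, by simp⟩
  have hs' : ∀ p ∈ S, p.1 ≠ Sum.inr x := by
    rintro ⟨p, q⟩ hp hq
    simp only at hq
    subst hq
    exact hb _ hp
  refine ⟨x', ⟨?_, ?_, ?_⟩⟩
  · intro p hp
    rcases Finset.mem_insert.1 hp with rfl | hp
    · rfl
    · exact hS.sort p hp
  · intro p hp q hq
    rcases Finset.mem_insert.1 hp with rfl | hp <;> rcases Finset.mem_insert.1 hq with rfl | hq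
    · simp
    · constructor
      · intro h1; exact absurd h1.symm (hs' q hq)
      · intro h1; exact absurd h1.symm (hs q hq)
    · constructor
      · intro h1; exact absurd h1 (hs' p hp)
      · intro h1; exact absurd h1 (hs p hp)
    · exact hS.inj p hp q hq
  · intro b x₁ b' x₁' h1 h2
    have h1' : (Sum.inl b, Sum.inl b') ∈ S := by
      rcases Finset.mem_insert.1 h1 with h3 | h3
      · simp at h3
      · exact h3
    rcases Finset.mem_insert.1 h2 with h3 | h3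
    · simp only [Prod.mk.injEq, Sum.inr.injEq] at h3
      obtain ⟨rfl, rfl⟩ := h3
      have hx't : b' ∈ t := Finset.mem_biUnion.2 ⟨_, h1', by simp⟩
      rw [hb't b' hx't]
      have H : ∃ b, (Sum.inl b, Sum.inl b') ∈ S := ⟨b, h1'⟩
      simp only [g, dif_pos H]
      have h4 : (Sum.inl H.choose : B ⊕ Q) = Sum.inl b :=
        (hS.inj _ H.choose_spec _ h1').2 rfl
      rw [Sum.inl.inj h4]
    · exact hS.map b x₁ b' x₁' h1' h3

theorem Compat.forth (hg' : Gen h') (hS : Compat h h' σ S) (x : B ⊕ Q) :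
    ∃ y, ∃ S', S ⊆ S' ∧ Compat h h' σ S' ∧ (x, y) ∈ S' := by
  classical
  by_cases hx : ∃ y, (x, y) ∈ S
  · obtain ⟨y, hy⟩ := hx
    exact ⟨y, S, Finset.Subset.refl _, hS, hy⟩
  push Not at hx
  rcases x with b | x
  · obtain ⟨b', hb'⟩ := hS.addL hg' b hx
    exact ⟨_, _, Finset.subset_insert _ _, hb', Finset.mem_insert_self _ _⟩
  · obtain ⟨x', hx'⟩ := hS.addR hg' x hx
    exact ⟨_, _, Finset.subset_insert _ _, hx', Finset.mem_insert_self _ _⟩

theorem Compat.symm [DecidableEq ((B' ⊕ Q') × (B ⊕ Q))] (hS : Compat h h' σ S) :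
    Compat h' h σ.symm (S.image Prod.swap) := by
  refine ⟨?_, ?_, ?_⟩
  · intro p hp
    obtain ⟨q, hq, rfl⟩ := Finset.mem_image.1 hp
    exact (hS.sort q hq).symm
  · intro p hp p' hp'
    obtain ⟨q, hq, rfl⟩ := Finset.mem_image.1 hp
    obtain ⟨q', hq', rfl⟩ := Finset.mem_image.1 hp'
    exact (hS.inj q hq q' hq').symm
  · intro b x b' x' h1 h2
    obtain ⟨⟨q1, q2⟩, hq, h3⟩ := Finset.mem_image.1 h1
    obtain ⟨⟨q1', q2'⟩, hq', h3'⟩ := Finset.mem_image.1 h2
    simp only [Prod.swap_prod_mk, Prod.mk.injEq] at h3 h3'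
    obtain ⟨rfl, rfl⟩ := h3
    obtain ⟨rfl, rfl⟩ := h3'
    rw [hS.map _ _ _ _ hq hq', Equiv.symm_apply_apply]

theorem Compat.back (hg : Gen h) (hS : Compat h h' σ S) (y : B' ⊕ Q') :
    ∃ x, ∃ S', S ⊆ S' ∧ Compat h h' σ S' ∧ (x, y) ∈ S' := by
  classical
  obtain ⟨x, S', h1, h2, h3⟩ := hS.symm.forth hg y
  refine ⟨x, S'.image Prod.swap, ?_, ?_, ?_⟩
  · intro p hp
    exact Finset.mem_image.2 ⟨p.swap, h1 (Finset.mem_image.2 ⟨p, hp, rfl⟩), by simp⟩
  · simpa using h2.symm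
  · exact Finset.mem_image.2 ⟨_, h3, rfl⟩

/-- Back and forth over a bijection of the `D` sorts. -/
theorem exists_iso [Countable B] [Countable Q] [Countable B'] [Countable Q']
    (hg : Gen h) (hg' : Gen h') (hS : Compat h h' σ S) :
    ∃ (β : B ≃ B') (κ : Q ≃ Q'), (∀ b x, h' (β b) (κ x) = σ (h b x)) ∧
      (∀ b b', (Sum.inl b, Sum.inl b') ∈ S → β b = b') ∧
      (∀ x x', (Sum.inr x, Sum.inr x') ∈ S → κ x = x') := by
  classical
  obtain ⟨f, hf⟩ := baf (Compat h h' σ) (fun S hS => hS.inj) (fun S hS => hS.forth hg')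
    (fun S hS => hS.back hg) S hS
  have hsort : ∀ x, x.isLeft = (f x).isLeft := by
    intro x
    obtain ⟨S', _, h2, h3⟩ := hf {x}
    exact h2.sort _ (h3 x (Finset.mem_singleton_self x))
  have hl : ∀ b, ∃ b', f (Sum.inl b) = Sum.inl b' := by
    intro b
    have h1 := hsort (Sum.inl b)
    rcases hfb : f (Sum.inl b) with b' | x'
    · exact ⟨b', rfl⟩
    · rw [hfb] at h1; simp at h1
  have hr : ∀ x, ∃ x', f (Sum.inr x) = Sum.inr x' := by
    intro x
    have h1 := hsort (Sum.inr x)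
    rcases hfb : f (Sum.inr x) with b' | x'
    · rw [hfb] at h1; simp at h1
    · exact ⟨x', rfl⟩
  choose β hβ using hl
  choose κ hκ using hr
  have hβb : Function.Bijective β := by
    constructor
    · intro b₁ b₂ h1
      have : f (Sum.inl b₁) = f (Sum.inl b₂) := by rw [hβ, hβ, h1]
      exact Sum.inl.inj (f.injective this)
    · intro b'
      rcases hx : f.symm (Sum.inl b') with b | x
      · refine ⟨b, ?_⟩
        have : f (Sum.inl b) = Sum.inl b' := by rw [← hx, Equiv.apply_symm_apply]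
        rw [hβ] at this
        exact Sum.inl.inj this
      · have : f (Sum.inr x) = Sum.inl b' := by rw [← hx, Equiv.apply_symm_apply]
        rw [hκ] at this
        simp at this
  have hκb : Function.Bijective κ := by
    constructor
    · intro b₁ b₂ h1
      have : f (Sum.inr b₁) = f (Sum.inr b₂) := by rw [hκ, hκ, h1]
      exact Sum.inr.inj (f.injective this)
    · intro b'
      rcases hx : f.symm (Sum.inr b') with b | x
      · have : f (Sum.inl b) = Sum.inr b' := by rw [← hx, Equiv.apply_symm_apply]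
        rw [hβ] at this
        simp at this
      · refine ⟨x, ?_⟩
        have : f (Sum.inr x) = Sum.inr b' := by rw [← hx, Equiv.apply_symm_apply]
        rw [hκ] at this
        exact Sum.inr.inj this
  refine ⟨Equiv.ofBijective β hβb, Equiv.ofBijective κ hκb, ?_, ?_, ?_⟩
  · intro b x
    obtain ⟨S', _, h2, h3⟩ := hf {Sum.inl b, Sum.inr x}
    have h4 := h3 (Sum.inl b) (by simp)
    have h5 := h3 (Sum.inr x) (by simp)
    rw [hβ] at h4
    rw [hκ] at h5
    exact h2.map _ _ _ _ h4 h5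
  · intro b b' hbb
    obtain ⟨S', h1, h2, h3⟩ := hf {Sum.inl b}
    have h4 := h3 (Sum.inl b) (by simp)
    have h5 := h1 hbb
    have h6 : f (Sum.inl b) = Sum.inl b' := (h2.inj _ h4 _ h5).1 rfl
    rw [hβ] at h6
    exact Sum.inl.inj h6
  · intro x x' hxx
    obtain ⟨S', h1, h2, h3⟩ := hf {Sum.inr x}
    have h4 := h3 (Sum.inr x) (by simp)
    have h5 := h1 hxx
    have h6 : f (Sum.inr x) = Sum.inr x' := (h2.inj _ h4 _ h5).1 rfl
    rw [hκ] at h6
    exact Sum.inr.inj h6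

end

/-- There is a generic function on `ℕ × ℕ` with values in any countable nonempty set. -/
theorem exists_gen (D : Type) [Countable D] [Nonempty D] : ∃ h : ℕ → ℕ → D, Gen h := by
  classical
  obtain ⟨e, he⟩ := exists_surjective_nat ((Finset (ℕ × D)) × ℕ)
  obtain ⟨d₀⟩ := (inferInstance : Nonempty D)
  let ev : Finset (ℕ × D) → ℕ → D := fun s n =>
    if H : ∃ d, (n, d) ∈ s then H.choose else d₀
  have hev : ∀ (s : Finset ℕ) (g : ℕ → D), ∀ n ∈ s, ev (s.image fun n => (n, g n)) n = g n := by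
    intro s g n hn
    have H : ∃ d, (n, d) ∈ s.image fun n => (n, g n) := ⟨g n, Finset.mem_image.2 ⟨n, hn, rfl⟩⟩
    simp only [ev, dif_pos H]
    obtain ⟨m, hm, hmn⟩ := Finset.mem_image.1 H.choose_spec
    simp only [Prod.mk.injEq] at hmn
    rw [← hmn.2, hmn.1]
  have hinf : ∀ (s : Finset (ℕ × D)) (N : ℕ), ∃ k, N < k ∧ (e k).1 = s := by
    intro s N
    by_contra hcon
    push Not at hcon
    have h1 : Set.Finite {k | (e k).1 = s} := by
      refine (Set.finite_Iic N).subset fun k hk => ?_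
      by_contra hk'
      exact hcon k (not_le.1 hk') hk
    have h2 : Set.Infinite {k | (e k).1 = s} := by
      choose j hj using fun i : ℕ => he (s, i)
      refine Set.infinite_of_injective_forall_mem (f := j) ?_ ?_
      · intro a b hab
        have := hj a
        rw [hab, hj b] at this
        simpa using this.symm
      · intro i
        show (e (j i)).1 = s
        rw [hj i]
    exact h2 h1
  let h : ℕ → ℕ → D := fun b x => if b < x then ev (e x).1 b else ev (e b).1 x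
  refine ⟨h, ⟨⟨d₀⟩, ?_, ?_⟩⟩
  · intro s g t
    obtain ⟨k, hk, hk'⟩ := hinf (s.image fun n => (n, g n)) (s.sup id + t.sup id)
    refine ⟨k, ?_, ?_⟩
    · intro hkt
      have : k ≤ t.sup id := Finset.le_sup (f := id) hkt
      omega
    · intro b hb
      have : b ≤ s.sup id := Finset.le_sup (f := id) hb
      have h1 : b < k := by omega
      simp only [h, if_pos h1, hk']
      exact hev s g b hb
  · intro t g s
    obtain ⟨k, hk, hk'⟩ := hinf (t.image fun n => (n, g n)) (s.sup id + t.sup id)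
    refine ⟨k, ?_, ?_⟩
    · intro hkt
      have : k ≤ s.sup id := Finset.le_sup (f := id) hkt
      omega
    · intro b hb
      have : b ≤ t.sup id := Finset.le_sup (f := id) hb
      have h1 : ¬ (k < b) := by omega
      simp only [h, if_neg h1, hk']
      exact hev t g b hb

end Pool.Agent.H647R2
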