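import Mathlib

set_option autoImplicit false

namespace Pool.Agent.H647R2.FSigma

open Set Filter Topology

/-- A function into a compact set with closed graph is continuous. -/
lemma continuousAt_of_graph {X : Type*} [TopologicalSpace X] {f : X → ℝ} {x₀ : X} {K : Set ℝ}
    (hK : IsCompact K) {R : Set (X × ℝ)} (hR : IsClosed R)
    (hf : ∀ᶠ x in 𝓝 x₀, f x ∈ K ∧ (x, f x) ∈ R)
    (huniq : ∀ y, (x₀, y) ∈ R → y = f x₀) : ContinuousAt f x₀ := by
  refine hK.tendsto_nhds_of_unique_mapClusterPt (hf.mono fun x hx => hx.1) ?_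
  intro y _ hclus
  apply huniq
  rw [← hR.closure_eq, mem_closure_iff_nhds]
  intro t ht
  rw [nhds_prod_eq, Filter.mem_prod_iff] at ht
  obtain ⟨U, hU, V, hV, hUV⟩ := ht
  rw [mapClusterPt_iff_frequently] at hclus
  have h1 := (hclus V hV).and_eventually (hf.and hU)
  obtain ⟨x, hxV, ⟨_, hxR⟩, hxU⟩ := h1.exists
  exact ⟨(x, f x), hUV ⟨hxU, hxV⟩, hxR⟩

/-- Step 1: the multiplication is continuous on an open box. -/
lemma exists_box {m : ℝ → ℝ → ℝ} {F : ℕ → Set (ℝ × ℝ × ℝ)} (hF : ∀ n, IsClosed (F n))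
    (hU : {p : ℝ × ℝ × ℝ | m p.1 p.2.1 = p.2.2} = ⋃ n, F n) :
    ∃ x₀ y₀ ε : ℝ, 0 < ε ∧ ∀ x y, |x - x₀| < ε → |y - y₀| < ε →
      ContinuousAt (fun p : ℝ × ℝ => m p.1 p.2) (x, y) := by
  classical
  let C : ℕ × ℕ → Set (ℝ × ℝ) := fun nk =>
    {p | (p.1, p.2, m p.1 p.2) ∈ F nk.1 ∧ |m p.1 p.2| ≤ nk.2}
  have hmem : ∀ {n x y z}, (x, y, z) ∈ F n → m x y = z := by
    intro n x y z h
    have : (x, y, z) ∈ ⋃ n, F n := mem_iUnion.2 ⟨n, h⟩
    rw [← hU] at this
    exact this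
  have hC : ∀ nk, IsClosed (C nk) := by
    rintro ⟨n, k⟩
    have hcl : IsClosed {q : (ℝ × ℝ) × (Icc (-(k : ℝ)) k) | (q.1.1, q.1.2, (q.2 : ℝ)) ∈ F n} :=
      (hF n).preimage (by fun_prop)
    have h2 := isClosedMap_fst_of_compactSpace (Y := Icc (-(k : ℝ)) k) _ hcl
    convert h2 using 1
    ext p
    constructor
    · rintro ⟨h3, h4⟩
      exact ⟨(p, ⟨m p.1 p.2, abs_le.1 h4⟩), h3, rfl⟩
    · rintro ⟨⟨q, z⟩, h3, rfl⟩
      have h5 : m q.1 q.2 = z := hmem h3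
      refine ⟨?_, ?_⟩
      · show (q.1, q.2, m q.1 q.2) ∈ F n
        rw [h5]; exact h3
      · show |m q.1 q.2| ≤ (k : ℝ)
        rw [h5]; exact abs_le.2 z.2
  have hcov : (⋃ nk, C nk) = univ := by
    rw [eq_univ_iff_forall]
    intro p
    have : (p.1, p.2, m p.1 p.2) ∈ ⋃ n, F n := by
      rw [← hU]; rfl
    obtain ⟨n, hn⟩ := mem_iUnion.1 this
    obtain ⟨k, hk⟩ := exists_nat_ge |m p.1 p.2|
    exact mem_iUnion.2 ⟨(n, k), hn, hk⟩
  obtain ⟨⟨n, k⟩, hint⟩ := nonempty_interior_of_iUnion_of_closed hC hcov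
  obtain ⟨⟨x₀, y₀⟩, hp⟩ := hint
  have hnhds : interior (C (n, k)) ∈ 𝓝 (x₀, y₀) := isOpen_interior.mem_nhds hp
  rw [Metric.mem_nhds_iff] at hnhds
  obtain ⟨ε, hε, hball⟩ := hnhds
  refine ⟨x₀, y₀, ε, hε, fun x y hx hy => ?_⟩
  have hxy : (x, y) ∈ interior (C (n, k)) := by
    apply hball
    rw [Metric.mem_ball, Prod.dist_eq, max_lt_iff]
    exact ⟨by simpa [Real.dist_eq] using hx, by simpa [Real.dist_eq] using hy⟩
  have hev : ∀ᶠ p in 𝓝 (x, y), p ∈ C (n, k) :=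
    Filter.mem_of_superset (isOpen_interior.mem_nhds hxy) interior_subset
  refine continuousAt_of_graph (f := fun p : ℝ × ℝ => m p.1 p.2) (K := Icc (-(k : ℝ)) k)
    (R := {q : (ℝ × ℝ) × ℝ | (q.1.1, q.1.2, q.2) ∈ F n}) isCompact_Icc
    ((hF n).preimage (by fun_prop)) ?_ ?_
  · filter_upwards [hev] with p hp
    exact ⟨abs_le.1 hp.2, hp.1⟩
  · intro z hz
    exact (hmem hz).symm

/-- The inverse of an injective function continuous near `0` is continuous near `0`. -/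
lemma inverse_cont {ε : ℝ} (hε : 0 < ε) (f s : ℝ → ℝ) (hinj : Function.Injective f) (h0 : f 0 = 0)
    (hcf : ∀ a, |a| < ε → ContinuousAt f a)
    (hsf : ∀ r, f (s r) = r) : ∃ δ : ℝ, 0 < δ ∧ ∀ r, |r| < δ → |s r| < ε ∧ ContinuousAt s r := by
  have hη : 0 < ε / 2 := by linarith
  have hcK : ContinuousOn f (Icc (-(ε/2)) (ε/2)) := fun a ha =>
    (hcf a (lt_of_le_of_lt (abs_le.2 ha) (by linarith))).continuousWithinAt
  have hsub : ∃ δ : ℝ, 0 < δ ∧ ∀ r, |r| < δ → s r ∈ Icc (-(ε/2)) (ε/2) := by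
    rcases hcK.strictMonoOn_of_injOn_Icc' (by linarith) hinj.injOn with hm | hm
    · have h1 : f (-(ε/2)) < f 0 := hm ⟨le_rfl, by linarith⟩ ⟨by linarith, by linarith⟩ (by linarith)
      have h2 : f 0 < f (ε/2) := hm ⟨by linarith, by linarith⟩ ⟨by linarith, le_rfl⟩ (by linarith)
      rw [h0] at h1 h2
      refine ⟨min (-(f (-(ε/2)))) (f (ε/2)), lt_min (by linarith) h2, fun r hr => ?_⟩
      rw [lt_min_iff] at hr
      have h3 := abs_lt.1 hr.1
      have h4 := abs_lt.1 hr.2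
      obtain ⟨a, ha, hfa⟩ := intermediate_value_Icc (by linarith : -(ε/2) ≤ ε/2) hcK
        (⟨by linarith, by linarith⟩ : r ∈ Icc (f (-(ε/2))) (f (ε/2)))
      have : s r = a := hinj (by rw [hsf, hfa])
      rw [this]; exact ha
    · have h1 : f 0 < f (-(ε/2)) := hm ⟨le_rfl, by linarith⟩ ⟨by linarith, by linarith⟩ (by linarith)
      have h2 : f (ε/2) < f 0 := hm ⟨by linarith, by linarith⟩ ⟨by linarith, le_rfl⟩ (by linarith)
      rw [h0] at h1 h2
      refine ⟨min (f (-(ε/2))) (-(f (ε/2))), lt_min h1 (by linarith), fun r hr => ?_⟩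
      rw [lt_min_iff] at hr
      have h3 := abs_lt.1 hr.1
      have h4 := abs_lt.1 hr.2
      obtain ⟨a, ha, hfa⟩ := intermediate_value_Icc' (by linarith : -(ε/2) ≤ ε/2) hcK
        (⟨by linarith, by linarith⟩ : r ∈ Icc (f (ε/2)) (f (-(ε/2))))
      have : s r = a := hinj (by rw [hsf, hfa])
      rw [this]; exact ha
  obtain ⟨δ, hδ, hs⟩ := hsub
  refine ⟨δ, hδ, fun r hr => ⟨lt_of_le_of_lt (abs_le.2 (hs r hr)) (by linarith), ?_⟩⟩
  refine continuousAt_of_graph (f := s) (K := Icc (-(ε/2)) (ε/2))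
    (R := {q : ℝ × ℝ | q.2 ∈ Icc (-(ε/2)) (ε/2) ∧ f q.2 = q.1}) isCompact_Icc ?_ ?_ ?_
  · have h1 : ContinuousOn (fun q : ℝ × ℝ => f q.2 - q.1) (univ ×ˢ Icc (-(ε/2)) (ε/2)) := by
      apply ContinuousOn.sub
      · exact hcK.comp continuousOn_snd (fun q hq => hq.2)
      · exact continuousOn_fst
    have h2 := h1.preimage_isClosed_of_isClosed (isClosed_univ.prod isClosed_Icc)
      (isClosed_singleton (x := (0:ℝ)))
    have h3 : {q : ℝ × ℝ | q.2 ∈ Icc (-(ε/2)) (ε/2) ∧ f q.2 = q.1} =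
      univ ×ˢ Icc (-(ε/2)) (ε/2) ∩ (fun q : ℝ × ℝ => f q.2 - q.1) ⁻¹' {0} := by
      ext q
      constructor
      · rintro ⟨h4, h5⟩
        exact ⟨⟨mem_univ _, h4⟩, sub_eq_zero.2 h5⟩
      · rintro ⟨⟨_, h4⟩, h5⟩
        exact ⟨h4, sub_eq_zero.1 h5⟩
    rw [h3]; exact h2
  · have : ∀ᶠ r' in 𝓝 r, |r'| < δ := (continuous_abs.tendsto r).eventually (Iio_mem_nhds hr)
    filter_upwards [this] with r' hr'
    exact ⟨hs r' hr', hs r' hr', hsf r'⟩
  · rintro y ⟨_, hy⟩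
    exact hinj (by rw [hsf]; exact hy)

variable {G : Type*} [Group G]

/-- Step 2: good coordinates around the identity. -/
lemma exists_coord (e : G ≃ ℝ) {x₀ y₀ ε : ℝ} (hε : 0 < ε)
    (hc : ∀ x y, |x - x₀| < ε → |y - y₀| < ε →
      ContinuousAt (fun p : ℝ × ℝ => e (e.symm p.1 * e.symm p.2)) (x, y)) :
    ∃ Φ : G ≃ ℝ, Φ 1 = 0 ∧ ∃ δ : ℝ, 0 < δ ∧ ∀ r r', |r| < δ → |r'| < δ →
      ContinuousAt (fun p : ℝ × ℝ => Φ (Φ.symm p.1 * Φ.symm p.2)) (r, r') := by
  classical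
  obtain ⟨X₀, hX₀⟩ : ∃ X₀, X₀ = e.symm x₀ := ⟨_, rfl⟩
  obtain ⟨Y₀, hY₀⟩ : ∃ Y₀, Y₀ = e.symm y₀ := ⟨_, rfl⟩
  obtain ⟨r₀, hr₀⟩ : ∃ r₀, r₀ = e (X₀ * Y₀) := ⟨_, rfl⟩
  obtain ⟨Φ, hΦ⟩ : ∃ Φ : G ≃ ℝ, ∀ g, Φ g = e (X₀ * g * Y₀) - r₀ :=
    ⟨((Equiv.mulLeft X₀).trans (Equiv.mulRight Y₀)).trans (e.trans (Equiv.subRight r₀)),
      fun g => rfl⟩
  -- the two coordinate functions
  obtain ⟨s, hs⟩ : ∃ s : ℝ → ℝ, ∀ r, s r = e (X₀ * Φ.symm r) - x₀ := ⟨_, fun _ => rfl⟩
  obtain ⟨t, ht⟩ : ∃ t : ℝ → ℝ, ∀ r, t r = e (Φ.symm r * Y₀) - y₀ := ⟨_, fun _ => rfl⟩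
  obtain ⟨f, hf⟩ : ∃ f : ℝ → ℝ, ∀ a, f a = e (e.symm (x₀ + a) * Y₀) - r₀ := ⟨_, fun _ => rfl⟩
  obtain ⟨g, hg⟩ : ∃ g : ℝ → ℝ, ∀ a, g a = e (X₀ * e.symm (y₀ + a)) - r₀ := ⟨_, fun _ => rfl⟩
  have hes : ∀ r, e.symm (x₀ + s r) = X₀ * Φ.symm r := by
    intro r
    rw [hs, add_sub_cancel, Equiv.symm_apply_apply]
  have het : ∀ r, e.symm (y₀ + t r) = Φ.symm r * Y₀ := by
    intro r
    rw [ht, add_sub_cancel, Equiv.symm_apply_apply]
  have hfs : ∀ r, f (s r) = r := by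
    intro r
    rw [hf, hes, ← hΦ, Equiv.apply_symm_apply]
  have hgt : ∀ r, g (t r) = r := by
    intro r
    rw [hg, het, ← mul_assoc, ← hΦ, Equiv.apply_symm_apply]
  have hfinj : Function.Injective f := by
    intro a b hab
    rw [hf, hf] at hab
    have h1 : e (e.symm (x₀ + a) * Y₀) = e (e.symm (x₀ + b) * Y₀) := by linarith
    have h2 := mul_right_cancel (e.injective h1)
    have h3 := e.symm.injective h2
    linarith
  have hginj : Function.Injective g := by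
    intro a b hab
    rw [hg, hg] at hab
    have h1 : e (X₀ * e.symm (y₀ + a)) = e (X₀ * e.symm (y₀ + b)) := by linarith
    have h2 := mul_left_cancel (e.injective h1)
    have h3 := e.symm.injective h2
    linarith
  have hf0 : f 0 = 0 := by rw [hf, add_zero, ← hX₀, hr₀, sub_self]
  have hg0 : g 0 = 0 := by rw [hg, add_zero, ← hY₀, hr₀, sub_self]
  have hfe : f = fun a => e (e.symm (x₀ + a) * e.symm y₀) - r₀ := by
    funext a; rw [hf, hY₀]
  have hge : g = fun a => e (e.symm x₀ * e.symm (y₀ + a)) - r₀ := by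
    funext a; rw [hg, hX₀]
  have hfc : ∀ a, |a| < ε → ContinuousAt f a := by
    intro a ha
    have h1 : ContinuousAt (fun p : ℝ × ℝ => e (e.symm p.1 * e.symm p.2)) (x₀ + a, y₀) :=
      hc _ _ (by simpa using ha) (by simpa using hε)
    have h2 : ContinuousAt (fun a : ℝ => ((x₀ + a, y₀) : ℝ × ℝ)) a := by fun_prop
    have h3 := ContinuousAt.comp (f := fun a : ℝ => ((x₀ + a, y₀) : ℝ × ℝ)) h1 h2
    rw [hfe]
    exact h3.sub continuousAt_const
  have hgc : ∀ a, |a| < ε → ContinuousAt g a := by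
    intro a ha
    have h1 : ContinuousAt (fun p : ℝ × ℝ => e (e.symm p.1 * e.symm p.2)) (x₀, y₀ + a) :=
      hc _ _ (by simpa using hε) (by simpa using ha)
    have h2 : ContinuousAt (fun a : ℝ => ((x₀, y₀ + a) : ℝ × ℝ)) a := by fun_prop
    have h3 := ContinuousAt.comp (f := fun a : ℝ => ((x₀, y₀ + a) : ℝ × ℝ)) h1 h2
    rw [hge]
    exact h3.sub continuousAt_const
  obtain ⟨δ₁, hδ₁, h1⟩ := inverse_cont hε f s hfinj hf0 hfc hfs
  obtain ⟨δ₂, hδ₂, h2⟩ := inverse_cont hε g t hginj hg0 hgc hgt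
  refine ⟨Φ, ?_, min δ₁ δ₂, lt_min hδ₁ hδ₂, ?_⟩
  · rw [hΦ, mul_one, hr₀, sub_self]
  intro r r' hr hr'
  obtain ⟨ha, hsc⟩ := h1 r (lt_of_lt_of_le hr (min_le_left _ _))
  obtain ⟨hb, htc⟩ := h2 r' (lt_of_lt_of_le hr' (min_le_right _ _))
  have hP : (fun p : ℝ × ℝ => Φ (Φ.symm p.1 * Φ.symm p.2)) =
      fun p : ℝ × ℝ => e (e.symm (x₀ + s p.1) * e.symm (y₀ + t p.2)) - r₀ := by
    funext p
    rw [hΦ, hes, het, mul_assoc, mul_assoc, mul_assoc]
  rw [hP]
  have h3 : ContinuousAt (fun p : ℝ × ℝ => e (e.symm p.1 * e.symm p.2)) (x₀ + s r, y₀ + t r') :=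
    hc _ _ (by simpa using ha) (by simpa using hb)
  have h4 : ContinuousAt (fun p : ℝ × ℝ => ((x₀ + s p.1, y₀ + t p.2) : ℝ × ℝ)) (r, r') := by
    apply ContinuousAt.prodMk
    · exact continuousAt_const.add
        (ContinuousAt.comp (f := Prod.fst) (x := (r, r')) hsc continuousAt_fst)
    · exact continuousAt_const.add
        (ContinuousAt.comp (f := Prod.snd) (x := (r, r')) htc continuousAt_snd)
  exact (ContinuousAt.comp (f := fun p : ℝ × ℝ => ((x₀ + s p.1, y₀ + t p.2) : ℝ × ℝ)) h3 h4).sub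
    continuousAt_const

lemma mono_aux {δ : ℝ} (Q : ℝ → ℝ → ℝ) (h0 : ∀ x, Q x 0 = x) (h0' : ∀ x, Q 0 x = x)
    (hinj : ∀ x, Function.Injective (Q x))
    (hc : ∀ r r', |r| < δ → |r'| < δ → ContinuousAt (fun p : ℝ × ℝ => Q p.1 p.2) (r, r')) :
    ∀ r, |r| < δ → StrictMonoOn (Q r) (Ioo (-δ) δ) := by
  intro r hr
  have hδ : 0 < δ := lt_of_le_of_lt (abs_nonneg r) hr
  have hcr : ContinuousOn (Q r) (Ioo (-δ) δ) := by
    intro y hy
    have h1 := hc r y hr (abs_lt.2 hy)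
    have h2 : ContinuousAt (fun y : ℝ => ((r, y) : ℝ × ℝ)) y := by fun_prop
    exact (ContinuousAt.comp (f := fun y : ℝ => ((r, y) : ℝ × ℝ)) h1 h2).continuousWithinAt
  rcases hcr.strictMonoOn_of_injOn_Ioo (by linarith) (hinj r).injOn with hm | hm
  · exact hm
  exfalso
  have h1 : Q r (δ/2) < Q r 0 := hm ⟨by linarith, by linarith⟩ ⟨by linarith, by linarith⟩ (by linarith)
  rw [h0] at h1
  have hφ : ContinuousOn (fun x => Q x (δ/2) - x) (uIcc 0 r) := by
    intro x hx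
    have hx' : |x| < δ := by
      have h2 := abs_lt.1 hr
      rw [abs_lt]
      rcases le_total 0 r with h3 | h3
      · rw [uIcc_of_le h3] at hx
        exact ⟨by linarith [hx.1], by linarith [hx.2]⟩
      · rw [uIcc_of_ge h3] at hx
        exact ⟨by linarith [hx.1], by linarith [hx.2]⟩
    have h3 := hc x (δ/2) hx' (by rw [abs_of_pos (by linarith)]; linarith)
    have h4 : ContinuousAt (fun x : ℝ => ((x, δ/2) : ℝ × ℝ)) x := by fun_prop
    exact ((ContinuousAt.comp (f := fun x : ℝ => ((x, δ/2) : ℝ × ℝ)) h3 h4).sub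
      continuousAt_id).continuousWithinAt
  have h5 := intermediate_value_uIcc hφ
  have h6 : (0:ℝ) ∈ uIcc (Q 0 (δ/2) - 0) (Q r (δ/2) - r) := by
    rw [mem_uIcc, h0']
    right
    constructor <;> linarith
  obtain ⟨x, _, hx⟩ := h5 h6
  have hx' : Q x (δ/2) - x = 0 := hx
  have : Q x (δ/2) = Q x 0 := by rw [h0]; linarith
  have := hinj x this
  linarith

/-- small neighbourhoods -/
lemma small_aux {δ : ℝ} (P : ℝ → ℝ → ℝ) (h0 : P 0 0 = 0)
    (hc : ContinuousAt (fun p : ℝ × ℝ => P p.1 p.2) (0, 0)) (hδ : 0 < δ) :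
    ∃ σ, 0 < σ ∧ σ ≤ δ ∧ ∀ a b, |a| < σ → |b| < σ → |P a b| < δ := by
  have h1 : ∀ᶠ p in 𝓝 ((0, 0) : ℝ × ℝ), |P p.1 p.2| < δ := by
    have h2 : Tendsto (fun p : ℝ × ℝ => |P p.1 p.2|) (𝓝 (0, 0)) (𝓝 |P 0 0|) := hc.abs
    rw [h0, abs_zero] at h2
    exact h2.eventually (Iio_mem_nhds hδ)
  rw [Metric.eventually_nhds_iff] at h1
  obtain ⟨ρ, hρ, h1⟩ := h1
  refine ⟨min ρ δ, lt_min hρ hδ, min_le_right _ _, fun a b ha hb => ?_⟩
  apply @h1 (a, b)
  rw [Prod.dist_eq, max_lt_iff]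
  exact ⟨by simpa [Real.dist_eq] using lt_of_lt_of_le ha (min_le_left _ _),
    by simpa [Real.dist_eq] using lt_of_lt_of_le hb (min_le_left _ _)⟩

/-- Step 3: Hölder's argument. -/
lemma local_comm (Φ : G ≃ ℝ) (hΦ1 : Φ 1 = 0) {δ : ℝ} (hδ : 0 < δ)
    (hc : ∀ r r', |r| < δ → |r'| < δ →
      ContinuousAt (fun p : ℝ × ℝ => Φ (Φ.symm p.1 * Φ.symm p.2)) (r, r')) :
    ∃ η, 0 < η ∧ ∀ a b, 0 < a → a < η → 0 < b → b < η →
      Φ.symm a * Φ.symm b = Φ.symm b * Φ.symm a := by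
  have hs0 : Φ.symm 0 = 1 := by rw [← hΦ1, Equiv.symm_apply_apply]
  obtain ⟨P, hP⟩ : ∃ P : ℝ → ℝ → ℝ, ∀ a b, P a b = Φ (Φ.symm a * Φ.symm b) := ⟨_, fun _ _ => rfl⟩
  have hPs : ∀ a b, Φ.symm (P a b) = Φ.symm a * Φ.symm b := by
    intro a b; rw [hP, Equiv.symm_apply_apply]
  have hPr : ∀ a, P a 0 = a := by intro a; rw [hP, hs0, mul_one, Equiv.apply_symm_apply]
  have hPl : ∀ a, P 0 a = a := by intro a; rw [hP, hs0, one_mul, Equiv.apply_symm_apply]
  have hinjr : ∀ a, Function.Injective (P a) := by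
    intro a b c hbc
    rw [hP, hP] at hbc
    exact Φ.symm.injective (mul_left_cancel (Φ.injective hbc))
  have hinjl : ∀ a, Function.Injective (fun b => P b a) := by
    intro a b c hbc
    have hbc' : P b a = P c a := hbc
    rw [hP, hP] at hbc'
    exact Φ.symm.injective (mul_right_cancel (Φ.injective hbc'))
  have hcP : ∀ r r', |r| < δ → |r'| < δ → ContinuousAt (fun p : ℝ × ℝ => P p.1 p.2) (r, r') := by
    intro r r' hr hr'
    have h1 : (fun p : ℝ × ℝ => P p.1 p.2) = fun p : ℝ × ℝ => Φ (Φ.symm p.1 * Φ.symm p.2) := by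
      funext p; rw [hP]
    rw [h1]; exact hc r r' hr hr'
  have hcP' : ∀ r r', |r| < δ → |r'| < δ → ContinuousAt (fun p : ℝ × ℝ => P p.2 p.1) (r, r') := by
    intro r r' hr hr'
    have h1 := hcP r' r hr' hr
    have h2 : ContinuousAt (fun p : ℝ × ℝ => ((p.2, p.1) : ℝ × ℝ)) (r, r') := by fun_prop
    exact ContinuousAt.comp (f := fun p : ℝ × ℝ => ((p.2, p.1) : ℝ × ℝ)) h1 h2
  have hmr := mono_aux P hPr hPl hinjr hcP
  have hml := mono_aux (fun a b => P b a) hPl hPr hinjl hcP'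
  -- convenient forms
  have mr : ∀ {r x y : ℝ}, |r| < δ → |x| < δ → |y| < δ → x < y → P r x < P r y :=
    fun hr hx hy hxy => hmr _ hr (abs_lt.1 hx) (abs_lt.1 hy) hxy
  have ml : ∀ {r x y : ℝ}, |r| < δ → |x| < δ → |y| < δ → x < y → P x r < P y r :=
    fun hr hx hy hxy => hml _ hr (abs_lt.1 hx) (abs_lt.1 hy) hxy
  have mr' : ∀ {r x y : ℝ}, |r| < δ → |x| < δ → |y| < δ → x ≤ y → P r x ≤ P r y := by
    intro r x y hr hx hy hxy
    rcases hxy.lt_or_eq with h | h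
    · exact (mr hr hx hy h).le
    · rw [h]
  have ml' : ∀ {r x y : ℝ}, |r| < δ → |x| < δ → |y| < δ → x ≤ y → P x r ≤ P y r := by
    intro r x y hr hx hy hxy
    rcases hxy.lt_or_eq with h | h
    · exact (ml hr hx hy h).le
    · rw [h]
  have h00 : P 0 0 = 0 := hPr 0
  have habs0 : |(0:ℝ)| < δ := by rw [abs_zero]; exact hδ
  obtain ⟨δ₁, hδ₁, hδ₁', hs1⟩ := small_aux P h00 (hcP 0 0 habs0 habs0) hδ
  obtain ⟨δ₂, hδ₂, hδ₂', hs2⟩ := small_aux P h00 (hcP 0 0 habs0 habs0) hδ₁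
  obtain ⟨η, hη, hη', hs3⟩ := small_aux P h00 (hcP 0 0 habs0 habs0) hδ₂
  -- powers of a small positive element
  have arch : ∀ c a, 0 < c → c < η → 0 < a → a < η → ∃ k : ℕ, 0 ≤ Φ (Φ.symm c ^ k) ∧
      Φ (Φ.symm c ^ k) ≤ a ∧ a < Φ (Φ.symm c ^ (k + 1)) := by
    intro c a hc0 hcη ha0 haη
    obtain ⟨pw, hpw⟩ : ∃ pw : ℕ → ℝ, ∀ n, pw n = Φ (Φ.symm c ^ n) := ⟨_, fun _ => rfl⟩
    have hpw0 : pw 0 = 0 := by rw [hpw, pow_zero, hΦ1]
    have hpws : ∀ n, pw (n + 1) = P (pw n) c := by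
      intro n
      rw [hP, hpw, hpw, Equiv.symm_apply_apply, pow_succ]
    have hcδ : |c| < δ := by rw [abs_of_pos hc0]; linarith
    have hnn : ∀ n, (∀ j, j < n → pw j ≤ a) → 0 ≤ pw n := by
      intro n
      induction n with
      | zero => intro _; rw [hpw0]
      | succ n ih =>
        intro hj
        have h1 : 0 ≤ pw n := ih fun j hjn => hj j (by omega)
        have h2 : pw n ≤ a := hj n (by omega)
        have h3 : |pw n| < δ := by rw [abs_of_nonneg h1]; linarith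
        have h4 := mr h3 habs0 hcδ hc0
        rw [hPr] at h4
        rw [hpws]; linarith
    have hex : ∃ n, a < pw n := by
      by_contra hcon
      push Not at hcon
      have h1 : ∀ n, 0 ≤ pw n := fun n => hnn n fun j _ => hcon j
      have h2 : ∀ n, |pw n| < δ := fun n => by rw [abs_of_nonneg (h1 n)]; linarith [hcon n]
      have h3 : Monotone pw := by
        refine monotone_nat_of_le_succ fun n => ?_
        have h4 := mr (h2 n) habs0 hcδ hc0
        rw [hPr] at h4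
        rw [hpws]; exact h4.le
      have hbdd : BddAbove (range pw) := ⟨a, by rintro _ ⟨n, rfl⟩; exact hcon n⟩
      have h5 := tendsto_atTop_ciSup h3 hbdd
      obtain ⟨L, hL⟩ : ∃ L, L = ⨆ i, pw i := ⟨_, rfl⟩
      rw [← hL] at h5
      have hL0 : 0 ≤ L := ge_of_tendsto' h5 h1
      have hLa : L ≤ a := le_of_tendsto' h5 hcon
      have hLδ : |L| < δ := by rw [abs_of_nonneg hL0]; linarith
      have h6 : Tendsto (fun n => P (pw n) c) atTop (𝓝 (P L c)) := by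
        have h7 := hcP L c hLδ hcδ
        have h8 : Tendsto (fun n => ((pw n, c) : ℝ × ℝ)) atTop (𝓝 (L, c)) :=
          h5.prodMk_nhds tendsto_const_nhds
        exact h7.tendsto.comp h8
      have h9 : Tendsto (fun n => pw (n + 1)) atTop (𝓝 L) := (tendsto_add_atTop_iff_nat 1).2 h5
      have h10 : (fun n => P (pw n) c) = fun n => pw (n + 1) := by
        funext n; rw [hpws]
      rw [h10] at h6
      have h11 : P L c = L := tendsto_nhds_unique h6 h9
      have h12 := mr hLδ habs0 hcδ hc0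
      rw [hPr, h11] at h12
      exact lt_irrefl _ h12
    classical
    have hfind := Nat.find_spec hex
    have hmin : ∀ j, j < Nat.find hex → pw j ≤ a := fun j hj => not_lt.1 (Nat.find_min hex hj)
    have hpos : 0 < Nat.find hex := by
      rcases Nat.eq_zero_or_pos (Nat.find hex) with h | h
      · exfalso
        rw [h, hpw0] at hfind
        linarith
      · exact h
    obtain ⟨k, hk⟩ : ∃ k, Nat.find hex = k + 1 := ⟨Nat.find hex - 1, by omega⟩
    rw [hk] at hfind hmin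
    refine ⟨k, ?_, ?_, ?_⟩
    · rw [← hpw]; exact hnn k fun j hj => hmin j (by omega)
    · rw [← hpw]; exact hmin k (by omega)
    · rw [← hpw]; exact hfind
  have main : ∀ a b, 0 < a → a < η → 0 < b → b < η → ¬ (P b a < P a b) := by
    intro a b ha0 haη hb0 hbη hlt
    have haa : |a| < η := by rw [abs_of_pos ha0]; exact haη
    have hbb : |b| < η := by rw [abs_of_pos hb0]; exact hbη
    have hba : |P b a| < δ₂ := hs3 b a hbb haa
    -- choose c
    have hcont : Tendsto (fun c => P (P (P b a) c) c) (𝓝 0) (𝓝 (P b a)) := by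
      have h1 : Tendsto (fun c => P (P b a) c) (𝓝 0) (𝓝 (P b a)) := by
        have h2 := hcP (P b a) 0 (by linarith) habs0
        have h3 : ContinuousAt (fun c : ℝ => ((P b a, c) : ℝ × ℝ)) 0 := by fun_prop
        have h4 := ContinuousAt.comp (f := fun c : ℝ => ((P b a, c) : ℝ × ℝ)) h2 h3
        have h5 : Tendsto (fun c => P (P b a) c) (𝓝 0) (𝓝 (P (P b a) 0)) := h4
        rwa [hPr] at h5
      have h6 : Tendsto (fun c => ((P (P b a) c, c) : ℝ × ℝ)) (𝓝 0) (𝓝 (P b a, 0)) :=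
        h1.prodMk_nhds tendsto_id
      have h7 := (hcP (P b a) 0 (by linarith) habs0).tendsto.comp h6
      have h8 : Tendsto (fun c => P (P (P b a) c) c) (𝓝 0) (𝓝 (P (P b a) 0)) := h7
      rwa [hPr] at h8
    have hev := hcont.eventually (Iio_mem_nhds hlt)
    rw [Metric.eventually_nhds_iff] at hev
    obtain ⟨ρ, hρ, hev⟩ := hev
    obtain ⟨c, hc0, hcρ, hcη⟩ : ∃ c, 0 < c ∧ c < ρ ∧ c < η := by
      refine ⟨min ρ η / 2, by have := lt_min hρ hη; linarith, ?_, ?_⟩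
      · have := min_le_left ρ η; have := lt_min hρ hη; linarith
      · have := min_le_right ρ η; have := lt_min hρ hη; linarith
    have hc1 : P (P (P b a) c) c < P a b := by
      apply hev
      rw [Real.dist_eq, sub_zero, abs_of_pos hc0]; exact hcρ
    have hcc : |c| < η := by rw [abs_of_pos hc0]; exact hcη
    obtain ⟨k, hk0, hka, hka'⟩ := arch c a hc0 hcη ha0 haη
    obtain ⟨l, hl0, hlb, hlb'⟩ := arch c b hc0 hcη hb0 hbη
    obtain ⟨pw, hpw⟩ : ∃ pw : ℕ → ℝ, ∀ n, pw n = Φ (Φ.symm c ^ n) := ⟨_, fun _ => rfl⟩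
    rw [← hpw] at hk0 hka hka' hl0 hlb hlb'
    have hpadd : ∀ m n, P (pw m) (pw n) = pw (m + n) := by
      intro m n
      rw [hP, hpw, hpw, hpw, Equiv.symm_apply_apply, Equiv.symm_apply_apply, pow_add]
    have hps : ∀ n, P (pw n) c = pw (n + 1) := by
      intro n
      rw [hP, hpw, hpw, Equiv.symm_apply_apply, pow_succ]
    have hkabs : |pw k| < η := by rw [abs_of_nonneg hk0]; linarith
    have hlabs : |pw l| < η := by rw [abs_of_nonneg hl0]; linarith
    have hk1 : |pw (k + 1)| < δ₂ := by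
      rw [← hps]; exact hs3 _ _ hkabs hcc
    have hl1 : |pw (l + 1)| < δ₂ := by
      rw [← hps]; exact hs3 _ _ hlabs hcc
    have h1 : P a b < P a (pw (l + 1)) :=
      mr (by linarith) (by linarith) (by linarith) hlb'
    have h2 : P a (pw (l + 1)) < P (pw (k + 1)) (pw (l + 1)) :=
      ml (by linarith) (by linarith) (by linarith) hka'
    have h3 : P (pw l) (pw k) ≤ P b (pw k) :=
      ml' (by linarith) (by linarith) (by linarith) hlb
    have h4 : P b (pw k) ≤ P b a :=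
      mr' (by linarith) (by linarith) (by linarith) hka
    have h5 : |P (pw l) (pw k)| < δ₂ := hs3 _ _ hlabs hkabs
    have h6 : P (P (pw l) (pw k)) c ≤ P (P b a) c :=
      ml' (by linarith) (by linarith) (by linarith) (by linarith)
    have h7 : |P (P (pw l) (pw k)) c| < δ₁ := hs2 _ _ h5 (by linarith)
    have h8 : |P (P b a) c| < δ₁ := hs2 _ _ hba (by linarith)
    have h9 : P (P (P (pw l) (pw k)) c) c ≤ P (P (P b a) c) c :=
      ml' (by linarith) (by linarith) (by linarith) h6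
    rw [hpadd, hps, hps] at h9
    rw [hpadd] at h2
    have h10 : l + k + 1 + 1 = k + 1 + (l + 1) := by ring
    rw [h10] at h9
    linarith
  refine ⟨η, hη, fun a b ha0 haη hb0 hbη => ?_⟩
  have h1 := main a b ha0 haη hb0 hbη
  have h2 := main b a hb0 hbη ha0 haη
  have h3 : P a b = P b a := le_antisymm (not_lt.1 h1) (not_lt.1 h2)
  rw [hP, hP] at h3
  exact Φ.injective h3

/-- A commutative free group is countable. -/
lemma countable_of_free_comm (H : Type*) [Group H] [IsFreeGroup H]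
    (hcomm : ∀ a b : H, a * b = b * a) : Countable H := by
  classical
  have hX : Subsingleton (IsFreeGroup.Generators H) := by
    constructor
    intro x y
    by_contra hxy
    let f : IsFreeGroup.Generators H → Equiv.Perm (Fin 3) :=
      fun z => if z = x then Equiv.swap 0 1 else Equiv.swap 1 2
    let φ : H →* Equiv.Perm (Fin 3) :=
      (FreeGroup.lift f).comp (IsFreeGroup.toFreeGroup H).toMonoidHom
    have h1 := hcomm ((IsFreeGroup.toFreeGroup H).symm (FreeGroup.of x))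
      ((IsFreeGroup.toFreeGroup H).symm (FreeGroup.of y))
    have h2 := congrArg φ h1
    have h3 : Equiv.swap (0 : Fin 3) 1 * Equiv.swap 1 2 = Equiv.swap 1 2 * Equiv.swap 0 1 := by
      have hy : ¬ (y = x) := fun h => hxy h.symm
      simpa [φ, f, hy] using h2
    revert h3
    decide
  have hc : Countable (FreeGroup (IsFreeGroup.Generators H)) := by
    unfold FreeGroup
    infer_instance
  exact (IsFreeGroup.toFreeGroup H).toEquiv.countable_iff.2 hc

/-- Main theorem: a group on the reals with an F_sigma multiplication graph has a non-free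
subgroup generated by a set of size aleph_1. -/
theorem not_free_of_FSigma {G : Type} [Group G] (e : G ≃ ℝ) {F : ℕ → Set (ℝ × ℝ × ℝ)} (hF : ∀ n, IsClosed (F n))
    (hU : {p : ℝ × ℝ × ℝ | e.symm p.1 * e.symm p.2.1 = e.symm p.2.2} = ⋃ n, F n) :
    ∃ S : Set G, Cardinal.mk S = Cardinal.aleph 1 ∧
      ¬ IsFreeGroup (Subgroup.closure S) := by
  classical
  have hU' : {p : ℝ × ℝ × ℝ | (fun a b => e (e.symm a * e.symm b)) p.1 p.2.1 = p.2.2} =
      ⋃ n, F n := by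
    rw [← hU]
    ext p
    show e (e.symm p.1 * e.symm p.2.1) = p.2.2 ↔ e.symm p.1 * e.symm p.2.1 = e.symm p.2.2
    constructor
    · intro h; rw [← h, Equiv.symm_apply_apply]
    · intro h; rw [h, Equiv.apply_symm_apply]
  obtain ⟨x₀, y₀, ε, hε, hbox⟩ := exists_box (m := fun a b => e (e.symm a * e.symm b)) hF hU'
  obtain ⟨Φ, hΦ1, δ, hδ, hc⟩ := exists_coord e hε hbox
  obtain ⟨η, hη, hcomm⟩ := local_comm Φ hΦ1 hδ hc
  have hmk : Cardinal.aleph 1 ≤ Cardinal.mk (Ioo (0:ℝ) η) := by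
    rw [Cardinal.mk_Ioo_real hη]
    exact Cardinal.aleph_one_le_continuum
  obtain ⟨T, hT, hTc⟩ := Cardinal.le_mk_iff_exists_subset.1 hmk
  refine ⟨Φ.symm '' T, ?_, ?_⟩
  · rw [← hTc]
    exact Cardinal.mk_image_eq Φ.symm.injective
  · intro hfree
    have hcomm' : ∀ x ∈ Φ.symm '' T, ∀ y ∈ Φ.symm '' T, x * y = y * x := by
      rintro _ ⟨a, ha, rfl⟩ _ ⟨b, hb, rfl⟩
      exact hcomm a b (hT ha).1 (hT ha).2 (hT hb).1 (hT hb).2
    have hcl := Subgroup.isMulCommutative_closure hcomm'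
    have hcount : Countable (Subgroup.closure (Φ.symm '' T)) :=
      countable_of_free_comm _ fun a b => hcl.is_comm.comm a b
    have hTcount : Countable T := by
      have hinj : Function.Injective (fun t : T =>
          (⟨Φ.symm t, Subgroup.subset_closure ⟨t, t.2, rfl⟩⟩ :
            Subgroup.closure (Φ.symm '' T))) := by
        intro s t hst
        have h1 : Φ.symm (s : ℝ) = Φ.symm t := congrArg Subtype.val hst
        exact Subtype.ext (Φ.symm.injective h1)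
      exact hinj.countable
    have h1 : Cardinal.mk T ≤ Cardinal.aleph0 := Cardinal.mk_le_aleph0_iff.2 hTcount
    rw [hTc] at h1
    exact absurd h1 (not_le.2 Cardinal.aleph0_lt_aleph_one)

end Pool.Agent.H647R2.FSigma
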