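import Mathlib

/-!
# Pseudotypes over `Q = Φ(M*)` and tau-stability (Newelski)

Everything below is stated over one fixed countable model `M` (the `M*` of the problem) instead of
a monster model `𝔠 ≽ M`.  The dictionary is the usual one:

* a complete `n`-type over `Q ⊆ M` is a complete set of `L(Q)`-formulas in `n` variables which is
  finitely satisfiable in `M`;
* `f ∈ Aut(𝔠)` with `f[Q] = Q` acts on `S(Q)` only through `f ↾ Q`, and (strong homogeneity of
  `𝔠`) the maps `f ↾ Q` are exactly the elementary permutations of `Q`;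
* (saturation of `𝔠`) a type over `Q` is realized in some countable `N ≺ 𝔠` with `Φ(N) = Q` iff it
  is realized in some countable model `N`, containing `Q` elementarily, with `Φ(N) = Q`.
-/

set_option autoImplicit false

namespace Pool.Agent.H647R2.Tau

open FirstOrder FirstOrder.Language

section
variable {L : FirstOrder.Language.{0, 0}}

/-- The countable models of `T` (with universe in `Type`). -/
def CountableModel (T : L.Theory) : Type 1 :=
  {M : Theory.ModelType.{0, 0, 0} T // Countable M}

/-- Isomorphism of countable models. -/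
def isoSetoid (T : L.Theory) : Setoid (CountableModel T) where
  r M N := Nonempty (M.1 ≃[L] N.1)
  iseqv :=
    { refl := fun M => ⟨FirstOrder.Language.Equiv.refl L M.1⟩
      symm := fun ⟨f⟩ => ⟨f.symm⟩
      trans := fun ⟨f⟩ ⟨g⟩ => ⟨g.comp f⟩ }

/-- `I(T, ℵ₀)`: the number of countable models of `T` up to isomorphism. -/
noncomputable def numCountableModels (T : L.Theory) : Cardinal.{1} :=
  Cardinal.mk (Quotient (isoSetoid T))

/-- A countable disjunction `Φ = ⋁ᵢ Φ i` of partial types over `∅`; `solutionSet Φ M` is `Φ(M)`. -/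
def solutionSet (Φ : ℕ → Set (L.Formula (Fin 1))) (M : Type) [L.Structure M] : Set M :=
  {x | ∃ i, ∀ φ ∈ Φ i, φ.Realize (fun _ => x)}

variable {M : Type} [L.Structure M] {Q : Set M} {n : ℕ}

/-- Complete `n`-types over `Q`: the points of `S(Q)` in `n` variables. -/
@[ext]
structure TypeOver (L : FirstOrder.Language.{0, 0}) {M : Type} [L.Structure M] (Q : Set M) (n : ℕ) where
  /-- The formulas in the type; the parameters from `Q` are the variables `Sum.inl q`. -/
  formulas : Set (L.Formula (Q ⊕ Fin n))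
  complete : ∀ φ : L.Formula (Q ⊕ Fin n), φ ∈ formulas ∨ φ.not ∈ formulas
  finSat : ∀ s : Finset (L.Formula (Q ⊕ Fin n)), (∀ φ ∈ s, φ ∈ formulas) →
    ∃ v : Fin n → M, ∀ φ ∈ s, φ.Realize (Sum.elim (fun q => (q : M)) v)

/-- The Stone topology. -/
instance : TopologicalSpace (TypeOver L Q n) :=
  TopologicalSpace.generateFrom {U | ∃ φ, U = {p : TypeOver L Q n | φ ∈ p.formulas}}

/-- Elementary permutations of `Q`, that is, restrictions to `Q` of the `f ∈ Aut(𝔠)` with
`f[Q] = Q`. -/
def IsElementaryPerm (L : FirstOrder.Language.{0, 0}) {M : Type} [L.Structure M] {Q : Set M}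
    (σ : Equiv.Perm Q) : Prop :=
  ∀ φ : L.Formula Q, φ.Realize (fun q => (q : M)) ↔ φ.Realize (fun q => (σ q : M))

/-- `σ(p) = q`. -/
def Moves (σ : Equiv.Perm Q) (p q : TypeOver L Q n) : Prop :=
  ∀ φ : L.Formula (Q ⊕ Fin n), φ ∈ p.formulas ↔ φ.relabel (Sum.map σ id) ∈ q.formulas

/-- The class `p/∼ₐ`: the types `f(p)`, where `f ∈ Aut(𝔠)`, `f[Q] = Q` and `f` fixes `a`
pointwise. -/
def pseudoClass (a : Set Q) (p : TypeOver L Q n) : Set (TypeOver L Q n) :=
  {q | ∃ σ : Equiv.Perm Q, IsElementaryPerm L σ ∧ (∀ x ∈ a, σ x = x) ∧ Moves σ p q}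

/-- `p` is tau-stable: for some finite `a ⊆ Q`, the class `p/∼ₐ` is comeager in its closure. -/
def TauStable (p : TypeOver L Q n) : Prop :=
  ∃ a : Set Q, a.Finite ∧
    (Subtype.val ⁻¹' pseudoClass a p : Set (closure (pseudoClass a p))) ∈
      residual (closure (pseudoClass a p))

/-- `p ∈ S(Q)`, `Q = Φ(M)`, is good: it is realized in some `N ∈ K_Q`, that is, in some countable
`N` containing `Q` elementarily with `Φ(N) = Q`. -/
def Good (Φ : ℕ → Set (L.Formula (Fin 1))) {M : Type} [L.Structure M]
    (p : TypeOver L (solutionSet Φ M) n) : Prop :=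
  ∃ (N : Type) (_ : L.Structure N) (i : solutionSet Φ M → N) (b : Fin n → N), Countable N ∧
    (∀ φ : L.Formula (solutionSet Φ M), φ.Realize (fun q => (q : M)) ↔ φ.Realize i) ∧
    solutionSet Φ N = Set.range i ∧
    ∀ φ : L.Formula (solutionSet Φ M ⊕ Fin n), φ ∈ p.formulas ↔ φ.Realize (Sum.elim i b)

end

end Pool.Agent.H647R2.Tau
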