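import Pool.Agent.H647R2.BaF
import Pool.Agent.H647R2.TauDefs

set_option autoImplicit false

namespace Pool.Agent.H647R2.Tau

open FirstOrder FirstOrder.Language

/-- Relation symbols: two unary sort predicates, unary predicates naming single elements, and one
ternary relation. -/
inductive Rel : ℕ → Type
  | isB : Rel 1
  | isQ : Rel 1
  | cst : ℕ → Rel 1
  | hh : Rel 3

/-- The relational language with symbols `Rel`. -/
def L0 : FirstOrder.Language.{0, 0} := ⟨fun _ => Empty, Rel⟩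

instance : Countable L0.Symbols := by
  have h1 : ∀ n, Countable (Rel n) := by
    intro n
    have : Function.Injective (fun r : Rel n => (match n, r with
      | _, Rel.isB => 0
      | _, Rel.isQ => 1
      | _, Rel.hh => 2
      | _, Rel.cst k => k + 3 : ℕ)) := by
      intro r s hrs
      cases r <;> cases s <;> simp_all
    exact this.countable
  have h2 : ∀ n, Countable (L0.Relations n) := h1
  have h3 : ∀ n, Countable (L0.Functions n) := fun n => (inferInstance : Countable Empty)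
  unfold FirstOrder.Language.Symbols
  infer_instance

/-- The structure attached to a function `h : B → Q → D` and a sequence `c` in `D`. -/
inductive Mdl {B Q D : Type} (h : B → Q → D) (c : ℕ → D) : Type
  | mb : B → Mdl h c
  | mq : Q → Mdl h c
  | md : D → Mdl h c

section
variable {B Q D : Type} {h : B → Q → D} {c : ℕ → D}

instance : L0.Structure (Mdl h c) where
  funMap := fun {_} f _ => Empty.elim f
  RelMap := fun {n} (r : Rel n) => match n, r with
    | _, Rel.isB => fun xs => ∃ b : B, xs 0 = Mdl.mb b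
    | _, Rel.isQ => fun xs => ∃ x : Q, xs 0 = Mdl.mq x
    | _, Rel.cst k => fun xs => xs 0 = Mdl.md (c k)
    | _, Rel.hh => fun xs => ∃ (b : B) (x : Q), xs 0 = Mdl.mb b ∧ xs 1 = Mdl.mq x ∧
        xs 2 = Mdl.md (h b x)

end

section
variable {N : Type} [L0.Structure N]

def isB (x : N) : Prop := Structure.RelMap (L := L0) (Rel.isB : Rel 1) ![x]
def isQ (x : N) : Prop := Structure.RelMap (L := L0) (Rel.isQ : Rel 1) ![x]
def isC (k : ℕ) (x : N) : Prop := Structure.RelMap (L := L0) (Rel.cst k : Rel 1) ![x]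
def isH (x y z : N) : Prop := Structure.RelMap (L := L0) (Rel.hh : Rel 3) ![x, y, z]

variable {α : Type}

def fB (x : α) : L0.Formula α := Relations.formula (L := L0) (Rel.isB : Rel 1) ![Term.var x]
def fQ (x : α) : L0.Formula α := Relations.formula (L := L0) (Rel.isQ : Rel 1) ![Term.var x]
def fC (k : ℕ) (x : α) : L0.Formula α := Relations.formula (L := L0) (Rel.cst k : Rel 1) ![Term.var x]
def fH (x y z : α) : L0.Formula α :=
  Relations.formula (L := L0) (Rel.hh : Rel 3) ![Term.var x, Term.var y, Term.var z]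
def fE (x y : α) : L0.Formula α := Term.equal (Term.var x) (Term.var y)

@[simp] lemma realize_fB (x : α) (v : α → N) : (fB x).Realize v ↔ isB (v x) := by
  unfold fB isB
  rw [Formula.realize_rel]
  apply iff_of_eq; congr 1; funext i; fin_cases i; rfl
@[simp] lemma realize_fQ (x : α) (v : α → N) : (fQ x).Realize v ↔ isQ (v x) := by
  unfold fQ isQ
  rw [Formula.realize_rel]
  apply iff_of_eq; congr 1; funext i; fin_cases i; rfl
@[simp] lemma realize_fC (k : ℕ) (x : α) (v : α → N) : (fC k x).Realize v ↔ isC k (v x) := by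
  unfold fC isC
  rw [Formula.realize_rel]
  apply iff_of_eq; congr 1; funext i; fin_cases i; rfl
@[simp] lemma realize_fH (x y z : α) (v : α → N) :
    (fH x y z).Realize v ↔ isH (v x) (v y) (v z) := by
  unfold fH isH
  rw [Formula.realize_rel]
  apply iff_of_eq; congr 1; funext i; fin_cases i <;> rfl
@[simp] lemma realize_fE (x y : α) (v : α → N) : (fE x y).Realize v ↔ v x = v y := by
  unfold fE
  rw [Formula.realize_equal]; rfl

/-- first-order facts -/
structure Ax (N : Type) [L0.Structure N] : Prop where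
  a1 : ∀ x : N, ¬ (isB x ∧ isQ x)
  a2 : ∀ k, ∃ x : N, isC k x
  a3 : ∀ k (x y : N), isC k x → isC k y → x = y
  a4 : ∀ k (x : N), isC k x → ¬ isB x ∧ ¬ isQ x
  a5 : ∀ k l (x : N), k ≠ l → ¬ (isC k x ∧ isC l x)
  a6 : ∀ x y z : N, isH x y z → isB x ∧ isQ y ∧ ¬ isB z ∧ ¬ isQ z
  a7 : ∀ x y : N, isB x → isQ y → ∃ z, isH x y z
  a8 : ∀ x y z z' : N, isH x y z → isH x y z' → z = z'
  a9 : ∀ k l (b : Fin k → N) (d : Fin k → N) (x : Fin l → N), (∀ i, isB (b i)) →
    (∀ i, ¬ isB (d i) ∧ ¬ isQ (d i)) → (∀ i j, i ≠ j → b i ≠ b j) →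
    ∃ y, isQ y ∧ (∀ j, y ≠ x j) ∧ ∀ i, isH (b i) y (d i)
  a10 : ∀ k l (b : Fin k → N) (d : Fin k → N) (x : Fin l → N), (∀ i, isQ (b i)) →
    (∀ i, ¬ isB (d i) ∧ ¬ isQ (d i)) → (∀ i j, i ≠ j → b i ≠ b j) →
    ∃ y, isB y ∧ (∀ j, y ≠ x j) ∧ ∀ i, isH y (b i) (d i)

end

/-- transfer -/
lemma transfer {M N : Type} [L0.Structure M] [L0.Structure N]
    (hMN : ∀ φ : L0.Sentence, M ⊨ φ ↔ N ⊨ φ) (P : ∀ (K : Type) [L0.Structure K], Prop)
    (φ : L0.Sentence) (hφ : ∀ (K : Type) [L0.Structure K], K ⊨ φ ↔ P K) : P M → P N := by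
  intro h
  rw [← hφ]
  rw [← hφ] at h
  exact (hMN φ).1 h

lemma sentence_iff (K : Type) [L0.Structure K] (φ : L0.Sentence) :
    K ⊨ φ ↔ Formula.Realize φ (default : Empty → K) := Iff.rfl

theorem Ax.transfer {M N : Type} [L0.Structure M] [L0.Structure N]
    (hMN : ∀ φ : L0.Sentence, M ⊨ φ ↔ N ⊨ φ) (hM : Ax M) : Ax N := by
  refine ⟨?_, fun k => ?_, fun k => ?_, fun k => ?_, fun k l => ?_, ?_, ?_, ?_, fun k l => ?_,
    fun k l => ?_⟩
  · refine Tau.transfer hMN (fun K _ => ∀ x : K, ¬ (isB x ∧ isQ x))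
      (Formula.iAlls (Fin 1) (((fB (Sum.inr 0)) ⊓ (fQ (Sum.inr 0))).not)) ?_ hM.a1
    intro K _
    rw [sentence_iff]
    simp only [Formula.realize_iAlls, Formula.realize_not, Formula.realize_inf, realize_fB,
      realize_fQ, Sum.elim_inr]
    exact ⟨fun h x => h (fun _ => x), fun h i => h _⟩
  · refine Tau.transfer hMN (fun K _ => ∃ x : K, isC k x)
      (Formula.iExs (Fin 1) (fC k (Sum.inr 0))) ?_ (hM.a2 k)
    intro K _
    rw [sentence_iff]
    simp only [Formula.realize_iExs, realize_fC, Sum.elim_inr]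
    exact ⟨fun ⟨i, h⟩ => ⟨_, h⟩, fun ⟨x, h⟩ => ⟨fun _ => x, h⟩⟩
  · refine Tau.transfer hMN (fun K _ => ∀ x y : K, isC k x → isC k y → x = y)
      (Formula.iAlls (Fin 2) ((fC k (Sum.inr 0)).imp ((fC k (Sum.inr 1)).imp
        (fE (Sum.inr 0) (Sum.inr 1))))) ?_ (hM.a3 k)
    intro K _
    rw [sentence_iff]
    simp only [Formula.realize_iAlls, Formula.realize_imp, realize_fC, realize_fE, Sum.elim_inr]
    exact ⟨fun h x y => h ![x, y], fun h i => h _ _⟩
  · refine Tau.transfer hMN (fun K _ => ∀ x : K, isC k x → ¬ isB x ∧ ¬ isQ x)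
      (Formula.iAlls (Fin 1) ((fC k (Sum.inr 0)).imp ((fB (Sum.inr 0)).not ⊓ (fQ (Sum.inr 0)).not)))
      ?_ (hM.a4 k)
    intro K _
    rw [sentence_iff]
    simp only [Formula.realize_iAlls, Formula.realize_imp, Formula.realize_not, Formula.realize_inf,
      realize_fB, realize_fC, realize_fQ, Sum.elim_inr]
    exact ⟨fun h x => h (fun _ => x), fun h i => h _⟩
  · by_cases hkl : k = l
    · intro x h; exact absurd hkl h
    refine Tau.transfer hMN (fun K _ => ∀ x : K, k ≠ l → ¬ (isC k x ∧ isC l x))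
      (Formula.iAlls (Fin 1) (((fC k (Sum.inr 0)) ⊓ (fC l (Sum.inr 0))).not)) ?_ (hM.a5 k l)
    intro K _
    rw [sentence_iff]
    simp only [Formula.realize_iAlls, Formula.realize_not, Formula.realize_inf, realize_fC,
      Sum.elim_inr]
    exact ⟨fun h x _ => h (fun _ => x), fun h i => h _ hkl⟩
  · refine Tau.transfer hMN (fun K _ => ∀ x y z : K, isH x y z → isB x ∧ isQ y ∧ ¬ isB z ∧ ¬ isQ z)
      (Formula.iAlls (Fin 3) ((fH (Sum.inr 0) (Sum.inr 1) (Sum.inr 2)).imp
        ((fB (Sum.inr 0)) ⊓ ((fQ (Sum.inr 1)) ⊓ ((fB (Sum.inr 2)).not ⊓ (fQ (Sum.inr 2)).not)))))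
      ?_ hM.a6
    intro K _
    rw [sentence_iff]
    simp only [Formula.realize_iAlls, Formula.realize_imp, Formula.realize_not, Formula.realize_inf,
      realize_fB, realize_fH, realize_fQ, Sum.elim_inr]
    exact ⟨fun h x y z => h ![x, y, z], fun h i => h _ _ _⟩
  · refine Tau.transfer hMN (fun K _ => ∀ x y : K, isB x → isQ y → ∃ z, isH x y z)
      (Formula.iAlls (Fin 2) ((fB (Sum.inr 0)).imp ((fQ (Sum.inr 1)).imp
        (Formula.iExs (Fin 1) (fH (Sum.inl (Sum.inr 0)) (Sum.inl (Sum.inr 1)) (Sum.inr 0))))))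
      ?_ hM.a7
    intro K _
    rw [sentence_iff]
    simp only [Formula.realize_iAlls, Formula.realize_iExs, Formula.realize_imp,
      realize_fB, realize_fH, realize_fQ, Sum.elim_inr, Sum.elim_inl]
    constructor
    · intro h x y hx hy
      obtain ⟨i, hi⟩ := h ![x, y] hx hy
      exact ⟨_, hi⟩
    · intro h i h0 h1
      obtain ⟨z, hz⟩ := h _ _ h0 h1
      exact ⟨fun _ => z, hz⟩
  · refine Tau.transfer hMN (fun K _ => ∀ x y z z' : K, isH x y z → isH x y z' → z = z')
      (Formula.iAlls (Fin 4) ((fH (Sum.inr 0) (Sum.inr 1) (Sum.inr 2)).imp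
        ((fH (Sum.inr 0) (Sum.inr 1) (Sum.inr 3)).imp (fE (Sum.inr 2) (Sum.inr 3))))) ?_ hM.a8
    intro K _
    rw [sentence_iff]
    simp only [Formula.realize_iAlls, Formula.realize_imp, realize_fH, realize_fE, Sum.elim_inr]
    exact ⟨fun h x y z z' => h ![x, y, z, z'], fun h i => h _ _ _ _⟩
  · refine Tau.transfer hMN (fun K _ => ∀ (b : Fin k → K) (d : Fin k → K) (x : Fin l → K),
        (∀ i, isB (b i)) → (∀ i, ¬ isB (d i) ∧ ¬ isQ (d i)) → (∀ i j, i ≠ j → b i ≠ b j) →
        ∃ y, isQ y ∧ (∀ j, y ≠ x j) ∧ ∀ i, isH (b i) y (d i))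
      (Formula.iAlls ((Fin k ⊕ Fin k) ⊕ Fin l)
        ((Formula.iInf fun i : Fin k => fB (Sum.inr (Sum.inl (Sum.inl i)))).imp
        ((Formula.iInf fun i : Fin k => (fB (Sum.inr (Sum.inl (Sum.inr i)))).not ⊓
          (fQ (Sum.inr (Sum.inl (Sum.inr i)))).not).imp
        ((Formula.iInf fun i : Fin k => Formula.iInf fun j : Fin k =>
          (if i = j then (⊤ : L0.Formula _) else
            (fE (Sum.inr (Sum.inl (Sum.inl i))) (Sum.inr (Sum.inl (Sum.inl j)))).not)).imp
        (Formula.iExs (Fin 1) ((fQ (Sum.inr 0)) ⊓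
          ((Formula.iInf fun j : Fin l => (fE (Sum.inr 0) (Sum.inl (Sum.inr (Sum.inr j)))).not) ⊓
          (Formula.iInf fun i : Fin k => fH (Sum.inl (Sum.inr (Sum.inl (Sum.inl i)))) (Sum.inr 0)
            (Sum.inl (Sum.inr (Sum.inl (Sum.inr i))))))))))))
      ?_ (hM.a9 k l)
    intro K _
    rw [sentence_iff]
    have hif : ∀ (i j : Fin k) (v : Empty ⊕ ((Fin k ⊕ Fin k) ⊕ Fin l) → K),
        (if i = j then (⊤ : L0.Formula (Empty ⊕ ((Fin k ⊕ Fin k) ⊕ Fin l))) else
            (fE (Sum.inr (Sum.inl (Sum.inl i))) (Sum.inr (Sum.inl (Sum.inl j)))).not).Realize v ↔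
          (i ≠ j → v (Sum.inr (Sum.inl (Sum.inl i))) ≠ v (Sum.inr (Sum.inl (Sum.inl j)))) := by
      intro i j v
      split_ifs with hij
      · simp [hij]
      · simp [hij]
    simp only [Formula.realize_iAlls, Formula.realize_iExs, Formula.realize_imp,
      Formula.realize_not, Formula.realize_inf, Formula.realize_iInf, hif,
      realize_fB, realize_fH, realize_fQ, realize_fE, Sum.elim_inr, Sum.elim_inl]
    constructor
    · intro h b d x h1 h2 h3
      obtain ⟨i, hi1, hi2, hi3⟩ := h (Sum.elim (Sum.elim b d) x) h1 h2 h3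
      exact ⟨i 0, hi1, hi2, hi3⟩
    · intro h i h1 h2 h3
      obtain ⟨y, hy1, hy2, hy3⟩ := h (fun j => i (Sum.inl (Sum.inl j)))
        (fun j => i (Sum.inl (Sum.inr j))) (fun j => i (Sum.inr j)) h1 h2 h3
      exact ⟨fun _ => y, hy1, hy2, hy3⟩
  · refine Tau.transfer hMN (fun K _ => ∀ (b : Fin k → K) (d : Fin k → K) (x : Fin l → K),
        (∀ i, isQ (b i)) → (∀ i, ¬ isB (d i) ∧ ¬ isQ (d i)) → (∀ i j, i ≠ j → b i ≠ b j) →
        ∃ y, isB y ∧ (∀ j, y ≠ x j) ∧ ∀ i, isH y (b i) (d i))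
      (Formula.iAlls ((Fin k ⊕ Fin k) ⊕ Fin l)
        ((Formula.iInf fun i : Fin k => fQ (Sum.inr (Sum.inl (Sum.inl i)))).imp
        ((Formula.iInf fun i : Fin k => (fB (Sum.inr (Sum.inl (Sum.inr i)))).not ⊓
          (fQ (Sum.inr (Sum.inl (Sum.inr i)))).not).imp
        ((Formula.iInf fun i : Fin k => Formula.iInf fun j : Fin k =>
          (if i = j then (⊤ : L0.Formula _) else
            (fE (Sum.inr (Sum.inl (Sum.inl i))) (Sum.inr (Sum.inl (Sum.inl j)))).not)).imp
        (Formula.iExs (Fin 1) ((fB (Sum.inr 0)) ⊓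
          ((Formula.iInf fun j : Fin l => (fE (Sum.inr 0) (Sum.inl (Sum.inr (Sum.inr j)))).not) ⊓
          (Formula.iInf fun i : Fin k => fH (Sum.inr 0) (Sum.inl (Sum.inr (Sum.inl (Sum.inl i))))
            (Sum.inl (Sum.inr (Sum.inl (Sum.inr i))))))))))))
      ?_ (hM.a10 k l)
    intro K _
    rw [sentence_iff]
    have hif : ∀ (i j : Fin k) (v : Empty ⊕ ((Fin k ⊕ Fin k) ⊕ Fin l) → K),
        (if i = j then (⊤ : L0.Formula (Empty ⊕ ((Fin k ⊕ Fin k) ⊕ Fin l))) else
            (fE (Sum.inr (Sum.inl (Sum.inl i))) (Sum.inr (Sum.inl (Sum.inl j)))).not).Realize v ↔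
          (i ≠ j → v (Sum.inr (Sum.inl (Sum.inl i))) ≠ v (Sum.inr (Sum.inl (Sum.inl j)))) := by
      intro i j v
      split_ifs with hij
      · simp [hij]
      · simp [hij]
    simp only [Formula.realize_iAlls, Formula.realize_iExs, Formula.realize_imp,
      Formula.realize_not, Formula.realize_inf, Formula.realize_iInf, hif,
      realize_fB, realize_fH, realize_fQ, realize_fE, Sum.elim_inr, Sum.elim_inl]
    constructor
    · intro h b d x h1 h2 h3
      obtain ⟨i, hi1, hi2, hi3⟩ := h (Sum.elim (Sum.elim b d) x) h1 h2 h3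
      exact ⟨i 0, hi1, hi2, hi3⟩
    · intro h i h1 h2 h3
      obtain ⟨y, hy1, hy2, hy3⟩ := h (fun j => i (Sum.inl (Sum.inl j)))
        (fun j => i (Sum.inl (Sum.inr j))) (fun j => i (Sum.inr j)) h1 h2 h3
      exact ⟨fun _ => y, hy1, hy2, hy3⟩

end Pool.Agent.H647R2.Tau
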