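import Pool.Agent.H647R2.TauDefs

set_option autoImplicit false

namespace Pool.Agent.H647R2.Tau

open FirstOrder FirstOrder.Language

section
variable {L : FirstOrder.Language.{0, 0}} {M : Type} [L.Structure M] {Q : Set M} {n : ℕ}

/-- logical consequence inside a type -/
lemma TypeOver.mem_of_imp (p : TypeOver L Q n) (s : Finset (L.Formula (Q ⊕ Fin n)))
    (hs : ∀ φ ∈ s, φ ∈ p.formulas) (ψ : L.Formula (Q ⊕ Fin n))
    (h : ∀ v : Fin n → M, (∀ φ ∈ s, φ.Realize (Sum.elim (fun q => (q : M)) v)) →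
      ψ.Realize (Sum.elim (fun q => (q : M)) v)) : ψ ∈ p.formulas := by
  classical
  rcases p.complete ψ with h1 | h1
  · exact h1
  exfalso
  obtain ⟨v, hv⟩ := p.finSat (insert ψ.not s) (by
    intro φ hφ
    rcases Finset.mem_insert.1 hφ with rfl | hφ
    · exact h1
    · exact hs φ hφ)
  have h2 := hv ψ.not (Finset.mem_insert_self _ _)
  rw [Formula.realize_not] at h2
  exact h2 (h v fun φ hφ => hv φ (Finset.mem_insert_of_mem hφ))

lemma TypeOver.not_mem_iff (p : TypeOver L Q n) (φ : L.Formula (Q ⊕ Fin n)) :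
    φ.not ∈ p.formulas ↔ φ ∉ p.formulas := by
  classical
  constructor
  · intro h1 h2
    obtain ⟨v, hv⟩ := p.finSat {φ, φ.not} (by
      intro ψ hψ
      rcases Finset.mem_insert.1 hψ with rfl | hψ
      · exact h2
      · rw [Finset.mem_singleton] at hψ; rw [hψ]; exact h1)
    have h3 := hv φ (by simp)
    have h4 := hv φ.not (by simp)
    rw [Formula.realize_not] at h4
    exact h4 h3
  · intro h; exact (p.complete φ).resolve_left h

lemma TypeOver.mem_congr (p : TypeOver L Q n) {φ ψ : L.Formula (Q ⊕ Fin n)}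
    (h : ∀ v : Q ⊕ Fin n → M, φ.Realize v ↔ ψ.Realize v) : φ ∈ p.formulas ↔ ψ ∈ p.formulas := by
  constructor
  · intro h1
    exact p.mem_of_imp {φ} (by simpa using h1) ψ (fun v hv => (h _).1 (hv φ (by simp)))
  · intro h1
    exact p.mem_of_imp {ψ} (by simpa using h1) φ (fun v hv => (h _).2 (hv ψ (by simp)))

lemma exists_basic {U : Set (TypeOver L Q n)} (hU : IsOpen U) {p : TypeOver L Q n} (hp : p ∈ U) :
    ∃ φ : L.Formula (Q ⊕ Fin n), φ ∈ p.formulas ∧ ∀ q : TypeOver L Q n, φ ∈ q.formulas → q ∈ U := by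
  classical
  have hU' : TopologicalSpace.GenerateOpen
      {U | ∃ φ, U = {p : TypeOver L Q n | φ ∈ p.formulas}} U := hU
  induction hU' with
  | basic s hs =>
    obtain ⟨φ, rfl⟩ := hs
    exact ⟨φ, hp, fun q hq => hq⟩
  | univ =>
    refine ⟨⊤, p.mem_of_imp ∅ (by simp) _ (fun v _ => ?_), fun q _ => Set.mem_univ q⟩
    exact Formula.realize_top.2 trivial
  | inter s t hs ht ihs iht =>
    obtain ⟨φ, h1, h2⟩ := ihs hs hp.1
    obtain ⟨ψ, h3, h4⟩ := iht ht hp.2
    refine ⟨φ ⊓ ψ, p.mem_of_imp {φ, ψ} ?_ _ ?_, ?_⟩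
    · intro χ hχ
      rcases Finset.mem_insert.1 hχ with rfl | hχ
      · exact h1
      · rw [Finset.mem_singleton] at hχ; rw [hχ]; exact h3
    · intro v hv
      rw [Formula.realize_inf]
      exact ⟨hv φ (by simp), hv ψ (by simp)⟩
    · intro q hq
      constructor
      · apply h2
        refine q.mem_of_imp {φ ⊓ ψ} (by simpa using hq) _ (fun v hv => ?_)
        have := hv (φ ⊓ ψ) (by simp)
        rw [Formula.realize_inf] at this
        exact this.1
      · apply h4
        refine q.mem_of_imp {φ ⊓ ψ} (by simpa using hq) _ (fun v hv => ?_)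
        have := hv (φ ⊓ ψ) (by simp)
        rw [Formula.realize_inf] at this
        exact this.2
  | sUnion S hS ih =>
    obtain ⟨s, hs, hps⟩ := hp
    obtain ⟨φ, h1, h2⟩ := ih s hs (hS s hs) hps
    exact ⟨φ, h1, fun q hq => ⟨s, hs, h2 q hq⟩⟩

lemma isOpen_basic (φ : L.Formula (Q ⊕ Fin n)) :
    IsOpen {p : TypeOver L Q n | φ ∈ p.formulas} :=
  TopologicalSpace.isOpen_generateFrom_of_mem ⟨φ, rfl⟩

lemma isClosed_basic (φ : L.Formula (Q ⊕ Fin n)) :
    IsClosed {p : TypeOver L Q n | φ ∈ p.formulas} := by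
  rw [← isOpen_compl_iff]
  have : {p : TypeOver L Q n | φ ∈ p.formulas}ᶜ = {p : TypeOver L Q n | φ.not ∈ p.formulas} := by
    ext p
    exact (p.not_mem_iff φ).symm
  rw [this]
  exact isOpen_basic _

instance : T2Space (TypeOver L Q n) := by
  constructor
  intro p q hpq
  have : ∃ φ, φ ∈ p.formulas ∧ φ ∉ q.formulas := by
    by_contra hcon
    push Not at hcon
    apply hpq
    apply TypeOver.ext
    ext φ
    constructor
    · exact hcon φ
    · intro h1
      by_contra h2
      have h3 := hcon _ ((p.not_mem_iff φ).2 h2)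
      exact (q.not_mem_iff φ).1 h3 h1
  obtain ⟨φ, h1, h2⟩ := this
  refine ⟨{r | φ ∈ r.formulas}, {r | φ.not ∈ r.formulas}, isOpen_basic _, isOpen_basic _, h1,
    (q.not_mem_iff φ).2 h2, ?_⟩
  rw [Set.disjoint_left]
  intro r h3 h4
  exact (r.not_mem_iff φ).1 h4 h3

instance : CompactSpace (TypeOver L Q n) := by
  constructor
  rw [isCompact_iff_ultrafilter_le_nhds]
  intro F _
  let p : TypeOver L Q n :=
    { formulas := {φ | {q : TypeOver L Q n | φ ∈ q.formulas} ∈ F}
      complete := by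
        intro φ
        rcases F.mem_or_compl_mem {q : TypeOver L Q n | φ ∈ q.formulas} with h | h
        · exact Or.inl h
        · right
          have : {q : TypeOver L Q n | φ ∈ q.formulas}ᶜ =
              {q : TypeOver L Q n | φ.not ∈ q.formulas} := by
            ext p
            exact (p.not_mem_iff φ).symm
          rwa [this] at h
      finSat := by
        intro s hs
        have h1 : (⋂ φ ∈ s, {q : TypeOver L Q n | φ ∈ q.formulas}) ∈ F := by
          refine (Filter.biInter_finset_mem s).2 fun φ hφ => hs φ hφ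
        obtain ⟨q, hq⟩ := F.neBot.nonempty_of_mem h1
        rw [Set.mem_iInter₂] at hq
        exact q.finSat s hq }
  refine ⟨p, Set.mem_univ _, ?_⟩
  rw [TopologicalSpace.nhds_generateFrom]
  refine le_iInf₂ ?_
  rintro _ ⟨hφ, φ, rfl⟩
  rw [Filter.le_principal_iff]
  exact hφ

end

end Pool.Agent.H647R2.Tau
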