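import Pool.Agent.H647R2.TauRep
import Pool.Agent.H647R2.TauTop

set_option autoImplicit false

namespace Pool.Agent.H647R2.Tau

open FirstOrder FirstOrder.Language

/-- maps respecting all symbols except the names `c_k`, `k ≥ m` -/
def Pres {M N : Type} [L0.Structure M] [L0.Structure N] (m : ℕ) (f : M → N) : Prop :=
  (∀ x, isB (f x) ↔ isB x) ∧ (∀ x, isQ (f x) ↔ isQ x) ∧
  (∀ k, k < m → ∀ x, isC k (f x) ↔ isC k x) ∧ (∀ x y z, isH (f x) (f y) (f z) ↔ isH x y z)

lemma Pres.mono {M N : Type} [L0.Structure M] [L0.Structure N] {m m' : ℕ} {f : M → N}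
    (h : Pres m' f) (hm : m ≤ m') : Pres m f :=
  ⟨h.1, h.2.1, fun k hk => h.2.2.1 k (lt_of_lt_of_le hk hm), h.2.2.2⟩

lemma term_realize {α : Type} {M N : Type} [L0.Structure M] [L0.Structure N] (f : M → N)
    (t : L0.Term α) (v : α → M) : t.realize (f ∘ v) = f (t.realize v) := by
  induction t with
  | var a => rfl
  | func g ts _ => exact Empty.elim g

lemma vec1 {N : Type} (x : Fin 1 → N) : x = ![x 0] := by
  funext i; fin_cases i; rfl

lemma vec3 {N : Type} (x : Fin 3 → N) : x = ![x 0, x 1, x 2] := by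
  funext i; fin_cases i <;> rfl

/-- A formula mentions finitely many symbols. -/
theorem loc {α : Type} {n : ℕ} (φ : L0.BoundedFormula α n) :
    ∃ m, ∀ (M N : Type) [L0.Structure M] [L0.Structure N] (f : M ≃ N), Pres m f →
      ∀ (v : α → M) (xs : Fin n → M), φ.Realize (f ∘ v) (f ∘ xs) ↔ φ.Realize v xs := by
  induction φ with
  | falsum => exact ⟨0, fun M N _ _ f hf v xs => Iff.rfl⟩
  | equal t₁ t₂ =>
    refine ⟨0, fun M N _ _ f hf v xs => ?_⟩
    show t₁.realize (Sum.elim (f ∘ v) (f ∘ xs)) = t₂.realize (Sum.elim (f ∘ v) (f ∘ xs)) ↔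
      t₁.realize (Sum.elim v xs) = t₂.realize (Sum.elim v xs)
    rw [← Sum.comp_elim, term_realize, term_realize]
    exact f.injective.eq_iff
  | @rel n l R ts =>
    cases R with
    | isB =>
      refine ⟨0, fun M N _ _ f hf v xs => ?_⟩
      show Structure.RelMap (L := L0) (Rel.isB : Rel 1)
          (fun i => (ts i).realize (Sum.elim (f ∘ v) (f ∘ xs))) ↔
        Structure.RelMap (L := L0) (Rel.isB : Rel 1) (fun i => (ts i).realize (Sum.elim v xs))
      rw [vec1 (fun i => (ts i).realize (Sum.elim (f ∘ v) (f ∘ xs))),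
        vec1 (fun i => (ts i).realize (Sum.elim v xs)), ← Sum.comp_elim, term_realize]
      exact hf.1 _
    | isQ =>
      refine ⟨0, fun M N _ _ f hf v xs => ?_⟩
      show Structure.RelMap (L := L0) (Rel.isQ : Rel 1)
          (fun i => (ts i).realize (Sum.elim (f ∘ v) (f ∘ xs))) ↔
        Structure.RelMap (L := L0) (Rel.isQ : Rel 1) (fun i => (ts i).realize (Sum.elim v xs))
      rw [vec1 (fun i => (ts i).realize (Sum.elim (f ∘ v) (f ∘ xs))),
        vec1 (fun i => (ts i).realize (Sum.elim v xs)), ← Sum.comp_elim, term_realize]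
      exact hf.2.1 _
    | cst k =>
      refine ⟨k + 1, fun M N _ _ f hf v xs => ?_⟩
      show Structure.RelMap (L := L0) (Rel.cst k : Rel 1)
          (fun i => (ts i).realize (Sum.elim (f ∘ v) (f ∘ xs))) ↔
        Structure.RelMap (L := L0) (Rel.cst k : Rel 1) (fun i => (ts i).realize (Sum.elim v xs))
      rw [vec1 (fun i => (ts i).realize (Sum.elim (f ∘ v) (f ∘ xs))),
        vec1 (fun i => (ts i).realize (Sum.elim v xs)), ← Sum.comp_elim, term_realize]
      exact hf.2.2.1 k (Nat.lt_succ_self k) _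
    | hh =>
      refine ⟨0, fun M N _ _ f hf v xs => ?_⟩
      show Structure.RelMap (L := L0) (Rel.hh : Rel 3)
          (fun i => (ts i).realize (Sum.elim (f ∘ v) (f ∘ xs))) ↔
        Structure.RelMap (L := L0) (Rel.hh : Rel 3) (fun i => (ts i).realize (Sum.elim v xs))
      rw [vec3 (fun i => (ts i).realize (Sum.elim (f ∘ v) (f ∘ xs))),
        vec3 (fun i => (ts i).realize (Sum.elim v xs)), ← Sum.comp_elim, term_realize,
        term_realize, term_realize]
      exact hf.2.2.2 _ _ _
  | imp φ ψ ih1 ih2 =>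
    obtain ⟨m1, h1⟩ := ih1
    obtain ⟨m2, h2⟩ := ih2
    refine ⟨max m1 m2, fun M N _ _ f hf v xs => ?_⟩
    rw [BoundedFormula.realize_imp, BoundedFormula.realize_imp,
      h1 M N f (hf.mono (le_max_left _ _)) v xs, h2 M N f (hf.mono (le_max_right _ _)) v xs]
  | all φ ih =>
    obtain ⟨m, h1⟩ := ih
    refine ⟨m, fun M N _ _ f hf v xs => ?_⟩
    rw [BoundedFormula.realize_all, BoundedFormula.realize_all]
    constructor
    · intro h x
      rw [← h1 M N f hf v (Fin.snoc xs x), Fin.comp_snoc]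
      exact h (f x)
    · intro h y
      obtain ⟨x, rfl⟩ := f.surjective y
      rw [← Fin.comp_snoc, h1 M N f hf v (Fin.snoc xs x)]
      exact h x

theorem loc' {α : Type} (φ : L0.Formula α) :
    ∃ m, ∀ (M N : Type) [L0.Structure M] [L0.Structure N] (f : M ≃ N), Pres m f →
      ∀ (v : α → M), φ.Realize (f ∘ v) ↔ φ.Realize v := by
  obtain ⟨m, h⟩ := loc φ
  refine ⟨m, fun M N _ _ f hf v => ?_⟩
  have := h M N f hf v default
  have h2 : (f ∘ (default : Fin 0 → M)) = default := Subsingleton.elim _ _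
  rw [h2] at this
  exact this

/-- The realization of a term or formula depends on finitely many variables. -/
lemma term_fv {L : FirstOrder.Language.{0, 0}} {α : Type} (t : L.Term α) :
    ∃ e : Set α, e.Finite ∧ ∀ (M : Type) [L.Structure M] (v v' : α → M),
      (∀ a ∈ e, v a = v' a) → t.realize v = t.realize v' := by
  induction t with
  | var a => exact ⟨{a}, Set.finite_singleton a, fun M _ v v' h => h a rfl⟩
  | func g ts ih =>
    choose e he h using ih
    refine ⟨⋃ i, e i, Set.finite_iUnion he, fun M _ v v' hv => ?_⟩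
    show Structure.funMap g _ = Structure.funMap g _
    congr 1
    funext i
    exact h i M v v' fun a ha => hv a (Set.mem_iUnion.2 ⟨i, ha⟩)

lemma bf_fv {L : FirstOrder.Language.{0, 0}} {α : Type} {n : ℕ} (φ : L.BoundedFormula α n) :
    ∃ e : Set α, e.Finite ∧ ∀ (M : Type) [L.Structure M] (v v' : α → M) (xs : Fin n → M),
      (∀ a ∈ e, v a = v' a) → (φ.Realize v xs ↔ φ.Realize v' xs) := by
  have key : ∀ {n : ℕ} (t : L.Term (α ⊕ Fin n)), ∃ e : Set α, e.Finite ∧
      ∀ (M : Type) [L.Structure M] (v v' : α → M) (xs : Fin n → M),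
      (∀ a ∈ e, v a = v' a) → t.realize (Sum.elim v xs) = t.realize (Sum.elim v' xs) := by
    intro n t
    obtain ⟨e, he, h⟩ := term_fv t
    refine ⟨Sum.inl ⁻¹' e, he.preimage Sum.inl_injective.injOn, fun M _ v v' xs hv => ?_⟩
    apply h
    rintro (a | i) ha
    · exact hv a ha
    · rfl
  induction φ with
  | falsum => exact ⟨∅, Set.finite_empty, fun M _ v v' xs _ => Iff.rfl⟩
  | equal t₁ t₂ =>
    obtain ⟨e1, he1, h1⟩ := key t₁
    obtain ⟨e2, he2, h2⟩ := key t₂
    refine ⟨e1 ∪ e2, he1.union he2, fun M _ v v' xs hv => ?_⟩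
    show t₁.realize (Sum.elim v xs) = t₂.realize (Sum.elim v xs) ↔
      t₁.realize (Sum.elim v' xs) = t₂.realize (Sum.elim v' xs)
    rw [h1 M v v' xs fun a ha => hv a (Or.inl ha), h2 M v v' xs fun a ha => hv a (Or.inr ha)]
  | rel R ts =>
    choose e he h using fun i => key (ts i)
    refine ⟨⋃ i, e i, Set.finite_iUnion he, fun M _ v v' xs hv => ?_⟩
    show Structure.RelMap R _ ↔ Structure.RelMap R _
    apply iff_of_eq
    congr 1
    funext i
    exact h i M v v' xs fun a ha => hv a (Set.mem_iUnion.2 ⟨i, ha⟩)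
  | imp φ ψ ih1 ih2 =>
    obtain ⟨e1, he1, h1⟩ := ih1
    obtain ⟨e2, he2, h2⟩ := ih2
    refine ⟨e1 ∪ e2, he1.union he2, fun M _ v v' xs hv => ?_⟩
    rw [BoundedFormula.realize_imp, BoundedFormula.realize_imp,
      h1 M v v' xs fun a ha => hv a (Or.inl ha), h2 M v v' xs fun a ha => hv a (Or.inr ha)]
  | all φ ih =>
    obtain ⟨e, he, h⟩ := ih
    refine ⟨e, he, fun M _ v v' xs hv => ?_⟩
    rw [BoundedFormula.realize_all, BoundedFormula.realize_all]
    exact forall_congr' fun x => h M v v' _ hv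

lemma formula_fv {L : FirstOrder.Language.{0, 0}} {α : Type} (φ : L.Formula α) :
    ∃ e : Set α, e.Finite ∧ ∀ (M : Type) [L.Structure M] (v v' : α → M),
      (∀ a ∈ e, v a = v' a) → (φ.Realize v ↔ φ.Realize v') := by
  obtain ⟨e, he, h⟩ := bf_fv φ
  exact ⟨e, he, fun M _ v v' hv => h M v v' default hv⟩

/-- extending a bijection of the unnamed elements -/
lemma exists_sigma {D D' : Type} {c : ℕ → D} {c' : ℕ → D'} (hc : Function.Injective c)
    (hc' : Function.Injective c') (e : {d // d ∉ Set.range c} ≃ {d // d ∉ Set.range c'}) :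
    ∃ σ : D ≃ D', ∀ k, σ (c k) = c' k := by
  classical
  let e0 : {d // d ∈ Set.range c} ≃ {d // d ∈ Set.range c'} :=
    (Equiv.ofInjective c hc).symm.trans (Equiv.ofInjective c' hc')
  refine ⟨(Equiv.sumCompl (fun d => d ∈ Set.range c)).symm.trans
    ((Equiv.sumCongr e0 e).trans (Equiv.sumCompl (fun d => d ∈ Set.range c'))), fun k => ?_⟩
  have h1 : (Equiv.sumCompl (fun d => d ∈ Set.range c)).symm (c k) =
      Sum.inl ⟨c k, ⟨k, rfl⟩⟩ := Equiv.sumCompl_symm_apply_of_pos (p := fun d => d ∈ Set.range c) ⟨k, rfl⟩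
  have h2 : (Equiv.ofInjective c hc).symm ⟨c k, ⟨k, rfl⟩⟩ = k := by
    rw [Equiv.symm_apply_eq]; rfl
  simp only [Equiv.trans_apply, h1, Equiv.sumCongr_apply, Sum.map_inl, e0, h2,
    Equiv.sumCompl_apply_inl, Equiv.ofInjective_apply]

/-- The theory of a generic model has at most countably many countable models. -/
theorem count_le (T : L0.Theory) (hT : ∀ M : Theory.ModelType.{0, 0, 0} T, Ax M) :
    numCountableModels T ≤ Cardinal.aleph0 := by
  classical
  let E : ∀ (N : Type) [L0.Structure N], Type := fun N _ =>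
    {x : N // ¬ isB x ∧ ¬ isQ x ∧ ∀ k, ¬ isC k x}
  let inv : CountableModel T → Option ℕ := fun N =>
    if Finite (E N.1) then some (Nat.card (E N.1)) else none
  have key : ∀ N N' : CountableModel T, inv N = inv N' → Nonempty (N.1 ≃[L0] N'.1) := by
    intro N N' hNN
    have hcN : Countable N.1 := N.2
    have hcN' : Countable N'.1 := N'.2
    have hE : Nonempty (E N.1 ≃ E N'.1) := by
      simp only [inv] at hNN
      have i1 : Countable (E N.1) := inferInstanceAs (Countable {x : N.1 // _})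
      have i2 : Countable (E N'.1) := inferInstanceAs (Countable {x : N'.1 // _})
      split_ifs at hNN with h1 h2 h2
      · have : Fintype (E N.1) := Fintype.ofFinite _
        have : Fintype (E N'.1) := Fintype.ofFinite _
        refine ⟨Fintype.equivOfCardEq ?_⟩
        rw [← Nat.card_eq_fintype_card, ← Nat.card_eq_fintype_card]
        exact Option.some.inj hNN
      · have : Infinite (E N.1) := not_finite_iff_infinite.1 h1
        have : Infinite (E N'.1) := not_finite_iff_infinite.1 h2
        exact nonempty_equiv_of_countable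
    obtain ⟨B, Q, D, h, c, hg, hc, hcount, ⟨f⟩⟩ := (hT N.1).rep
    obtain ⟨B', Q', D', h', c', hg', hc', hcount', ⟨f'⟩⟩ := (hT N'.1).rep
    obtain ⟨_, _, _⟩ := hcount hcN
    obtain ⟨_, _, _⟩ := hcount' hcN'
    have hex : ∀ {K : Type} [L0.Structure K] {B Q D : Type} {h : B → Q → D} {c : ℕ → D}
        (f : K ≃[L0] Mdl h c), Nonempty (E K ≃ {d // d ∉ Set.range c}) := by
      intro K _ B Q D h c f
      have fB : ∀ x, isB (f x) ↔ isB x := fun x => by
        have := f.map_rel (Rel.isB : Rel 1) ![x]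
        rw [vec1 (f ∘ ![x])] at this
        exact this
      have fQ : ∀ x, isQ (f x) ↔ isQ x := fun x => by
        have := f.map_rel (Rel.isQ : Rel 1) ![x]
        rw [vec1 (f ∘ ![x])] at this
        exact this
      have fC : ∀ k x, isC k (f x) ↔ isC k x := fun k x => by
        have := f.map_rel (Rel.cst k : Rel 1) ![x]
        rw [vec1 (f ∘ ![x])] at this
        exact this
      refine ⟨Equiv.ofBijective (fun x : {d // d ∉ Set.range c} =>
        (⟨f.symm (Mdl.md x.1), ?_⟩ : E K)) ?_ |>.symm⟩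
      · refine ⟨?_, ?_, fun k => ?_⟩
        · rw [← fB, FirstOrder.Language.Equiv.apply_symm_apply]
          rintro ⟨b, hb⟩; simp at hb
        · rw [← fQ, FirstOrder.Language.Equiv.apply_symm_apply]
          rintro ⟨b, hb⟩; simp at hb
        · rw [← fC, FirstOrder.Language.Equiv.apply_symm_apply, isC_mdl]
          intro hk
          exact x.2 ⟨k, (Mdl.md.inj hk).symm⟩
      · constructor
        · intro x y hxy
          have h1 : f.symm (Mdl.md x.1) = f.symm (Mdl.md y.1) := congrArg Subtype.val hxy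
          have h2 := f.symm.injective h1
          exact Subtype.ext (Mdl.md.inj h2)
        · rintro ⟨y, hy1, hy2, hy3⟩
          have h4 := (notBQ_mdl (f y)).1 ⟨fun h => hy1 ((fB y).1 h), fun h => hy2 ((fQ y).1 h)⟩
          obtain ⟨d, hd⟩ := h4
          have h5 : d ∉ Set.range c := by
            rintro ⟨k, rfl⟩
            exact hy3 k ((fC k y).1 ((isC_mdl k (f y)).2 hd))
          refine ⟨⟨d, h5⟩, Subtype.ext ?_⟩
          show f.symm (Mdl.md d) = y
          rw [← hd, FirstOrder.Language.Equiv.symm_apply_apply]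
    obtain ⟨e1⟩ := hex f
    obtain ⟨e2⟩ := hex f'
    obtain ⟨e⟩ := hE
    obtain ⟨σ, hσ⟩ := exists_sigma hc hc' ((e1.symm.trans e).trans e2)
    have hS : Compat h h' σ ∅ := by
      refine ⟨?_, ?_, ?_⟩
      · intro p hp; simp at hp
      · intro p hp; simp at hp
      · intro b x b' x' hp; simp at hp
    obtain ⟨β, κ, hβκ, _, _⟩ := exists_iso hg hg' hS
    exact ⟨(f'.symm.comp (mdlEquiv β κ σ hβκ hσ)).comp f⟩
  have hcount : Countable (Quotient (isoSetoid T)) := by
    let F : Quotient (isoSetoid T) → Option ℕ := fun q => inv q.out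
    have hF : Function.Injective F := by
      intro q q' hqq
      have h1 := key _ _ hqq
      rw [← Quotient.out_eq q, ← Quotient.out_eq q']
      exact Quotient.sound h1
    exact hF.countable
  exact Cardinal.mk_le_aleph0_iff.2 hcount

end Pool.Agent.H647R2.Tau
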