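import Pool.Agent.H647R2.TauLoc

set_option autoImplicit false

namespace Pool.Agent.H647R2.Tau

open FirstOrder FirstOrder.Language

section
variable {B Q D : Type} {h : B → Q → D} {c : ℕ → D}

/-- `Φ(x)`: the single formula saying that `x` is in the sort `Q` (repeated). -/
def Phi : ℕ → Set (L0.Formula (Fin 1)) := fun _ => {fQ 0}

lemma mem_sol {N : Type} [L0.Structure N] (x : N) : x ∈ solutionSet Phi N ↔ isQ x := by
  constructor
  · rintro ⟨_, hi⟩
    have := hi (fQ 0) rfl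
    rwa [realize_fQ] at this
  · intro hx
    refine ⟨0, fun φ hφ => ?_⟩
    rw [show φ = fQ 0 from hφ, realize_fQ]
    exact hx

/-- the elements of `Q(M)` -/
def qq (q : Q) : solutionSet Phi (Mdl h c) := ⟨Mdl.mq q, (mem_sol _).2 ⟨q, rfl⟩⟩

lemma qq_inj : Function.Injective (qq : Q → solutionSet Phi (Mdl h c)) := by
  intro q q' hqq
  exact Mdl.mq.inj (congrArg Subtype.val hqq)

lemma qq_surj : Function.Surjective (qq : Q → solutionSet Phi (Mdl h c)) := by
  rintro ⟨x, hx⟩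
  obtain ⟨q, rfl⟩ := (mem_sol _).1 hx
  exact ⟨q, rfl⟩

noncomputable def eQ : Q ≃ solutionSet Phi (Mdl h c) := Equiv.ofBijective qq ⟨qq_inj, qq_surj⟩

@[simp] lemma eQ_apply (q : Q) : ((eQ q : solutionSet Phi (Mdl h c)) : Mdl h c) = Mdl.mq q := rfl

lemma eQ_symm (x : solutionSet Phi (Mdl h c)) : Mdl.mq (eQ.symm x) = (x : Mdl h c) := by
  rw [← eQ_apply, Equiv.apply_symm_apply]

/-- permutations of `Q(M)` from permutations of `Q` -/
lemma mdlMap_pres (β : B ≃ B) (κ : Q ≃ Q) (σ : D ≃ D) (hh : ∀ b x, h (β b) (κ x) = σ (h b x))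
    (m : ℕ) (hσ : ∀ k, k < m → σ (c k) = c k) :
    Pres m (mdlMap (h := h) (c := c) (h' := h) (c' := c) β κ σ) := by
  refine ⟨?_, ?_, ?_, ?_⟩
  · intro x; rcases x with b | q | d <;> simp [mdlMap]
  · intro x; rcases x with b | q | d <;> simp [mdlMap]
  · intro k hk x
    have h1 := hσ k hk
    rcases x with b | q | d <;> simp only [mdlMap, Equiv.coe_fn_mk, isC_mdl]
    · simp
    · simp
    · constructor
      · intro h2
        have h3 := Mdl.md.inj h2
        rw [← h1] at h3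
        rw [σ.injective h3]
      · intro h2
        rw [Mdl.md.inj h2, h1]
  · intro x y z
    rcases x with b | q | d <;> rcases y with b' | q' | d' <;> rcases z with b'' | q'' | d'' <;>
      simp [mdlMap, hh]

variable [Countable B] [Countable Q]

/-- Existence of enough (local) automorphisms. -/
lemma exists_auto (hg : Gen h) (m : ℕ) (σ : D ≃ D) (hσ : ∀ k, k < m → σ (c k) = c k)
    (κ₀ : Q ≃ Q) (e : Set Q) (he : e.Finite) (b₀ : Set B) (hb₀ : b₀.Finite)
    (hcompat : ∀ b ∈ b₀, ∀ q ∈ e, h b (κ₀ q) = σ (h b q)) :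
    ∃ (β : B ≃ B) (κ : Q ≃ Q), (∀ b x, h (β b) (κ x) = σ (h b x)) ∧ (∀ b ∈ b₀, β b = b) ∧
      (∀ q ∈ e, κ q = κ₀ q) ∧ Pres m (mdlMap (h := h) (c := c) (h' := h) (c' := c) β κ σ) := by
  classical
  let S : Finset ((B ⊕ Q) × (B ⊕ Q)) :=
    (hb₀.toFinset.image fun b => (Sum.inl b, Sum.inl b)) ∪
      (he.toFinset.image fun q => (Sum.inr q, Sum.inr (κ₀ q)))
  have hS1 : ∀ p ∈ S, (∃ b ∈ b₀, p = (Sum.inl b, Sum.inl b)) ∨
      ∃ q ∈ e, p = (Sum.inr q, Sum.inr (κ₀ q)) := by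
    intro p hp
    rcases Finset.mem_union.1 hp with hp | hp
    · obtain ⟨b, hb, rfl⟩ := Finset.mem_image.1 hp
      exact Or.inl ⟨b, hb₀.mem_toFinset.1 hb, rfl⟩
    · obtain ⟨b, hb, rfl⟩ := Finset.mem_image.1 hp
      exact Or.inr ⟨b, he.mem_toFinset.1 hb, rfl⟩
  have hS : Compat h h σ S := by
    refine ⟨?_, ?_, ?_⟩
    · intro p hp
      rcases hS1 p hp with ⟨b, _, rfl⟩ | ⟨q, _, rfl⟩ <;> rfl
    · intro p hp p' hp'
      rcases hS1 p hp with ⟨b, _, rfl⟩ | ⟨q, _, rfl⟩ <;>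
        rcases hS1 p' hp' with ⟨b', _, rfl⟩ | ⟨q', _, rfl⟩ <;> simp
    · intro b x b' x' h1 h2
      rcases hS1 _ h1 with ⟨b1, hb1, h3⟩ | ⟨q, _, h3⟩
      · rcases hS1 _ h2 with ⟨b2, _, h4⟩ | ⟨q, hq, h4⟩
        · simp at h4
        · simp only [Prod.mk.injEq, Sum.inl.injEq, Sum.inr.injEq] at h3 h4
          obtain ⟨rfl, rfl⟩ := h3
          obtain ⟨rfl, rfl⟩ := h4
          exact hcompat _ hb1 _ hq
      · simp at h3
  obtain ⟨β, κ, h1, h2, h3⟩ := exists_iso hg hg hS
  refine ⟨β, κ, h1, ?_, ?_, mdlMap_pres β κ σ h1 m hσ⟩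
  · intro b hb
    apply h2
    exact Finset.mem_union_left _ (Finset.mem_image.2 ⟨b, hb₀.mem_toFinset.2 hb, rfl⟩)
  · intro q hq
    apply h3
    exact Finset.mem_union_right _ (Finset.mem_image.2 ⟨q, he.mem_toFinset.2 hq, rfl⟩)

/-- every permutation of `Q(M)` is elementary -/
lemma perm_elementary (hg : Gen h) (σ : Equiv.Perm (solutionSet Phi (Mdl h c))) :
    IsElementaryPerm L0 σ := by
  intro φ
  obtain ⟨e, he, hfv⟩ := formula_fv φ
  obtain ⟨m, hm⟩ := loc' φ
  let κ₀ : Q ≃ Q := (eQ.trans σ).trans eQ.symm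
  obtain ⟨β, κ, h1, -, h3, h4⟩ := exists_auto (c := c) hg m (Equiv.refl D) (fun _ _ => rfl) κ₀
    (eQ ⁻¹' e) (he.preimage eQ.injective.injOn) ∅ Set.finite_empty (by simp)
  rw [← hm _ _ (mdlMap (h := h) (c := c) (h' := h) (c' := c) β κ (Equiv.refl D)) h4]
  apply hfv
  intro x hx
  obtain ⟨q, rfl⟩ := eQ.surjective x
  have h5 := h3 q hx
  show Mdl.mq (κ q) = ((σ (eQ q) : solutionSet Phi (Mdl h c)) : Mdl h c)
  rw [h5]
  show Mdl.mq (eQ.symm (σ (eQ q))) = _
  rw [eQ_symm]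

/-- the type of `b` over `Q(M)`, moved by `σ` -/
def tp (hg : Gen h) (σ : Equiv.Perm (solutionSet Phi (Mdl h c))) (b : B) :
    TypeOver L0 (solutionSet Phi (Mdl h c)) 1 where
  formulas := {φ | φ.Realize (Sum.elim (fun q => ((σ.symm q : solutionSet Phi (Mdl h c)) : Mdl h c))
    (fun _ => (Mdl.mb b : Mdl h c)))}
  complete := by
    intro φ
    by_cases hφ : φ.Realize (Sum.elim (fun q => ((σ.symm q : solutionSet Phi (Mdl h c)) : Mdl h c))
      (fun _ => (Mdl.mb b : Mdl h c)))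
    · exact Or.inl hφ
    · right
      show φ.not.Realize _
      rw [Formula.realize_not]
      exact hφ
  finSat := by
    classical
    intro s hs
    choose e he hfv using fun φ : L0.Formula (solutionSet Phi (Mdl h c) ⊕ Fin 1) => formula_fv φ
    choose m hm using fun φ : L0.Formula (solutionSet Phi (Mdl h c) ⊕ Fin 1) => loc' φ
    let e' : Set Q := {q | ∃ φ ∈ s, Sum.inl (eQ q) ∈ e φ}
    have he' : e'.Finite := by
      have h1 : (⋃ φ ∈ (s : Set (L0.Formula (solutionSet Phi (Mdl h c) ⊕ Fin 1))), e φ).Finite :=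
        s.finite_toSet.biUnion fun φ _ => he φ
      have h2 := h1.preimage (f := fun q : Q => (Sum.inl (eQ q) : solutionSet Phi (Mdl h c) ⊕ Fin 1))
        (by
          intro x _ y _ hxy
          exact eQ.injective (Sum.inl.inj hxy))
      refine h2.subset ?_
      rintro q ⟨φ, hφ, hq⟩
      exact Set.mem_biUnion (by simpa using hφ) hq
    let κ₀ : Q ≃ Q := (eQ.trans σ).trans eQ.symm
    obtain ⟨β, κ, h1, -, h3, h4⟩ := exists_auto (c := c) hg (s.sup m) (Equiv.refl D)
      (fun _ _ => rfl) κ₀ (κ₀.symm '' e') (he'.image _) ∅ Set.finite_empty (by simp)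
    refine ⟨fun _ => Mdl.mb (β b), fun φ hφ => ?_⟩
    have h5 := hs φ hφ
    have h6 : Pres (m φ) (mdlMap (h := h) (c := c) (h' := h) (c' := c) β κ (Equiv.refl D)) :=
      h4.mono (Finset.le_sup hφ)
    have h7 := (hm φ _ _ (mdlMap (h := h) (c := c) (h' := h) (c' := c) β κ (Equiv.refl D)) h6 _).2 h5
    refine (hfv φ _ _ _ ?_).1 h7
    rintro (x | i) hx
    · obtain ⟨q, rfl⟩ := eQ.surjective x
      have hq : q ∈ e' := ⟨φ, hφ, hx⟩
      have h8 := h3 (κ₀.symm q) ⟨q, hq, rfl⟩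
      rw [Equiv.apply_symm_apply] at h8
      show mdlMap (h := h) (c := c) (h' := h) (c' := c) β κ (Equiv.refl D)
        ((σ.symm (eQ q) : solutionSet Phi (Mdl h c)) : Mdl h c) = Mdl.mq q
      have h9 : ((σ.symm (eQ q) : solutionSet Phi (Mdl h c)) : Mdl h c) = Mdl.mq (κ₀.symm q) := by
        show _ = Mdl.mq (eQ.symm (σ.symm (eQ q)))
        rw [eQ_symm]
      rw [h9]
      show Mdl.mq (κ (κ₀.symm q)) = Mdl.mq q
      rw [h8]
    · rfl

lemma moves_tp (hg : Gen h) (σ : Equiv.Perm (solutionSet Phi (Mdl h c))) (b : B) :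
    Moves σ (tp (c := c) hg (Equiv.refl _) b) (tp hg σ b) := by
  intro φ
  show φ.Realize _ ↔ (φ.relabel (Sum.map σ id)).Realize _
  rw [Formula.realize_relabel]
  apply iff_of_eq
  congr 1
  funext x
  rcases x with x | x
  · show _ = ((σ.symm (σ x) : solutionSet Phi (Mdl h c)) : Mdl h c)
    rw [Equiv.symm_apply_apply]; rfl
  · rfl

lemma moves_unique (hg : Gen h) (σ : Equiv.Perm (solutionSet Phi (Mdl h c))) (b : B)
    (q : TypeOver L0 (solutionSet Phi (Mdl h c)) 1)
    (hq : Moves σ (tp (c := c) hg (Equiv.refl _) b) q) : q = tp hg σ b := by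
  apply TypeOver.ext
  ext φ
  have h1 : φ ∈ q.formulas ↔ (φ.relabel (Sum.map σ.symm id)).relabel (Sum.map σ id) ∈ q.formulas := by
    apply q.mem_congr
    intro v
    rw [Formula.realize_relabel, Formula.realize_relabel]
    apply iff_of_eq
    congr 1
    funext x
    rcases x with x | x
    · show _ = v (Sum.inl (σ (σ.symm x)))
      rw [Equiv.apply_symm_apply]
    · rfl
  rw [h1, ← hq]
  show (φ.relabel (Sum.map σ.symm id)).Realize _ ↔ φ.Realize _
  rw [Formula.realize_relabel]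
  apply iff_of_eq
  congr 1
  funext x
  rcases x with x | x <;> rfl

/-- the value of the type variable at `x` is `c k` -/
noncomputable def chi (k : ℕ) (x : solutionSet Phi (Mdl h c)) :
    L0.Formula (solutionSet Phi (Mdl h c) ⊕ Fin 1) :=
  Formula.iExs (Fin 1) ((fH (Sum.inl (Sum.inr 0)) (Sum.inl (Sum.inl x)) (Sum.inr 0)) ⊓
    (fC k (Sum.inr 0)))

/-- the values of the type variable at `x` and at `y` agree -/
noncomputable def eps (x y : solutionSet Phi (Mdl h c)) :
    L0.Formula (solutionSet Phi (Mdl h c) ⊕ Fin 1) :=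
  Formula.iExs (Fin 1) ((fH (Sum.inl (Sum.inr 0)) (Sum.inl (Sum.inl x)) (Sum.inr 0)) ⊓
    (fH (Sum.inl (Sum.inr 0)) (Sum.inl (Sum.inl y)) (Sum.inr 0)))

lemma mem_chi (hg : Gen h) (σ : Equiv.Perm (solutionSet Phi (Mdl h c))) (b : B) (k : ℕ)
    (x : solutionSet Phi (Mdl h c)) :
    chi k x ∈ (tp hg σ b).formulas ↔ h b (eQ.symm (σ.symm x)) = c k := by
  show (chi k x).Realize _ ↔ _
  unfold chi
  simp only [Formula.realize_iExs, Formula.realize_inf, realize_fH, realize_fC, Sum.elim_inr,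
    Sum.elim_inl]
  rw [← eQ_symm (σ.symm x)]
  simp only [isH_mdl, isC_mdl]
  constructor
  · rintro ⟨i, ⟨b', q, h1, h2, h3⟩, h4⟩
    rw [Mdl.mb.inj h1, Mdl.mq.inj h2]
    exact Mdl.md.inj (h3.symm.trans h4)
  · intro h1
    exact ⟨fun _ => Mdl.md (c k), ⟨b, _, rfl, rfl, by rw [h1]⟩, rfl⟩

lemma mem_eps (hg : Gen h) (σ : Equiv.Perm (solutionSet Phi (Mdl h c))) (b : B)
    (x y : solutionSet Phi (Mdl h c)) :
    eps x y ∈ (tp hg σ b).formulas ↔ h b (eQ.symm (σ.symm x)) = h b (eQ.symm (σ.symm y)) := by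
  show (eps x y).Realize _ ↔ _
  unfold eps
  simp only [Formula.realize_iExs, Formula.realize_inf, realize_fH, Sum.elim_inr,
    Sum.elim_inl]
  rw [← eQ_symm (σ.symm x), ← eQ_symm (σ.symm y)]
  simp only [isH_mdl]
  constructor
  · rintro ⟨i, ⟨b', q, h1, h2, h3⟩, ⟨b'', q', h4, h5, h6⟩⟩
    rw [Mdl.mq.inj h2, Mdl.mq.inj h5]
    have h7 := Mdl.md.inj (h3.symm.trans h6)
    rw [← Mdl.mb.inj h1, ← Mdl.mb.inj h4] at h7
    exact h7
  · intro h1
    exact ⟨fun _ => Mdl.md (h b (eQ.symm (σ.symm x))), ⟨b, _, rfl, rfl, rfl⟩,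
      ⟨b, _, rfl, rfl, by rw [h1]⟩⟩

theorem not_tauStable (hg : Gen h) (hc : Function.Injective c) (hinf : (Set.range c)ᶜ.Infinite)
    (b₀ : B) : ¬ TauStable (tp (c := c) hg (Equiv.refl _) b₀) := by
  classical
  rintro ⟨a, ha, hcom⟩
  let p := tp (c := c) hg (Equiv.refl _) b₀
  let Y := pseudoClass a p
  have hY : ∀ r, r ∈ Y ↔ ∃ σ : Equiv.Perm (solutionSet Phi (Mdl h c)), (∀ x ∈ a, σ x = x) ∧
      r = tp hg σ b₀ := by
    intro r
    constructor
    · rintro ⟨σ, _, h2, h3⟩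
      exact ⟨σ, h2, moves_unique hg σ b₀ r h3⟩
    · rintro ⟨σ, h2, rfl⟩
      exact ⟨σ, perm_elementary hg σ, h2, moves_tp hg σ b₀⟩
  -- the closed sets
  let F : solutionSet Phi (Mdl h c) → Set (TypeOver L0 (solutionSet Phi (Mdl h c)) 1) := fun x =>
    {r | (∀ k, chi k x ∉ r.formulas) ∧ ∀ y ∈ a, eps x y ∉ r.formulas}
  have hFc : ∀ x, IsClosed (F x) := by
    intro x
    have h1 : F x = (⋂ k, {r : TypeOver L0 (solutionSet Phi (Mdl h c)) 1 | chi k x ∈ r.formulas}ᶜ) ∩
        ⋂ y ∈ a, {r : TypeOver L0 (solutionSet Phi (Mdl h c)) 1 | eps x y ∈ r.formulas}ᶜ := by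
      ext r
      simp only [F, Set.mem_inter_iff, Set.mem_iInter, Set.mem_compl_iff]
      exact Iff.rfl
    rw [h1]
    apply IsClosed.inter
    · exact isClosed_iInter fun k => (isOpen_basic _).isClosed_compl
    · exact isClosed_biInter fun y _ => (isOpen_basic _).isClosed_compl
  have hYF : Y ⊆ ⋃ x, F x := by
    intro r hr
    obtain ⟨σ, hσ, rfl⟩ := (hY r).1 hr
    -- pick an unnamed value different from those on `a`
    have hfin : ((fun x : solutionSet Phi (Mdl h c) => h b₀ (eQ.symm x)) '' a).Finite := ha.image _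
    obtain ⟨d, hd, hda⟩ := (hinf.sdiff hfin).nonempty
    obtain ⟨q, -, hq⟩ := hg.extQ {b₀} (fun _ => d) ∅
    have hq' : h b₀ q = d := hq b₀ (by simp)
    refine Set.mem_iUnion.2 ⟨σ (eQ q), fun k hk => ?_, fun y hy hk => ?_⟩
    · rw [mem_chi, Equiv.symm_apply_apply, Equiv.symm_apply_apply, hq'] at hk
      exact hd ⟨k, hk.symm⟩
    · rw [mem_eps, Equiv.symm_apply_apply, Equiv.symm_apply_apply, hq'] at hk
      have h1 : σ.symm y = y := by
        rw [Equiv.symm_apply_eq]; exact (hσ y hy).symm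
      rw [h1] at hk
      exact hda ⟨y, hy, hk.symm⟩
  have hnd : ∀ x, ∀ U : Set (TypeOver L0 (solutionSet Phi (Mdl h c)) 1), IsOpen U →
      (U ∩ closure Y).Nonempty → ¬ (U ∩ closure Y ⊆ F x) := by
    rintro x U hU ⟨r, hrU, hrY⟩ hsub
    obtain ⟨r', hr'U, hr'Y⟩ := mem_closure_iff.1 hrY U hU hrU
    obtain ⟨σ, hσ, rfl⟩ := (hY r').1 hr'Y
    obtain ⟨φ, hφ, hφU⟩ := exists_basic hU hr'U
    have hF := hsub ⟨hr'U, subset_closure hr'Y⟩
    obtain ⟨m, hm⟩ := loc' φ
    let q₁ : Q := eQ.symm (σ.symm x)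
    let d₁ : D := h b₀ q₁
    have hd₁ : ∀ k, d₁ ≠ c k := fun k hk => hF.1 k ((mem_chi hg σ b₀ k x).2 hk)
    have hsa : ∀ y ∈ a, σ.symm y = y := by
      intro y hy
      rw [Equiv.symm_apply_eq]; exact (hσ y hy).symm
    have hd₁a : ∀ y ∈ a, h b₀ (eQ.symm y) ≠ d₁ := by
      intro y hy hk
      apply hF.2 y hy
      rw [mem_eps, hsa y hy]
      exact hk.symm
    -- a large named value not taken on `a`
    obtain ⟨j, hjm, hja⟩ : ∃ j, m ≤ j ∧ ∀ y ∈ a, h b₀ (eQ.symm y) ≠ c j := by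
      have hfin : {j | ∃ y ∈ a, h b₀ (eQ.symm y) = c j}.Finite := by
        have h1 : ((fun x : solutionSet Phi (Mdl h c) => h b₀ (eQ.symm x)) '' a).Finite := ha.image _
        refine (h1.preimage hc.injOn).subset ?_
        rintro j ⟨y, hy, hk⟩
        exact ⟨y, hy, hk⟩
      obtain ⟨j, hj⟩ := ((Set.infinite_of_not_bddAbove (s := Set.Ici m) (by
        intro ⟨b, hb⟩
        have := hb (Set.mem_Ici.2 (le_max_left m (b + 1)))
        have h2 := le_max_right m (b + 1)
        omega)).sdiff hfin).nonempty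
      exact ⟨j, hj.1, fun y hy hk => hj.2 ⟨y, hy, hk⟩⟩
    let τ : D ≃ D := Equiv.swap d₁ (c j)
    have hτ : ∀ k, k < m → τ (c k) = c k := by
      intro k hk
      apply Equiv.swap_apply_of_ne_of_ne
      · exact (hd₁ k).symm
      · intro h1
        have := hc h1
        omega
    have hτa : ∀ y ∈ a, τ (h b₀ (eQ.symm y)) = h b₀ (eQ.symm y) := by
      intro y hy
      exact Equiv.swap_apply_of_ne_of_ne (hd₁a y hy) (hja y hy)
    obtain ⟨β, κ, h1, h2, h3, h4⟩ := exists_auto (c := c) hg m τ hτ (Equiv.refl Q)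
      (eQ ⁻¹' a) (ha.preimage eQ.injective.injOn) {b₀} (Set.finite_singleton b₀) (by
        intro b hb q hq
        rw [Set.mem_singleton_iff.1 hb]
        have := hτa (eQ q) hq
        rw [Equiv.symm_apply_apply] at this
        exact this.symm)
    -- the new permutation
    let κ' : Equiv.Perm (solutionSet Phi (Mdl h c)) := (eQ.symm.trans κ).trans eQ
    let σ' : Equiv.Perm (solutionSet Phi (Mdl h c)) := κ'.symm.trans σ
    have hκ'a : ∀ y ∈ a, κ' y = y := by
      intro y hy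
      show eQ (κ (eQ.symm y)) = y
      have h5 : κ (eQ.symm y) = eQ.symm y := h3 _ (by
        show eQ (eQ.symm y) ∈ a
        rw [Equiv.apply_symm_apply]; exact hy)
      rw [h5, Equiv.apply_symm_apply]
    have hσ'a : ∀ y ∈ a, σ' y = y := by
      intro y hy
      show σ (κ'.symm y) = y
      have h5 : κ'.symm y = y := by
        rw [Equiv.symm_apply_eq]; exact (hκ'a y hy).symm
      rw [h5, hσ y hy]
    have hmem : tp hg σ' b₀ ∈ Y := (hY _).2 ⟨σ', hσ'a, rfl⟩
    have hφ' : φ ∈ (tp hg σ' b₀).formulas := by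
      show φ.Realize _
      have h5 : φ.Realize (Sum.elim (fun q => ((σ.symm q : solutionSet Phi (Mdl h c)) : Mdl h c))
        (fun _ => (Mdl.mb b₀ : Mdl h c))) := hφ
      rw [← hm _ _ (mdlMap (h := h) (c := c) (h' := h) (c' := c) β κ τ) h4] at h5
      convert h5 using 1
      funext y
      rcases y with y | y
      · show ((κ' (σ.symm y) : solutionSet Phi (Mdl h c)) : Mdl h c) =
          mdlMap (h := h) (c := c) (h' := h) (c' := c) β κ τ (σ.symm y : solutionSet Phi (Mdl h c))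
        rw [← eQ_symm (σ.symm y)]
        rfl
      · show Mdl.mb b₀ = Mdl.mb (β b₀)
        rw [h2 b₀ rfl]
    have hin : tp hg σ' b₀ ∈ F x := hsub ⟨hφU _ hφ', subset_closure hmem⟩
    apply hin.1 j
    rw [mem_chi]
    have h5 : eQ.symm (σ'.symm x) = κ q₁ := by
      show eQ.symm (κ' (σ.symm x)) = κ q₁
      show eQ.symm (eQ (κ (eQ.symm (σ.symm x)))) = κ q₁
      rw [Equiv.symm_apply_apply]
    rw [h5]
    have h6 := h1 b₀ q₁
    rw [h2 b₀ rfl] at h6
    rw [h6]
    exact Equiv.swap_apply_left d₁ (c j)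
  -- Baire category
  have hKc : CompactSpace (closure Y) := isCompact_iff_compactSpace.1 isClosed_closure.isCompact
  have hpY : p ∈ Y := (hY p).2 ⟨Equiv.refl _, fun x _ => rfl, rfl⟩
  have hne : Nonempty (closure Y) := ⟨⟨p, subset_closure hpY⟩⟩
  have hres : ∀ x, ((Subtype.val ⁻¹' (F x))ᶜ : Set (closure Y)) ∈ residual (closure Y) := by
    intro x
    apply residual_of_dense_open
    · exact ((hFc x).preimage continuous_subtype_val).isOpen_compl
    · rw [dense_iff_inter_open]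
      rintro V hV ⟨v, hv⟩
      obtain ⟨U, hU, rfl⟩ := isOpen_induced_iff.1 hV
      by_contra hcon
      apply hnd x U hU ⟨v.1, hv, v.2⟩
      rintro r ⟨hrU, hrY⟩
      by_contra hrF
      exact hcon ⟨⟨r, hrY⟩, hrU, hrF⟩
  have hcount : Countable (solutionSet Phi (Mdl h c)) := (eQ (h := h) (c := c)).symm.injective.countable
  have hres2 : (⋂ x, ((Subtype.val ⁻¹' (F x))ᶜ : Set (closure Y))) ∈ residual (closure Y) :=
    countable_iInter_mem.2 hres
  have hres3 := Filter.inter_mem hcom hres2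
  obtain ⟨r, hr1, hr2⟩ := (dense_of_mem_residual hres3).nonempty
  obtain ⟨x, hx⟩ := Set.mem_iUnion.1 (hYF hr1)
  exact (Set.mem_iInter.1 hr2 x) hx

end

/-- The counterexample. -/
theorem counterexample : ∃ (L : FirstOrder.Language.{0, 0}) (T : L.Theory)
    (Φ : ℕ → Set (L.Formula (Fin 1))) (M : Theory.ModelType.{0, 0, 0} T) (n : ℕ)
    (p : TypeOver L (solutionSet Φ M) n),
    Countable L.Symbols ∧ T.IsComplete ∧ numCountableModels T ≤ Cardinal.aleph0 ∧ Countable M ∧
      Good Φ p ∧ ¬ TauStable p := by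
  obtain ⟨h, hg⟩ := exists_gen ℕ
  let c : ℕ → ℕ := fun k => 2 * k
  have hc : Function.Injective c := fun a b hab => by
    have : 2 * a = 2 * b := hab
    omega
  have hinf : (Set.range c)ᶜ.Infinite := by
    refine Set.infinite_of_injective_forall_mem (f := fun k : ℕ => 2 * k + 1) ?_ ?_
    · intro a b hab
      have : 2 * a + 1 = 2 * b + 1 := hab
      omega
    · rintro k ⟨j, hj⟩
      have : 2 * j = 2 * k + 1 := hj
      omega
  have hne : Nonempty (Mdl h c) := ⟨Mdl.md 0⟩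
  have hcount : Countable (Mdl h c) := by
    have : Function.Injective (fun x : Mdl h c => (match x with
      | Mdl.mb b => Sum.inl b
      | Mdl.mq q => Sum.inr (Sum.inl q)
      | Mdl.md d => Sum.inr (Sum.inr d) : ℕ ⊕ (ℕ ⊕ ℕ))) := by
      intro x y hxy
      rcases x with b | q | d <;> rcases y with b' | q' | d' <;> simp_all
    exact this.countable
  let T : L0.Theory := L0.completeTheory (Mdl h c)
  have hax : ∀ N : Theory.ModelType.{0, 0, 0} T, Ax N := by
    intro N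
    refine Ax.transfer (M := Mdl h c) (fun φ => ?_) (ax_mdl hg hc)
    constructor
    · intro h1
      exact Theory.realize_sentence_of_mem T ((mem_completeTheory).2 h1)
    · intro h1
      by_contra h2
      have h3 : N ⊨ φ.not := Theory.realize_sentence_of_mem T
        ((mem_completeTheory).2 ((Sentence.realize_not _).2 h2))
      exact (Sentence.realize_not _).1 h3 h1
  refine ⟨L0, T, Phi, Theory.ModelType.of T (Mdl h c), 1, tp hg (Equiv.refl _) 0, inferInstance,
    completeTheory.isComplete _ _, count_le T hax, hcount, ?_, not_tauStable hg hc hinf 0⟩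
  refine ⟨Mdl h c, inferInstance, Subtype.val, fun _ => Mdl.mb 0, hcount,
    fun φ => Iff.rfl, ?_, fun φ => Iff.rfl⟩
  exact Subtype.range_coe.symm

end Pool.Agent.H647R2.Tau
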