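import Pool.Agent.H647R2.TauLang

set_option autoImplicit false

namespace Pool.Agent.H647R2.Tau

open FirstOrder FirstOrder.Language

section
variable {B Q D : Type} {h : B → Q → D} {c : ℕ → D}

@[simp] lemma isB_mdl (x : Mdl h c) : isB x ↔ ∃ b : B, x = Mdl.mb b := Iff.rfl
@[simp] lemma isQ_mdl (x : Mdl h c) : isQ x ↔ ∃ b : Q, x = Mdl.mq b := Iff.rfl
@[simp] lemma isC_mdl (k : ℕ) (x : Mdl h c) : isC k x ↔ x = Mdl.md (c k) := Iff.rfl
@[simp] lemma isH_mdl (x y z : Mdl h c) : isH x y z ↔ ∃ (b : B) (q : Q), x = Mdl.mb b ∧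
    y = Mdl.mq q ∧ z = Mdl.md (h b q) := Iff.rfl

lemma notBQ_mdl (x : Mdl h c) : (¬ isB x ∧ ¬ isQ x) ↔ ∃ d : D, x = Mdl.md d := by
  constructor
  · rintro ⟨h1, h2⟩
    rcases x with b | q | d
    · exact absurd ⟨b, rfl⟩ h1
    · exact absurd ⟨q, rfl⟩ h2
    · exact ⟨d, rfl⟩
  · rintro ⟨d, rfl⟩
    constructor
    · rintro ⟨b, hb⟩; exact absurd hb (by simp)
    · rintro ⟨b, hb⟩; exact absurd hb (by simp)

theorem ax_mdl (hg : Gen h) (hc : Function.Injective c) : Ax (Mdl h c) := by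
  classical
  have inr_inj : ∀ {d d' : D}, (Mdl.md d : Mdl h c) = Mdl.md d' → d = d' :=
    fun h1 => Mdl.md.inj h1
  have q_inj : ∀ {d d' : Q}, (Mdl.mq d : Mdl h c) = Mdl.mq d' → d = d' :=
    fun h1 => Mdl.mq.inj h1
  have b_inj : ∀ {d d' : B}, (Mdl.mb d : Mdl h c) = Mdl.mb d' → d = d' :=
    fun h1 => Mdl.mb.inj h1
  refine ⟨?_, ?_, ?_, ?_, ?_, ?_, ?_, ?_, ?_, ?_⟩
  · rintro x ⟨⟨b, rfl⟩, ⟨q, hq⟩⟩
    exact absurd hq (by intro h1; cases h1)
  · intro k; exact ⟨_, rfl⟩
  · intro k x y hx hy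
    rw [isC_mdl] at hx hy
    rw [hx, hy]
  · intro k x hx
    rw [isC_mdl] at hx
    rw [notBQ_mdl]
    exact ⟨_, hx⟩
  · intro k l x hkl hx
    rw [isC_mdl, isC_mdl] at hx
    have h1 := hx.1.symm.trans hx.2
    exact hkl (hc (inr_inj h1))
  · intro x y z hx
    rw [isH_mdl] at hx
    obtain ⟨b, q, rfl, rfl, rfl⟩ := hx
    exact ⟨⟨b, rfl⟩, ⟨q, rfl⟩, (notBQ_mdl _).2 ⟨_, rfl⟩⟩
  · rintro x y ⟨b, rfl⟩ ⟨q, rfl⟩
    exact ⟨_, b, q, rfl, rfl, rfl⟩
  · intro x y z z' h1 h2
    rw [isH_mdl] at h1 h2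
    obtain ⟨b, q, hx, hy, rfl⟩ := h1
    obtain ⟨b', q', hx', hy', rfl⟩ := h2
    have h3 := b_inj (hx.symm.trans hx')
    have h4 := q_inj (hy.symm.trans hy')
    rw [h3, h4]
  · intro k l b d x hb hd hne
    have hb' : ∀ i, ∃ b' : B, b i = Mdl.mb b' := hb
    have hd' : ∀ i, ∃ d' : D, d i = Mdl.md d' := fun i => (notBQ_mdl _).1 (hd i)
    choose b' hb' using hb'
    choose d' hd' using hd'
    have hinj : Function.Injective b' := by
      intro i j hij
      by_contra hne'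
      exact hne i j hne' (by rw [hb', hb', hij])
    obtain ⟨d₀⟩ := hg.ne
    let g : B → D := fun b => if H : ∃ i, b' i = b then d' H.choose else d₀
    let t : Finset Q := Finset.univ.biUnion fun j : Fin l => match x j with
      | Mdl.mb _ => ∅
      | Mdl.mq q => {q}
      | Mdl.md _ => ∅
    obtain ⟨y, hyt, hy⟩ := hg.extQ (Finset.univ.image b') g t
    refine ⟨Mdl.mq y, ⟨y, rfl⟩, ?_, ?_⟩
    · intro j hj
      apply hyt
      refine Finset.mem_biUnion.2 ⟨j, Finset.mem_univ _, ?_⟩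
      rw [← hj]; simp
    · intro i
      rw [isH_mdl]
      refine ⟨b' i, y, hb' i, rfl, ?_⟩
      have h1 := hy (b' i) (Finset.mem_image.2 ⟨i, Finset.mem_univ _, rfl⟩)
      have H : ∃ j, b' j = b' i := ⟨i, rfl⟩
      simp only [g, dif_pos H] at h1
      have h2 : H.choose = i := hinj H.choose_spec
      rw [h2] at h1
      rw [h1]; exact hd' i
  · intro k l b d x hb hd hne
    have hb' : ∀ i, ∃ b' : Q, b i = Mdl.mq b' := hb
    have hd' : ∀ i, ∃ d' : D, d i = Mdl.md d' := fun i => (notBQ_mdl _).1 (hd i)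
    choose b' hb' using hb'
    choose d' hd' using hd'
    have hinj : Function.Injective b' := by
      intro i j hij
      by_contra hne'
      exact hne i j hne' (by rw [hb', hb', hij])
    obtain ⟨d₀⟩ := hg.ne
    let g : Q → D := fun b => if H : ∃ i, b' i = b then d' H.choose else d₀
    let t : Finset B := Finset.univ.biUnion fun j : Fin l => match x j with
      | Mdl.mb b => {b}
      | Mdl.mq _ => ∅
      | Mdl.md _ => ∅
    obtain ⟨y, hyt, hy⟩ := hg.extB (Finset.univ.image b') g t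
    refine ⟨Mdl.mb y, ⟨y, rfl⟩, ?_, ?_⟩
    · intro j hj
      apply hyt
      refine Finset.mem_biUnion.2 ⟨j, Finset.mem_univ _, ?_⟩
      rw [← hj]; simp
    · intro i
      rw [isH_mdl]
      refine ⟨y, b' i, rfl, hb' i, ?_⟩
      have h1 := hy (b' i) (Finset.mem_image.2 ⟨i, Finset.mem_univ _, rfl⟩)
      have H : ∃ j, b' j = b' i := ⟨i, rfl⟩
      simp only [g, dif_pos H] at h1
      have h2 : H.choose = i := hinj H.choose_spec
      rw [h2] at h1
      rw [h1]; exact hd' i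

end

/-- Isomorphisms of models from isomorphisms of data. -/
def mdlMap {B Q D B' Q' D' : Type} {h : B → Q → D} {c : ℕ → D} {h' : B' → Q' → D'} {c' : ℕ → D'}
    (β : B ≃ B') (κ : Q ≃ Q') (σ : D ≃ D') : Mdl h c ≃ Mdl h' c' where
  toFun := fun x => match x with
    | Mdl.mb b => Mdl.mb (β b)
    | Mdl.mq q => Mdl.mq (κ q)
    | Mdl.md d => Mdl.md (σ d)
  invFun := fun x => match x with
    | Mdl.mb b => Mdl.mb (β.symm b)
    | Mdl.mq q => Mdl.mq (κ.symm q)
    | Mdl.md d => Mdl.md (σ.symm d)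
  left_inv := by intro x; rcases x with b | q | d <;> simp
  right_inv := by intro x; rcases x with b | q | d <;> simp

def mdlEquiv {B Q D B' Q' D' : Type} {h : B → Q → D} {c : ℕ → D} {h' : B' → Q' → D'} {c' : ℕ → D'}
    (β : B ≃ B') (κ : Q ≃ Q') (σ : D ≃ D') (hh : ∀ b x, h' (β b) (κ x) = σ (h b x))
    (hc : ∀ k, σ (c k) = c' k) : Mdl h c ≃[L0] Mdl h' c' where
  toEquiv := mdlMap β κ σ
  map_fun' := fun {n} f _ => Empty.elim f
  map_rel' := by
    intro n r x
    cases r with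
    | isB =>
      show (∃ b, mdlMap (h := h) (c := c) (h' := h') (c' := c') β κ σ (x 0) = Mdl.mb b) ↔
        ∃ b, x 0 = Mdl.mb b
      rcases hx : x 0 with b | q | d <;> simp [mdlMap]
    | isQ =>
      show (∃ b, mdlMap (h := h) (c := c) (h' := h') (c' := c') β κ σ (x 0) = Mdl.mq b) ↔
        ∃ b, x 0 = Mdl.mq b
      rcases hx : x 0 with b | q | d <;> simp [mdlMap]
    | cst k =>
      show (mdlMap (h := h) (c := c) (h' := h') (c' := c') β κ σ (x 0) = Mdl.md (c' k)) ↔
        x 0 = Mdl.md (c k)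
      rw [← hc]
      rcases hx : x 0 with b | q | d <;> simp [mdlMap]
    | hh =>
      show (∃ b q, mdlMap (h := h) (c := c) (h' := h') (c' := c') β κ σ (x 0) = Mdl.mb b ∧
        mdlMap (h := h) (c := c) (h' := h') (c' := c') β κ σ (x 1) = Mdl.mq q ∧
        mdlMap (h := h) (c := c) (h' := h') (c' := c') β κ σ (x 2) = Mdl.md (h' b q)) ↔
        ∃ b q, x 0 = Mdl.mb b ∧ x 1 = Mdl.mq q ∧ x 2 = Mdl.md (h b q)
      rcases hx : x 0 with b | q | d <;> rcases hy : x 1 with b' | q' | d' <;>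
        rcases hz : x 2 with b'' | q'' | d'' <;> simp [hh, mdlMap]

/-- Every structure satisfying the axioms is (isomorphic to) a model `Mdl h c`. -/
theorem Ax.rep {N : Type} [L0.Structure N] (hN : Ax N) :
    ∃ (B Q D : Type) (h : B → Q → D) (c : ℕ → D), Gen h ∧ Function.Injective c ∧
      (Countable N → Countable B ∧ Countable Q ∧ Countable D) ∧ Nonempty (N ≃[L0] Mdl h c) := by
  classical
  let B := {x : N // isB x}
  let Q := {x : N // isQ x}
  let D := {x : N // ¬ isB x ∧ ¬ isQ x}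
  have h7 : ∀ (b : B) (q : Q), ∃ d : D, isH b.1 q.1 d.1 := by
    rintro ⟨b, hb⟩ ⟨q, hq⟩
    obtain ⟨z, hz⟩ := hN.a7 b q hb hq
    exact ⟨⟨z, (hN.a6 _ _ _ hz).2.2⟩, hz⟩
  choose h hh using h7
  have h2 : ∀ k, ∃ d : D, isC k d.1 := by
    intro k
    obtain ⟨x, hx⟩ := hN.a2 k
    exact ⟨⟨x, hN.a4 k x hx⟩, hx⟩
  choose c hc using h2
  have hH : ∀ (b : B) (q : Q) (z : N), isH b.1 q.1 z ↔ z = (h b q).1 := by
    intro b q z
    constructor
    · intro hz; exact hN.a8 _ _ _ _ hz (hh b q)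
    · rintro rfl; exact hh b q
  have hC : ∀ k (z : N), isC k z ↔ z = (c k).1 := by
    intro k z
    constructor
    · intro hz; exact hN.a3 _ _ _ hz (hc k)
    · rintro rfl; exact hc k
  refine ⟨B, Q, D, h, c, ⟨⟨c 0⟩, ?_, ?_⟩, ?_, ?_, ?_⟩
  · intro s g t
    let e := s.equivFin
    let e' := t.equivFin
    obtain ⟨y, hy, hyx, hyb⟩ := hN.a9 s.card t.card (fun i => ((e.symm i).1.1 : N))
      (fun i => (g (e.symm i).1).1) (fun j => ((e'.symm j).1.1 : N))
      (fun i => (e.symm i).1.2) (fun i => (g (e.symm i).1).2) (by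
        intro i j hij hcon
        apply hij
        exact e.symm.injective (Subtype.ext (Subtype.ext hcon)))
    refine ⟨⟨y, hy⟩, ?_, ?_⟩
    · intro hyt
      apply hyx (e' ⟨_, hyt⟩)
      simp
    · intro b hb
      have h1 := hyb (e ⟨b, hb⟩)
      simp only [Equiv.symm_apply_apply] at h1
      have h2 := (hH b ⟨y, hy⟩ _).1 h1
      exact Subtype.ext h2.symm
  · intro s g t
    let e := s.equivFin
    let e' := t.equivFin
    obtain ⟨y, hy, hyx, hyb⟩ := hN.a10 s.card t.card (fun i => ((e.symm i).1.1 : N))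
      (fun i => (g (e.symm i).1).1) (fun j => ((e'.symm j).1.1 : N))
      (fun i => (e.symm i).1.2) (fun i => (g (e.symm i).1).2) (by
        intro i j hij hcon
        apply hij
        exact e.symm.injective (Subtype.ext (Subtype.ext hcon)))
    refine ⟨⟨y, hy⟩, ?_, ?_⟩
    · intro hyt
      apply hyx (e' ⟨_, hyt⟩)
      simp
    · intro b hb
      have h1 := hyb (e ⟨b, hb⟩)
      simp only [Equiv.symm_apply_apply] at h1
      have h2 := (hH ⟨y, hy⟩ b _).1 h1
      exact Subtype.ext h2.symm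
  · intro k l hkl
    by_contra hne
    have h1 := hc k
    have h2 := hc l
    rw [hkl] at h1
    exact hN.a5 k l _ hne ⟨h1, h2⟩
  · intro hcount
    exact ⟨inferInstance, inferInstance, inferInstance⟩
  · let F : N → Mdl h c := fun x =>
      if hb : isB x then Mdl.mb ⟨x, hb⟩ else
        if hq : isQ x then Mdl.mq ⟨x, hq⟩ else Mdl.md ⟨x, hb, hq⟩
    let G : Mdl h c → N := fun y => match y with
      | Mdl.mb b => b.1
      | Mdl.mq q => q.1
      | Mdl.md d => d.1
    have hFB : ∀ x (hb : isB x), F x = Mdl.mb ⟨x, hb⟩ := fun x hb => dif_pos hb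
    have hFQ : ∀ x (hq : isQ x), F x = Mdl.mq ⟨x, hq⟩ := by
      intro x hq
      have hb : ¬ isB x := fun hb => hN.a1 x ⟨hb, hq⟩
      show dite _ _ _ = _
      rw [dif_neg hb, dif_pos hq]
    have hFD : ∀ x (hd : ¬ isB x ∧ ¬ isQ x), F x = Mdl.md ⟨x, hd⟩ := by
      intro x hd
      show dite _ _ _ = _
      rw [dif_neg hd.1, dif_neg hd.2]
    have hGF : ∀ x, G (F x) = x := by
      intro x
      by_cases hb : isB x
      · rw [hFB x hb]
      · by_cases hq : isQ x
        · rw [hFQ x hq]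
        · rw [hFD x ⟨hb, hq⟩]
    have hFG : ∀ y, F (G y) = y := by
      intro y
      rcases y with b | q | d
      · exact hFB b.1 b.2
      · exact hFQ q.1 q.2
      · exact hFD d.1 d.2
    have hFBi : ∀ x, (∃ b, F x = Mdl.mb b) ↔ isB x := by
      intro x
      constructor
      · rintro ⟨b, hb⟩
        have := congrArg G hb
        rw [hGF] at this
        rw [this]; exact b.2
      · intro hb; exact ⟨_, hFB x hb⟩
    have hFQi : ∀ x, (∃ b, F x = Mdl.mq b) ↔ isQ x := by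
      intro x
      constructor
      · rintro ⟨b, hb⟩
        have := congrArg G hb
        rw [hGF] at this
        rw [this]; exact b.2
      · intro hb; exact ⟨_, hFQ x hb⟩
    have vec1 : ∀ x : Fin 1 → N, x = ![x 0] := by
      intro x; funext i; fin_cases i; rfl
    have vec3 : ∀ x : Fin 3 → N, x = ![x 0, x 1, x 2] := by
      intro x; funext i; fin_cases i <;> rfl
    refine ⟨{ toFun := F, invFun := G, left_inv := hGF, right_inv := hFG,
              map_fun' := fun {n} f _ => Empty.elim f, map_rel' := ?_ }⟩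
    intro n r x
    cases r with
    | isB =>
      show (∃ b, F (x 0) = Mdl.mb b) ↔ Structure.RelMap (L := L0) (Rel.isB : Rel 1) x
      rw [hFBi, vec1 x]; rfl
    | isQ =>
      show (∃ b, F (x 0) = Mdl.mq b) ↔ Structure.RelMap (L := L0) (Rel.isQ : Rel 1) x
      rw [hFQi, vec1 x]; rfl
    | cst k =>
      show (F (x 0) = Mdl.md (c k)) ↔ Structure.RelMap (L := L0) (Rel.cst k : Rel 1) x
      rw [vec1 x]
      show _ ↔ isC k (x 0)
      rw [hC]
      constructor
      · intro h1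
        have := congrArg G h1
        rwa [hGF] at this
      · intro h1
        have h2 : F (c k).1 = Mdl.md (c k) := hFD (c k).1 (c k).2
        rw [← h2]
        exact congrArg F h1
    | hh =>
      show (∃ b q, F (x 0) = Mdl.mb b ∧ F (x 1) = Mdl.mq q ∧
        F (x 2) = Mdl.md (h b q)) ↔ Structure.RelMap (L := L0) (Rel.hh : Rel 3) x
      rw [vec3 x]
      show _ ↔ isH (x 0) (x 1) (x 2)
      constructor
      · rintro ⟨b, q, h1, h2, h3⟩
        have h1' := congrArg G h1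
        have h2' := congrArg G h2
        have h3' := congrArg G h3
        rw [hGF] at h1' h2' h3'
        rw [show x 0 = b.1 from h1', show x 1 = q.1 from h2', show x 2 = (h b q).1 from h3']
        exact hh b q
      · intro h1
        obtain ⟨h2, h3, h4⟩ := hN.a6 _ _ _ h1
        refine ⟨⟨x 0, h2⟩, ⟨x 1, h3⟩, hFB _ h2, hFQ _ h3, ?_⟩
        have h5 := (hH ⟨x 0, h2⟩ ⟨x 1, h3⟩ _).1 h1
        have h6 : F (x 2) = Mdl.md ⟨x 2, h4⟩ := hFD _ h4
        have h7 : (⟨x 2, h4⟩ : D) = h ⟨x 0, h2⟩ ⟨x 1, h3⟩ := Subtype.ext h5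
        rw [← h7]
        exact h6

end Pool.Agent.H647R2.Tau
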